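import Mathlib

set_option autoImplicit false

/-!
Combinatorial part for the problem on interval-algebra presentations.

Given an injective `f : ℕ → ℕ` we define a linear order on `ℕ` (the order of deficiency stages):
for `s < t` we put `s` below `t` when no `u` in `(s, t]` has `f u < f s`, and above otherwise.
Its order type is `ω` or `ω + ω*`, and the sets `[s, ∞)` generate the finite-cofinite algebra.
-/

namespace Pool.Agent.Helper73.BA

/-- The deficiency-stage order attached to `f`. -/
def leF (f : ℕ → ℕ) (s t : ℕ) : Prop :=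
  (s ≤ t ∧ ∀ u, s < u → u ≤ t → f s < f u) ∨ (t < s ∧ ∃ u, t < u ∧ u ≤ s ∧ f u < f t)

variable {f : ℕ → ℕ}

theorem leF_refl (s : ℕ) : leF f s s := Or.inl ⟨le_rfl, fun u h1 h2 => absurd h1 (not_lt.2 h2)⟩

theorem leF_of_lt {s t : ℕ} (h : s < t) : leF f s t ↔ ∀ u, s < u → u ≤ t → f s < f u := by
  constructor
  · rintro (h1 | h1)
    · exact h1.2
    · exact absurd h (not_lt.2 h1.1.le)
  · intro h1
    exact Or.inl ⟨h.le, h1⟩

theorem leF_of_gt {s t : ℕ} (h : t < s) : leF f s t ↔ ∃ u, t < u ∧ u ≤ s ∧ f u < f t := by
  constructor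
  · rintro (h1 | h1)
    · exact absurd h (not_lt.2 h1.1)
    · exact h1.2
  · intro h1
    exact Or.inr ⟨h, h1⟩

theorem not_leF_iff (hf : Function.Injective f) {s t : ℕ} (h : s ≠ t) :
    ¬ leF f s t ↔ leF f t s := by
  rcases lt_or_gt_of_ne h with h | h
  · rw [leF_of_lt h, leF_of_gt h]
    push Not
    constructor
    · rintro ⟨u, h1, h2, h3⟩
      refine ⟨u, h1, h2, lt_of_le_of_ne h3 ?_⟩
      intro h4
      exact absurd (hf h4) h1.ne'
    · rintro ⟨u, h1, h2, h3⟩
      exact ⟨u, h1, h2, h3.le⟩
  · rw [leF_of_lt h, leF_of_gt h]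
    push Not
    constructor
    · intro h1 u h2 h3
      refine lt_of_le_of_ne (h1 u h2 h3) ?_
      intro h4
      exact absurd (hf h4) h2.ne
    · intro h1 u h2 h3
      exact (h1 u h2 h3).le

theorem leF_total (hf : Function.Injective f) (s t : ℕ) : leF f s t ∨ leF f t s := by
  by_cases h : s = t
  · subst h; exact Or.inl (leF_refl _)
  · by_cases h1 : leF f s t
    · exact Or.inl h1
    · exact Or.inr ((not_leF_iff hf h).1 h1)

theorem leF_antisymm (hf : Function.Injective f) {s t : ℕ} (h1 : leF f s t) (h2 : leF f t s) :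
    s = t := by
  by_contra h
  exact (not_leF_iff hf (Ne.symm h)).2 h1 h2

theorem leF_trans (hf : Function.Injective f) {a b c : ℕ} (h1 : leF f a b) (h2 : leF f b c) :
    leF f a c := by
  by_cases hab : a = b
  · subst hab; exact h2
  by_cases hbc : b = c
  · subst hbc; exact h1
  by_cases hac : a = c
  · subst hac; exact leF_refl _
  rcases lt_or_gt_of_ne hab with h | h
  · rw [leF_of_lt h] at h1
    rcases lt_or_gt_of_ne hbc with h' | h'
    · -- a < b < c
      rw [leF_of_lt h'] at h2
      rw [leF_of_lt (h.trans h')]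
      intro u hu1 hu2
      rcases le_or_gt u b with hub | hub
      · exact h1 u hu1 hub
      · exact (h1 b h le_rfl).trans (h2 u hub hu2)
    · -- c < b, a < b
      rw [leF_of_gt h'] at h2
      obtain ⟨u, hu1, hu2, hu3⟩ := h2
      rcases lt_or_gt_of_ne hac with h'' | h''
      · -- a < c < b
        rw [leF_of_lt h'']
        intro v hv1 hv2
        exact h1 v hv1 (hv2.trans h'.le)
      · -- c < a < b
        rw [leF_of_gt h'']
        rcases le_or_gt u a with hua | hua
        · exact ⟨u, hu1, hua, hu3⟩
        · refine ⟨a, h'', le_rfl, ?_⟩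
          exact (h1 u hua hu2).trans hu3
  · rw [leF_of_gt h] at h1
    obtain ⟨u, hu1, hu2, hu3⟩ := h1
    rcases lt_or_gt_of_ne hbc with h' | h'
    · -- b < a, b < c
      rw [leF_of_lt h'] at h2
      rcases lt_or_gt_of_ne hac with h'' | h''
      · -- b < a < c
        exact absurd (h2 u hu1 (hu2.trans h''.le)) (not_lt.2 hu3.le)
      · -- b < c < a
        rw [leF_of_gt h'']
        have huc : c < u := by
          by_contra hcon
          exact absurd (h2 u hu1 (not_lt.1 hcon)) (not_lt.2 hu3.le)
        exact ⟨u, huc, hu2, hu3.trans (h2 c h' le_rfl)⟩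
    · -- c < b < a
      rw [leF_of_gt h'] at h2
      obtain ⟨v, hv1, hv2, hv3⟩ := h2
      rw [leF_of_gt (h'.trans h)]
      exact ⟨v, hv1, hv2.trans h.le, hv3⟩

/-- `s` is a true stage. -/
def IsTrue (f : ℕ → ℕ) (s : ℕ) : Prop := ∀ u, s < u → f s < f u

theorem exists_true (hf : Function.Injective f) (n : ℕ) : ∃ s, n < s ∧ IsTrue f s := by
  classical
  have hne : ∃ m, ∃ u, n < u ∧ f u = m := ⟨f (n+1), n+1, Nat.lt_succ_self n, rfl⟩
  obtain ⟨u, hu1, hu2⟩ := Nat.find_spec hne
  refine ⟨u, hu1, ?_⟩
  intro v hv
  have h1 : Nat.find hne ≤ f v := Nat.find_min' hne ⟨v, hu1.trans hv, rfl⟩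
  rw [← hu2] at h1
  refine lt_of_le_of_ne h1 ?_
  intro h2
  exact absurd (hf h2) hv.ne

theorem exists_true_gt (hf : Function.Injective f) (n : ℕ) : ∃ s, n < f s ∧ IsTrue f s := by
  classical
  -- beyond some point all values are > n
  have hfin : {s | f s ≤ n}.Finite := Set.Finite.preimage hf.injOn (Set.finite_Iic n)
  obtain ⟨N, hN⟩ := hfin.bddAbove
  obtain ⟨s, hs1, hs2⟩ := exists_true hf N
  refine ⟨s, ?_, hs2⟩
  by_contra hcon
  exact absurd (hN (not_lt.1 hcon)) (not_le.2 hs1)

theorem true_below_finite {s : ℕ} (h : IsTrue f s) : {x | leF f x s}.Finite := by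
  refine (Set.finite_Iic s).subset ?_
  intro x hx
  by_contra hcon
  have hlt : s < x := not_le.1 hcon
  have hx' : leF f x s := hx
  rw [leF_of_gt hlt] at hx'
  obtain ⟨u, hu1, hu2, hu3⟩ := hx'
  exact absurd (h u hu1) (not_lt.2 hu3.le)

theorem false_above_finite (hf : Function.Injective f) {s : ℕ} (h : ¬ IsTrue f s) :
    {x | leF f s x}.Finite := by
  unfold IsTrue at h
  push Not at h
  obtain ⟨u, hu1, hu2⟩ := h
  have hu3 : f u < f s := lt_of_le_of_ne hu2 (fun h => absurd (hf h) hu1.ne')
  refine (Set.finite_Iic u).subset ?_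
  intro x hx
  by_contra hcon
  have hlt : u < x := not_le.1 hcon
  have hx' : leF f s x := hx
  rw [leF_of_lt (hu1.trans hlt)] at hx'
  exact absurd (hx' u hu1 hlt.le) (not_lt.2 hu3.le)

theorem zero_leF (h0 : ∀ u, 0 < u → f 0 < f u) (x : ℕ) : leF f 0 x := by
  rcases Nat.eq_zero_or_pos x with h | h
  · subst h; exact leF_refl _
  · rw [leF_of_lt h]
    intro u hu _
    exact h0 u hu

/-- A nonempty finite set of naturals has a least element with respect to `leF f`. -/
theorem exists_min (hf : Function.Injective f) (S : Finset ℕ) (hS : S.Nonempty) :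
    ∃ s ∈ S, ∀ t ∈ S, leF f s t := by
  classical
  induction S using Finset.induction_on with
  | empty => exact absurd hS (by simp)
  | insert a S ha ih =>
    by_cases hne : S.Nonempty
    · obtain ⟨s, hs, hmin⟩ := ih hne
      rcases leF_total hf a s with h | h
      · refine ⟨a, Finset.mem_insert_self _ _, ?_⟩
        intro t ht
        rcases Finset.mem_insert.1 ht with rfl | ht
        · exact leF_refl _
        · exact leF_trans hf h (hmin t ht)
      · refine ⟨s, Finset.mem_insert_of_mem hs, ?_⟩
        intro t ht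
        rcases Finset.mem_insert.1 ht with rfl | ht
        · exact h
        · exact hmin t ht
    · rw [Finset.not_nonempty_iff_eq_empty] at hne
      subst hne
      refine ⟨a, Finset.mem_insert_self _ _, ?_⟩
      intro t ht
      simp at ht
      subst ht
      exact leF_refl _

/-- A nonempty finite set of naturals has a greatest element with respect to `leF f`. -/
theorem exists_max (hf : Function.Injective f) (S : Finset ℕ) (hS : S.Nonempty) :
    ∃ s ∈ S, ∀ t ∈ S, leF f t s := by
  classical
  induction S using Finset.induction_on with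
  | empty => exact absurd hS (by simp)
  | insert a S ha ih =>
    by_cases hne : S.Nonempty
    · obtain ⟨s, hs, hmin⟩ := ih hne
      rcases leF_total hf s a with h | h
      · refine ⟨a, Finset.mem_insert_self _ _, ?_⟩
        intro t ht
        rcases Finset.mem_insert.1 ht with rfl | ht
        · exact leF_refl _
        · exact leF_trans hf (hmin t ht) h
      · refine ⟨s, Finset.mem_insert_of_mem hs, ?_⟩
        intro t ht
        rcases Finset.mem_insert.1 ht with rfl | ht
        · exact h
        · exact hmin t ht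
    · rw [Finset.not_nonempty_iff_eq_empty] at hne
      subst hne
      refine ⟨a, Finset.mem_insert_self _ _, ?_⟩
      intro t ht
      simp at ht
      subst ht
      exact leF_refl _

open Classical in
/-- The element of the interval algebra coded by the finite set `S` of cut points. -/
def Phi (f : ℕ → ℕ) (S : Finset ℕ) : Set ℕ := {x | Odd ((S.filter (fun s => leF f s x)).card)}

theorem mem_Phi {S : Finset ℕ} {x : ℕ} :
    x ∈ Phi f S ↔ Odd ((@Finset.filter _ (fun s => leF f s x) (Classical.decPred _) S).card) :=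
  Iff.rfl

theorem odd_card_symmDiff {α : Type*} [DecidableEq α] (A B : Finset α) :
    Odd ((symmDiff A B).card) ↔ ¬ (Odd A.card ↔ Odd B.card) := by
  have h1 : (symmDiff A B).card + 2 * (A ∩ B).card = A.card + B.card := by
    have e1 : symmDiff A B = (A \ B) ∪ (B \ A) := rfl
    have e2 : (symmDiff A B).card = (A \ B).card + (B \ A).card := by
      rw [e1, Finset.card_union_of_disjoint]
      exact disjoint_sdiff_sdiff
    have e3 := Finset.card_sdiff_add_card_inter A B
    have e4 := Finset.card_sdiff_add_card_inter B A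
    rw [Finset.inter_comm B A] at e4
    omega
  rw [Nat.odd_iff, Nat.odd_iff, Nat.odd_iff]
  omega

theorem Phi_symmDiff (S T : Finset ℕ) : Phi f (symmDiff S T) = symmDiff (Phi f S) (Phi f T) := by
  classical
  ext x
  have h1 : (symmDiff S T).filter (fun s => leF f s x) =
      symmDiff (S.filter (fun s => leF f s x)) (T.filter (fun s => leF f s x)) := by
    ext y
    simp only [Finset.mem_filter, Finset.mem_symmDiff]
    tauto
  have h2 := odd_card_symmDiff (S.filter (fun s => leF f s x)) (T.filter (fun s => leF f s x))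
  rw [← h1] at h2
  rw [Set.mem_symmDiff]
  rw [mem_Phi, mem_Phi, mem_Phi]
  have h3 : ∀ U : Finset ℕ, (@Finset.filter _ (fun s => leF f s x) (Classical.decPred _) U)
      = U.filter (fun s => leF f s x) := by
    intro U; rfl
  rw [h3, h3, h3]
  rw [h2]
  tauto

theorem Phi_empty : Phi f ∅ = ∅ := by
  ext x
  simp [mem_Phi]

theorem Phi_singleton (s : ℕ) : Phi f {s} = {x | leF f s x} := by
  classical
  ext x
  rw [mem_Phi]
  by_cases h : leF f s x
  · rw [Finset.filter_singleton, if_pos h]
    simpa using h
  · rw [Finset.filter_singleton, if_neg h]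
    simpa using h

theorem Phi_ne_empty (hf : Function.Injective f) {S : Finset ℕ} (hS : S.Nonempty) :
    (Phi f S).Nonempty := by
  classical
  obtain ⟨s, hs, hmin⟩ := exists_min hf S hS
  refine ⟨s, ?_⟩
  rw [mem_Phi]
  have : (@Finset.filter _ (fun t => leF f t s) (Classical.decPred _) S) = {s} := by
    ext t
    simp only [Finset.mem_filter, Finset.mem_singleton]
    constructor
    · rintro ⟨h1, h2⟩
      exact leF_antisymm hf h2 (hmin t h1)
    · rintro rfl
      exact ⟨hs, leF_refl _⟩
  rw [this]
  simp

theorem Phi_injective (hf : Function.Injective f) : Function.Injective (Phi f) := by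
  classical
  intro S T h
  by_contra hne
  have h1 : (symmDiff S T).Nonempty := by
    rw [Finset.nonempty_iff_ne_empty]
    intro h2
    exact hne (symmDiff_eq_bot.1 h2)
  have h2 := Phi_ne_empty hf h1
  rw [Phi_symmDiff, h, symmDiff_self] at h2
  exact absurd h2 (by simp)

/-- every singleton is an element of the interval algebra -/
theorem exists_Phi_singleton (hf : Function.Injective f) (x : ℕ) : ∃ S, Phi f S = {x} := by
  classical
  by_cases hmax : ∀ y, leF f y x
  · refine ⟨{x}, ?_⟩
    rw [Phi_singleton]
    ext y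
    simp only [Set.mem_setOf_eq, Set.mem_singleton_iff]
    constructor
    · intro h; exact leF_antisymm hf (hmax y) h
    · rintro rfl; exact leF_refl _
  · push Not at hmax
    obtain ⟨y0, hy0⟩ := hmax
    have hy0' : leF f x y0 ∧ y0 ≠ x := by
      have hne : y0 ≠ x := by
        rintro rfl; exact hy0 (leF_refl _)
      exact ⟨(not_leF_iff hf hne).1 hy0, hne⟩
    -- an element above x with finitely many elements between
    have hex : ∃ y, leF f x y ∧ y ≠ x ∧ {z | leF f x z ∧ z ≠ x ∧ leF f z y}.Finite := by
      by_cases hx : IsTrue f x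
      · obtain ⟨y, hy1, hy2⟩ := exists_true hf x
        refine ⟨y, ?_, hy1.ne', ?_⟩
        · rw [leF_of_lt hy1]
          intro u hu _
          exact hx u hu
        · exact (true_below_finite hy2).subset (fun z hz => hz.2.2)
      · exact ⟨y0, hy0'.1, hy0'.2, (false_above_finite hf hx).subset (fun z hz => hz.1)⟩
    obtain ⟨y, hy1, hy2, hfin⟩ := hex
    obtain ⟨m, hm, hmin⟩ := exists_min hf hfin.toFinset
      ⟨y, by simpa using ⟨hy1, hy2, leF_refl _⟩⟩
    have hm' : leF f x m ∧ m ≠ x ∧ leF f m y := by simpa using hm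
    refine ⟨symmDiff {x} {m}, ?_⟩
    rw [Phi_symmDiff, Phi_singleton, Phi_singleton]
    ext z
    simp only [Set.mem_symmDiff, Set.mem_setOf_eq, Set.mem_singleton_iff]
    constructor
    · rintro (⟨h1, h2⟩ | ⟨h1, h2⟩)
      · by_contra hzx
        have hzm : z ≠ m := by
          rintro rfl; exact h2 (leF_refl _)
        have h3 : leF f z m := (not_leF_iff hf (Ne.symm hzm)).1 h2
        have h4 : leF f m z := by
          apply hmin
          simpa using ⟨h1, hzx, leF_trans hf h3 hm'.2.2⟩
        exact h2 h4
      · exact absurd (leF_trans hf hm'.1 h1) h2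
    · rintro rfl
      left
      refine ⟨leF_refl _, ?_⟩
      intro h
      exact hm'.2.1 (leF_antisymm hf h hm'.1)

theorem exists_Phi_finite (hf : Function.Injective f) {X : Set ℕ} (hX : X.Finite) :
    ∃ S, Phi f S = X := by
  classical
  induction X, hX using Set.Finite.induction_on with
  | empty => exact ⟨∅, Phi_empty⟩
  | @insert a s ha _ ih =>
    obtain ⟨S, hS⟩ := ih
    obtain ⟨T, hT⟩ := exists_Phi_singleton hf a
    refine ⟨symmDiff T S, ?_⟩
    rw [Phi_symmDiff, hS, hT]
    ext z
    simp only [Set.mem_symmDiff, Set.mem_singleton_iff, Set.mem_insert_iff]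
    constructor
    · rintro (⟨h1, h2⟩ | ⟨h1, h2⟩)
      · exact Or.inl h1
      · exact Or.inr h1
    · rintro (rfl | h)
      · exact Or.inl ⟨rfl, ha⟩
      · refine Or.inr ⟨h, ?_⟩
        rintro rfl
        exact ha h

theorem exists_Phi_cofinite (hf : Function.Injective f) (h0 : ∀ u, 0 < u → f 0 < f u)
    {X : Set ℕ} (hX : Xᶜ.Finite) :
    ∃ S, Phi f S = X := by
  classical
  obtain ⟨S, hS⟩ := exists_Phi_finite hf hX
  refine ⟨symmDiff {0} S, ?_⟩
  rw [Phi_symmDiff, hS, Phi_singleton]
  have : {x | leF f 0 x} = Set.univ := by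
    ext x
    simpa using zero_leF h0 x
  rw [this]
  ext z
  simp [Set.mem_symmDiff]

theorem Phi_fincofin (hf : Function.Injective f) (S : Finset ℕ) :
    (Phi f S).Finite ∨ (Phi f S)ᶜ.Finite := by
  classical
  induction S using Finset.induction_on with
  | empty => left; rw [Phi_empty]; exact Set.finite_empty
  | insert a S ha ih =>
    have h1 : insert a S = symmDiff {a} S := by
      ext z
      simp only [Finset.mem_insert, Finset.mem_symmDiff, Finset.mem_singleton]
      constructor
      · rintro (rfl | h)
        · exact Or.inl ⟨rfl, ha⟩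
        · refine Or.inr ⟨h, ?_⟩
          rintro rfl; exact ha h
      · rintro (⟨h1, h2⟩ | ⟨h1, h2⟩)
        · exact Or.inl h1
        · exact Or.inr h1
    rw [h1, Phi_symmDiff, Phi_singleton]
    have h2 : {x | leF f a x}.Finite ∨ {x | leF f a x}ᶜ.Finite := by
      by_cases ht : IsTrue f a
      · right
        refine (true_below_finite ht).subset ?_
        intro x hx
        have hx' : ¬ leF f a x := hx
        have hne : a ≠ x := by
          rintro rfl; exact hx' (leF_refl _)
        exact (not_leF_iff hf hne).1 hx'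
      · left
        exact false_above_finite hf ht
    rcases h2 with h2 | h2 <;> rcases ih with h3 | h3
    · left
      exact (h2.union h3).subset Set.symmDiff_subset_union
    · right
      refine (h2.union h3).subset ?_
      intro z hz
      simp only [Set.mem_compl_iff, Set.mem_symmDiff] at hz
      simp only [Set.mem_union, Set.mem_compl_iff]
      tauto
    · right
      refine (h2.union h3).subset ?_
      intro z hz
      simp only [Set.mem_compl_iff, Set.mem_symmDiff] at hz
      simp only [Set.mem_union, Set.mem_compl_iff]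
      tauto
    · left
      refine (h2.union h3).subset ?_
      intro z hz
      simp only [Set.mem_symmDiff] at hz
      simp only [Set.mem_union, Set.mem_compl_iff]
      tauto

/-- equality of coded sets is decided on the cut points -/
theorem test_points (hf : Function.Injective f) (h0 : ∀ u, 0 < u → f 0 < f u)
    (E : Finset ℕ) (hE : 0 ∈ E) (x : ℕ) :
    ∃ y ∈ E, ∀ S : Finset ℕ, S ⊆ E → (x ∈ Phi f S ↔ y ∈ Phi f S) := by
  classical
  obtain ⟨y, hy, hmax⟩ := exists_max hf (E.filter (fun s => leF f s x))
    ⟨0, by simp [hE, zero_leF h0]⟩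
  rw [Finset.mem_filter] at hy
  refine ⟨y, hy.1, ?_⟩
  intro S hS
  rw [mem_Phi, mem_Phi]
  have : (@Finset.filter _ (fun s => leF f s x) (Classical.decPred _) S) =
      (@Finset.filter _ (fun s => leF f s y) (Classical.decPred _) S) := by
    ext t
    simp only [Finset.mem_filter]
    constructor
    · rintro ⟨h1, h2⟩
      exact ⟨h1, hmax t (Finset.mem_filter.2 ⟨hS h1, h2⟩)⟩
    · rintro ⟨h1, h2⟩
      exact ⟨h1, leF_trans hf h2 hy.2⟩
  rw [this]

end Pool.Agent.Helper73.BA
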