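import Mathlib
import Pool.Agent.Helper73.BAOrder

set_option autoImplicit false

/-!
Computability part: a primitive recursive injective function with noncomputable range, and
primitive recursiveness of the membership relation of the coded algebra.
-/

namespace Pool.Agent.Helper73.BA

open Nat.Partrec (Code)
open Nat.Partrec.Code

/-- the `i`-th program halts on input `0` within `k` steps -/
def haltsBy (i k : ℕ) : Bool := (evaln k (Denumerable.ofNat Code i) 0).isSome

theorem haltsBy_primrec : Primrec₂ haltsBy := by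
  unfold haltsBy
  have h1 : Primrec fun p : ℕ × ℕ => ((p.2, Denumerable.ofNat Code p.1), 0) := by
    refine Primrec.pair (Primrec.pair Primrec.snd ?_) (Primrec.const 0)
    exact (Primrec.ofNat Code).comp Primrec.fst
  exact Primrec.option_isSome.comp (primrec_evaln.comp h1)

theorem haltsBy_mono {i k l : ℕ} (h : k ≤ l) (hk : haltsBy i k = true) : haltsBy i l = true := by
  unfold haltsBy at *
  rw [Option.isSome_iff_exists] at *
  obtain ⟨a, ha⟩ := hk
  exact ⟨a, evaln_mono h ha⟩

theorem haltsBy_zero (i : ℕ) : haltsBy i 0 = false := by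
  unfold haltsBy
  simp [evaln]

/-- program `i` is first seen to halt at stage `k+1` -/
def enters (i k : ℕ) : Bool := haltsBy i (k+1) && !(haltsBy i k)

theorem enters_primrec : Primrec₂ enters := by
  unfold enters
  exact Primrec.and.comp (haltsBy_primrec.comp Primrec.fst (Primrec.succ.comp Primrec.snd))
    (Primrec.not.comp (haltsBy_primrec.comp Primrec.fst Primrec.snd))

theorem enters_unique {i k l : ℕ} (hk : enters i k = true) (hl : enters i l = true) : k = l := by
  unfold enters at *
  simp only [Bool.and_eq_true, Bool.not_eq_true'] at hk hl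
  rcases lt_trichotomy k l with h | h | h
  · have := haltsBy_mono (Nat.succ_le_of_lt h) hk.1
    rw [hl.2] at this; exact absurd this (by simp)
  · exact h
  · have := haltsBy_mono (Nat.succ_le_of_lt h) hl.1
    rw [hk.2] at this; exact absurd this (by simp)

theorem exists_enters_iff (i : ℕ) :
    (∃ k, enters i k = true) ↔ (eval (Denumerable.ofNat Code i) 0).Dom := by
  constructor
  · rintro ⟨k, hk⟩
    unfold enters haltsBy at hk
    simp only [Bool.and_eq_true, Bool.not_eq_true'] at hk
    rw [Option.isSome_iff_exists] at hk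
    obtain ⟨a, ha⟩ := hk.1
    exact Part.dom_iff_mem.2 ⟨a, evaln_sound ha⟩
  · intro h
    obtain ⟨a, ha⟩ := Part.dom_iff_mem.1 h
    obtain ⟨k, hk⟩ := evaln_complete.1 ha
    have h1 : ∃ k, haltsBy i k = true := ⟨k, by
      unfold haltsBy; rw [Option.isSome_iff_exists]; exact ⟨a, hk⟩⟩
    have h2 := Nat.find_spec h1
    have h3 : Nat.find h1 ≠ 0 := by
      intro h4
      rw [h4, haltsBy_zero] at h2
      exact absurd h2 (by simp)
    obtain ⟨m, hm⟩ := Nat.exists_eq_succ_of_ne_zero h3
    refine ⟨m, ?_⟩
    unfold enters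
    rw [hm] at h2
    have h4 : ¬ haltsBy i m = true := Nat.find_min h1 (by omega)
    simp only [Bool.and_eq_true, Bool.not_eq_true']
    exact ⟨h2, by simpa using h4⟩

/-- an injective primitive recursive function with a noncomputable range -/
def enumF (s : ℕ) : ℕ :=
  Nat.casesOn s 0 (fun m => bif enters m.unpair.1 m.unpair.2 then 2 * m.unpair.1 + 1 else 2 * m + 2)

theorem enumF_zero : enumF 0 = 0 := rfl

theorem enumF_succ (m : ℕ) :
    enumF (m+1) = bif enters m.unpair.1 m.unpair.2 then 2 * m.unpair.1 + 1 else 2 * m + 2 := rfl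

theorem enumF_pos (m : ℕ) (hm : 0 < m) : 0 < enumF m := by
  obtain ⟨k, rfl⟩ := Nat.exists_eq_succ_of_ne_zero hm.ne'
  rw [Nat.succ_eq_add_one, enumF_succ]
  cases enters (Nat.unpair k).1 (Nat.unpair k).2 <;> simp

theorem enumF_injective : Function.Injective enumF := by
  intro a b hab
  rcases Nat.eq_zero_or_pos a with ha | ha
  · subst ha
    rcases Nat.eq_zero_or_pos b with hb | hb
    · exact hb.symm
    · rw [enumF_zero] at hab
      exact absurd hab (enumF_pos b hb).ne
  · rcases Nat.eq_zero_or_pos b with hb | hb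
    · subst hb
      rw [enumF_zero] at hab
      exact absurd hab (enumF_pos a ha).ne'
    · obtain ⟨k, rfl⟩ := Nat.exists_eq_succ_of_ne_zero ha.ne'
      obtain ⟨l, rfl⟩ := Nat.exists_eq_succ_of_ne_zero hb.ne'
      rw [Nat.succ_eq_add_one, Nat.succ_eq_add_one, enumF_succ, enumF_succ] at hab
      cases hk : enters (Nat.unpair k).1 (Nat.unpair k).2 <;>
        cases hl : enters (Nat.unpair l).1 (Nat.unpair l).2 <;>
        rw [hk, hl] at hab <;> simp only [cond_true, cond_false] at hab
      · congr 1; omega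
      · omega
      · omega
      · have h1 : (Nat.unpair k).1 = (Nat.unpair l).1 := by omega
        rw [h1] at hk
        have h2 := enters_unique hk hl
        have h3 : k = l := by
          rw [← Nat.pair_unpair k, ← Nat.pair_unpair l, h1, h2]
        rw [h3]

theorem enumF_primrec : Primrec enumF := by
  unfold enumF
  refine Primrec.nat_casesOn Primrec.id (Primrec.const 0) ?_
  refine Primrec.cond ?_ ?_ ?_
  · exact enters_primrec.comp (Primrec.fst.comp (Primrec.unpair.comp Primrec.snd))
      (Primrec.snd.comp (Primrec.unpair.comp Primrec.snd))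
  · exact Primrec.nat_double_succ.comp (Primrec.fst.comp (Primrec.unpair.comp Primrec.snd))
  · exact (Primrec.nat_add.comp (Primrec.nat_double.comp Primrec.snd) (Primrec.const 2))

theorem mem_range_enumF (i : ℕ) :
    (∃ s, enumF s = 2 * i + 1) ↔ (eval (Denumerable.ofNat Code i) 0).Dom := by
  rw [← exists_enters_iff]
  constructor
  · rintro ⟨s, hs⟩
    rcases Nat.eq_zero_or_pos s with h | h
    · subst h; rw [enumF_zero] at hs; omega
    · obtain ⟨k, rfl⟩ := Nat.exists_eq_succ_of_ne_zero h.ne'
      rw [Nat.succ_eq_add_one, enumF_succ] at hs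
      cases hk : enters (Nat.unpair k).1 (Nat.unpair k).2 <;> rw [hk] at hs <;>
        simp only [cond_true, cond_false] at hs
      · omega
      · have : (Nat.unpair k).1 = i := by omega
        rw [this] at hk
        exact ⟨_, hk⟩
  · rintro ⟨k, hk⟩
    refine ⟨Nat.pair i k + 1, ?_⟩
    rw [enumF_succ, Nat.unpair_pair]
    simp [hk]

/-- the range of `enumF` is not computable -/
theorem range_enumF_not_computable : ¬ ComputablePred (fun n : ℕ => ∃ s, enumF s = n) := by
  intro h
  apply ComputablePred.halting_problem 0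
  obtain ⟨g, hg, hg'⟩ := ComputablePred.computable_iff.1 h
  rw [ComputablePred.computable_iff]
  refine ⟨fun c => g (2 * Encodable.encode c + 1), ?_, ?_⟩
  · exact hg.comp (Primrec.nat_double_succ.comp Primrec.encode).to_comp
  · funext c
    have h1 := congrFun hg' (2 * Encodable.encode c + 1)
    have h2 := mem_range_enumF (Encodable.encode c)
    rw [Denumerable.ofNat_encode] at h2
    rw [← h1, h2]

/-- true stages of `enumF` are not computable -/
theorem isTrue_not_computable : ¬ ComputablePred (fun s : ℕ => IsTrue enumF s) := by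
  classical
  intro h
  apply range_enumF_not_computable
  obtain ⟨g, hg, hg'⟩ := ComputablePred.computable_iff.1 h
  have hex : ∀ n : ℕ, ∃ s, g s = true ∧ n < enumF s := by
    intro n
    obtain ⟨s, hs1, hs2⟩ := exists_true_gt enumF_injective n
    refine ⟨s, ?_, hs1⟩
    have := congrFun hg' s
    rw [← this]; exact hs2
  have hcomp : ComputablePred (fun p : ℕ × ℕ => g p.2 = true ∧ p.1 < enumF p.2) := by
    rw [ComputablePred.computable_iff]
    refine ⟨fun p => g p.2 && decide (p.1 < enumF p.2), ?_, ?_⟩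
    · refine (Primrec.and.to_comp).comp (hg.comp Computable.snd) ?_
      exact (Primrec.nat_lt.decide.comp Primrec.fst (enumF_primrec.comp Primrec.snd)).to_comp
    · funext p
      simp
  have hfind := Computable.find (P := fun n s => g s = true ∧ n < enumF s) hcomp hex
  have key : ∀ n, (∃ s, enumF s = n) ↔ (∃ s < Nat.find (hex n) + 1, enumF s = n) := by
    intro n
    constructor
    · rintro ⟨s, hs⟩
      refine ⟨s, ?_, hs⟩
      by_contra hcon
      obtain ⟨h1, h2⟩ := Nat.find_spec (hex n)
      have h3 : IsTrue enumF (Nat.find (hex n)) := by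
        have := congrFun hg' (Nat.find (hex n))
        rw [this]; exact h1
      have h4 := h3 s (by omega)
      omega
    · rintro ⟨s, _, hs⟩
      exact ⟨s, hs⟩
  have hrel : PrimrecRel (fun m n : ℕ => ∃ s < m, enumF s = n) := by
    have : PrimrecRel (fun s n : ℕ => enumF s = n) :=
      Primrec.eq.comp₂ (enumF_primrec.comp₂ Primrec₂.left) Primrec₂.right
    exact this.exists_lt
  have hfin : ComputablePred (fun n : ℕ => ∃ s < Nat.find (hex n) + 1, enumF s = n) := by
    rw [ComputablePred.computable_iff]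
    refine ⟨fun n => decide (∃ s < Nat.find (hex n) + 1, enumF s = n), ?_, ?_⟩
    · have h1 : Computable₂ (fun m n : ℕ => decide (∃ s < m, enumF s = n)) := hrel.decide.to_comp
      exact h1.comp (Computable.succ.comp hfind) Computable.id
    · funext n
      simp
  exact hfin.of_eq (fun n => (key n).symm)

/-! ### Primitive recursiveness of the membership relation -/

theorem leF_iff_bounded {f : ℕ → ℕ} (s t : ℕ) : leF f s t ↔
    (s ≤ t ∧ ∀ u < t + 1, (s < u → f s < f u)) ∨
      (t < s ∧ ∃ u < s + 1, (t < u ∧ f u < f t)) := by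
  unfold leF
  constructor
  · rintro (⟨h1, h2⟩ | ⟨h1, u, h2, h3, h4⟩)
    · exact Or.inl ⟨h1, fun u hu hu' => h2 u hu' (by omega)⟩
    · exact Or.inr ⟨h1, u, by omega, h2, h4⟩
  · rintro (⟨h1, h2⟩ | ⟨h1, u, h2, h3, h4⟩)
    · exact Or.inl ⟨h1, fun u hu hu' => h2 u (by omega) hu⟩
    · exact Or.inr ⟨h1, u, h3, by omega, h4⟩

theorem leF_primrec {f : ℕ → ℕ} (hf : Primrec f) : PrimrecRel (leF f) := by
  classical
  have hA : PrimrecRel (fun (u s : ℕ) => (s < u → f s < f u)) := by
    have h1 : PrimrecRel (fun (u s : ℕ) => ¬ s < u) :=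
      PrimrecRel.not (Primrec.nat_lt.comp₂ Primrec₂.right Primrec₂.left)
    have h2 : PrimrecRel (fun (u s : ℕ) => f s < f u) :=
      Primrec.nat_lt.comp₂ (hf.comp₂ Primrec₂.right) (hf.comp₂ Primrec₂.left)
    have h3 : PrimrecRel (fun (u s : ℕ) => ¬ s < u ∨ f s < f u) := PrimrecPred.or h1 h2
    refine h3.of_eq ?_
    intro a b
    tauto
  have hB : PrimrecRel (fun (u t : ℕ) => (t < u ∧ f u < f t)) :=
    PrimrecPred.and (Primrec.nat_lt.comp₂ Primrec₂.right Primrec₂.left)
      (Primrec.nat_lt.comp₂ (hf.comp₂ Primrec₂.left) (hf.comp₂ Primrec₂.right))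
  have hA' : PrimrecRel (fun (n s : ℕ) => ∀ u < n, (s < u → f s < f u)) := hA.forall_lt
  have hB' : PrimrecRel (fun (n t : ℕ) => ∃ u < n, (t < u ∧ f u < f t)) := hB.exists_lt
  have hA'' : PrimrecRel (fun (s t : ℕ) => ∀ u < t + 1, (s < u → f s < f u)) :=
    hA'.comp₂ (Primrec.succ.comp₂ Primrec₂.right) Primrec₂.left
  have hB'' : PrimrecRel (fun (s t : ℕ) => ∃ u < s + 1, (t < u ∧ f u < f t)) :=
    hB'.comp₂ (Primrec.succ.comp₂ Primrec₂.left) Primrec₂.right
  have hfin : PrimrecRel (fun (s t : ℕ) => (s ≤ t ∧ ∀ u < t + 1, (s < u → f s < f u)) ∨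
      (t < s ∧ ∃ u < s + 1, (t < u ∧ f u < f t))) :=
    PrimrecPred.or (PrimrecPred.and Primrec.nat_le hA'')
      (PrimrecPred.and (Primrec.nat_lt.comp₂ Primrec₂.right Primrec₂.left) hB'')
  exact hfin.of_eq (fun s t => (leF_iff_bounded s t).symm)

/-- the finite set coded by `k` -/
def code (k : ℕ) : Finset ℕ := Finset.equivBitIndices k

theorem mem_code {i k : ℕ} : i ∈ code k ↔ k / 2 ^ i % 2 = 1 := by
  unfold code
  rw [Finset.equivBitIndices_apply, List.mem_toFinset, Nat.mem_bitIndices,
    Nat.testBit_eq_decide_div_mod_eq]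
  simp

theorem mem_code_lt {i k : ℕ} (h : i ∈ code k) : i < k := by
  rw [mem_code] at h
  by_contra hcon
  have h1 : k < 2 ^ i := lt_of_le_of_lt (not_lt.1 hcon) (Nat.lt_two_pow_self)
  rw [Nat.div_eq_of_lt h1] at h
  omega

theorem nat_pow_primrec : Primrec (fun i : ℕ => 2 ^ i) := by
  have h : Primrec₂ (fun a b : ℕ => a ^ b) := Primrec₂.unpaired'.1 Nat.Primrec.pow
  exact h.comp (Primrec.const 2) Primrec.id

theorem mem_code_primrec : PrimrecRel (fun i k : ℕ => i ∈ code k) := by
  have h : PrimrecRel (fun i k : ℕ => k / 2 ^ i % 2 = 1) := by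
    refine Primrec.eq.comp₂ ?_ (Primrec₂.const 1)
    refine Primrec.nat_mod.comp₂ ?_ (Primrec₂.const 2)
    exact Primrec.nat_div.comp₂ Primrec₂.right (nat_pow_primrec.comp₂ Primrec₂.left)
  exact h.of_eq (fun i k => mem_code.symm)

open Classical in
/-- parity of the number of cut points below `n` that are `⪯ x` -/
noncomputable def par (f : ℕ → ℕ) (k x n : ℕ) : Bool :=
  Nat.rec false (fun m b => xor b (decide (m ∈ code k ∧ leF f m x))) n

theorem par_spec {f : ℕ → ℕ} (k x n : ℕ) : par f k x n = true ↔
    Odd ((@Finset.filter _ (fun s => s < n ∧ leF f s x) (Classical.decPred _) (code k)).card) := by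
  classical
  induction n with
  | zero => simp [par]
  | succ n ih =>
    have h1 : par f k x (n+1) = xor (par f k x n) (decide (n ∈ code k ∧ leF f n x)) := rfl
    rw [h1]
    by_cases h : n ∈ code k ∧ leF f n x
    · have h2 : (@Finset.filter _ (fun s => s < n+1 ∧ leF f s x) (Classical.decPred _) (code k)) =
          insert n (@Finset.filter _ (fun s => s < n ∧ leF f s x) (Classical.decPred _) (code k)) := by
        ext t
        simp only [Finset.mem_filter, Finset.mem_insert]
        constructor
        · rintro ⟨a, b, c⟩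
          rcases Nat.lt_succ_iff_lt_or_eq.1 b with hb | hb
          · exact Or.inr ⟨a, hb, c⟩
          · exact Or.inl hb
        · rintro (rfl | ⟨a, b, c⟩)
          · exact ⟨h.1, Nat.lt_succ_self _, h.2⟩
          · exact ⟨a, by omega, c⟩
      rw [h2, Finset.card_insert_of_notMem (by simp)]
      rw [Nat.odd_add_one, ← ih]
      simp [h]
    · have h2 : (@Finset.filter _ (fun s => s < n+1 ∧ leF f s x) (Classical.decPred _) (code k)) =
          (@Finset.filter _ (fun s => s < n ∧ leF f s x) (Classical.decPred _) (code k)) := by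
        ext t
        simp only [Finset.mem_filter]
        constructor
        · rintro ⟨a, b, c⟩
          rcases Nat.lt_succ_iff_lt_or_eq.1 b with hb | hb
          · exact ⟨a, hb, c⟩
          · subst hb; exact absurd ⟨a, c⟩ h
        · rintro ⟨a, b, c⟩
          exact ⟨a, by omega, c⟩
      rw [h2, ← ih]
      simp [h]

theorem mem_Phi_code {f : ℕ → ℕ} (k x : ℕ) : x ∈ Phi f (code k) ↔ par f k x k = true := by
  classical
  rw [par_spec, mem_Phi]
  have : (@Finset.filter _ (fun s => leF f s x) (Classical.decPred _) (code k)) =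
      (@Finset.filter _ (fun s => s < k ∧ leF f s x) (Classical.decPred _) (code k)) := by
    ext t
    simp only [Finset.mem_filter]
    constructor
    · rintro ⟨a, c⟩
      exact ⟨a, mem_code_lt a, c⟩
    · rintro ⟨a, b, c⟩
      exact ⟨a, c⟩
  rw [this]

theorem mem_Phi_primrec {f : ℕ → ℕ} (hf : Primrec f) :
    PrimrecRel (fun x k : ℕ => x ∈ Phi f (code k)) := by
  classical
  have h1 : PrimrecRel (fun (p : ℕ × ℕ) (m : ℕ) => m ∈ code p.2 ∧ leF f m p.1) := by
    refine PrimrecPred.and ?_ ?_
    · exact mem_code_primrec.comp Primrec.snd (Primrec.snd.comp Primrec.fst)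
    · exact (leF_primrec hf).comp Primrec.snd (Primrec.fst.comp Primrec.fst)
  have h3 : Primrec₂ (fun (p : ℕ × ℕ) (q : ℕ × Bool) =>
      xor q.2 (decide (q.1 ∈ code p.2 ∧ leF f q.1 p.1))) := by
    have h4 : Primrec (fun r : (ℕ × ℕ) × (ℕ × Bool) => r.2.2) := Primrec.snd.comp Primrec.snd
    have h5 : Primrec (fun r : (ℕ × ℕ) × (ℕ × Bool) =>
        decide (r.2.1 ∈ code r.1.2 ∧ leF f r.2.1 r.1.1)) :=
      h1.decide.comp Primrec.fst (Primrec.fst.comp Primrec.snd)
    exact (Primrec.dom_bool₂ xor).comp h4 h5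
  have h2 : Primrec (fun p : ℕ × ℕ => par f p.2 p.1 p.2) :=
    Primrec.nat_rec' (f := fun p : ℕ × ℕ => p.2) (g := fun _ => false)
      (h := fun (p : ℕ × ℕ) (q : ℕ × Bool) =>
        xor q.2 (decide (q.1 ∈ code p.2 ∧ leF f q.1 p.1))) Primrec.snd (Primrec.const false) h3
  refine ⟨inferInstance, ?_⟩
  refine h2.of_eq ?_
  intro p
  have := mem_Phi_code (f := f) p.2 p.1
  rw [Bool.eq_iff_iff, ← this]
  simp

end Pool.Agent.Helper73.BA
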