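import Mathlib
import Pool.Agent.Helper73.BAOrder
import Pool.Agent.Helper73.BAComp

set_option autoImplicit false

/-!
Assembly: a computable copy of the finite-cofinite algebra which is not computably isomorphic to
the interval algebra of any computable copy of `ω`.
-/

namespace Pool.Agent.Helper73.BA

/-- The Boolean algebra of finite and cofinite sets of natural numbers. -/
def FC : BooleanSubalgebra (Set ℕ) where
  carrier := {X | X.Finite ∨ Xᶜ.Finite}
  supClosed' := by
    intro X hX Y hY
    show (X ∪ Y).Finite ∨ (X ∪ Y)ᶜ.Finite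
    rw [Set.compl_union]
    rcases hX with hX | hX
    · rcases hY with hY | hY
      · exact Or.inl (hX.union hY)
      · exact Or.inr (hY.subset Set.inter_subset_right)
    · exact Or.inr (hX.subset Set.inter_subset_left)
  infClosed' := by
    intro X hX Y hY
    show (X ∩ Y).Finite ∨ (X ∩ Y)ᶜ.Finite
    rw [Set.compl_inter]
    rcases hX with hX | hX
    · exact Or.inl (hX.subset Set.inter_subset_left)
    · rcases hY with hY | hY
      · exact Or.inl (hY.subset Set.inter_subset_right)
      · exact Or.inr (hX.union hY)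
  compl_mem' := by
    intro X hX
    show Xᶜ.Finite ∨ Xᶜᶜ.Finite
    rw [compl_compl]
    exact hX.symm
  bot_mem' := Or.inl Set.finite_empty

theorem mem_FC {X : Set ℕ} : X ∈ FC ↔ (X.Finite ∨ Xᶜ.Finite) := Iff.rfl

theorem exists_code {f : ℕ → ℕ} (hf : Function.Injective f) (h0 : ∀ u, 0 < u → f 0 < f u)
    {X : Set ℕ} (hX : X ∈ FC) : ∃ k, Phi f (code k) = X := by
  have : ∃ S, Phi f S = X := by
    rcases hX with hX | hX
    · exact exists_Phi_finite hf hX
    · exact exists_Phi_cofinite hf h0 hX
  obtain ⟨S, hS⟩ := this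
  refine ⟨Finset.equivBitIndices.symm S, ?_⟩
  unfold code
  rw [Equiv.apply_symm_apply]
  exact hS

theorem code_injective : Function.Injective code := Finset.equivBitIndices.injective

theorem enumF_h0 : ∀ u, 0 < u → enumF 0 < enumF u := by
  intro u hu
  rw [enumF_zero]
  exact enumF_pos u hu

/-- The enumeration of the finite-cofinite algebra through the deficiency-stage order. -/
noncomputable def enumFC : ℕ ≃ FC :=
  Equiv.ofBijective (fun k => (⟨Phi enumF (code k), Phi_fincofin enumF_injective _⟩ : FC)) (by
    constructor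
    · intro a b hab
      have h : Phi enumF (code a) = Phi enumF (code b) := congrArg Subtype.val hab
      exact code_injective (Phi_injective enumF_injective h)
    · rintro ⟨X, hX⟩
      obtain ⟨k, hk⟩ := exists_code enumF_injective enumF_h0 hX
      exact ⟨k, Subtype.ext hk⟩)

theorem enumFC_coe (k : ℕ) : ((enumFC k : FC) : Set ℕ) = Phi enumF (code k) := rfl

/-- An abstract search lemma: `M x k` is a primitive recursive relation, `g m n` is the unique `k`
whose column is obtained from the columns of `m` and `n` by the Boolean operation `b`, and the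
correctness of `k` can be tested on the points `x < k + m + n + 1`. -/
theorem op_computable_aux (M : ℕ → ℕ → Bool) (hM : Primrec₂ M) (b : Bool → Bool → Bool)
    (g : ℕ → ℕ → ℕ)
    (hg : ∀ m n x, M x (g m n) = b (M x m) (M x n))
    (huniq : ∀ m n k, (∀ x < k + m + n + 1, M x k = b (M x m) (M x n)) → k = g m n) :
    Computable₂ g := by
  have hT : PrimrecRel (fun x y : ℕ => M x y.unpair.2 =
      b (M x y.unpair.1.unpair.1) (M x y.unpair.1.unpair.2)) := by
    have e1 : Primrec (fun q : ℕ × ℕ => M q.1 q.2.unpair.2) :=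
      hM.comp Primrec.fst (Primrec.snd.comp (Primrec.unpair.comp Primrec.snd))
    have e2 : Primrec (fun q : ℕ × ℕ => M q.1 q.2.unpair.1.unpair.1) :=
      hM.comp Primrec.fst (Primrec.fst.comp (Primrec.unpair.comp
        (Primrec.fst.comp (Primrec.unpair.comp Primrec.snd))))
    have e3 : Primrec (fun q : ℕ × ℕ => M q.1 q.2.unpair.1.unpair.2) :=
      hM.comp Primrec.fst (Primrec.snd.comp (Primrec.unpair.comp
        (Primrec.fst.comp (Primrec.unpair.comp Primrec.snd))))
    exact Primrec.eq.comp e1 ((Primrec.dom_bool₂ b).comp e2 e3)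
  have hT' := hT.forall_lt
  let P : ℕ × ℕ → ℕ → Prop := fun p k =>
    ∀ x < k + p.1 + p.2 + 1, M x k = b (M x p.1) (M x p.2)
  have hP : PrimrecPred (fun q : (ℕ × ℕ) × ℕ => P q.1 q.2) := by
    have h1 : Primrec (fun q : (ℕ × ℕ) × ℕ => q.2 + q.1.1 + q.1.2 + 1) :=
      Primrec.succ.comp (Primrec.nat_add.comp (Primrec.nat_add.comp Primrec.snd
        (Primrec.fst.comp Primrec.fst)) (Primrec.snd.comp Primrec.fst))
    have h2 : Primrec (fun q : (ℕ × ℕ) × ℕ => Nat.pair (Nat.pair q.1.1 q.1.2) q.2) :=
      Primrec₂.natPair.comp (Primrec₂.natPair.comp (Primrec.fst.comp Primrec.fst)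
        (Primrec.snd.comp Primrec.fst)) Primrec.snd
    have h3 := hT'.comp h1 h2
    refine h3.of_eq ?_
    intro q
    simp only [P, Nat.unpair_pair]
  have hex : ∀ p : ℕ × ℕ, ∃ k, P p k := fun p => ⟨g p.1 p.2, fun x _ => hg p.1 p.2 x⟩
  classical
  have hfind := Computable.find (P := P) hP.computablePred hex
  have : Computable (fun p : ℕ × ℕ => g p.1 p.2) := by
    refine hfind.of_eq ?_
    intro p
    exact huniq p.1 p.2 _ (Nat.find_spec (hex p))
  exact this

/-- Boolean membership relation of the coded algebra -/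
noncomputable def memB (x k : ℕ) : Bool := @decide (x ∈ Phi enumF (code k)) (Classical.propDecidable _)

theorem memB_iff (x k : ℕ) : memB x k = true ↔ x ∈ Phi enumF (code k) := by
  classical
  unfold memB
  exact decide_eq_true_iff

theorem memB_primrec : Primrec₂ memB := by
  classical
  obtain ⟨h1, h2⟩ := mem_Phi_primrec enumF_primrec
  refine h2.of_eq ?_
  intro p
  rw [Bool.eq_iff_iff, memB_iff]
  simp

theorem op_computable (b : Bool → Bool → Bool) (g : ℕ → ℕ → ℕ)
    (hg : ∀ m n x, memB x (g m n) = b (memB x m) (memB x n)) :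
    Computable₂ g := by
  classical
  refine op_computable_aux memB memB_primrec b g hg ?_
  intro m n k hk
  apply code_injective
  apply Phi_injective enumF_injective
  ext x
  let E : Finset ℕ := {0} ∪ code k ∪ code m ∪ code n
  obtain ⟨y, hy, hyS⟩ := test_points enumF_injective enumF_h0 E (by simp [E]) x
  have hyb : y < k + m + n + 1 := by
    simp only [E, Finset.mem_union, Finset.mem_singleton] at hy
    rcases hy with ((hy | hy) | hy) | hy
    · omega
    · have := mem_code_lt hy; omega
    · have := mem_code_lt hy; omega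
    · have := mem_code_lt hy; omega
  have h1 := hk y hyb
  have s1 : x ∈ Phi enumF (code k) ↔ y ∈ Phi enumF (code k) := hyS (code k) (by
    intro z hz; simp only [E, Finset.mem_union]; tauto)
  have s2 : x ∈ Phi enumF (code m) ↔ y ∈ Phi enumF (code m) := hyS (code m) (by
    intro z hz; simp only [E, Finset.mem_union]; tauto)
  have s3 : x ∈ Phi enumF (code n) ↔ y ∈ Phi enumF (code n) := hyS (code n) (by
    intro z hz; simp only [E, Finset.mem_union]; tauto)
  have h2 := hg m n x
  have d1 : memB x k = memB y k := by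
    rw [Bool.eq_iff_iff, memB_iff, memB_iff]; exact s1
  have d2 : memB x m = memB y m := by
    rw [Bool.eq_iff_iff, memB_iff, memB_iff]; exact s2
  have d3 : memB x n = memB y n := by
    rw [Bool.eq_iff_iff, memB_iff, memB_iff]; exact s3
  rw [d2, d3, ← h1, ← d1] at h2
  rw [← memB_iff, ← memB_iff, h2]

theorem memB_enumFC (x k : ℕ) : memB x k = true ↔ x ∈ ((enumFC k : FC) : Set ℕ) := by
  rw [memB_iff, enumFC_coe]

theorem sup_computable : Computable₂ (fun m n : ℕ => enumFC.symm (enumFC m ⊔ enumFC n)) := by
  refine op_computable (fun a b => a || b) _ ?_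
  intro m n x
  rw [Bool.eq_iff_iff, memB_enumFC, Equiv.apply_symm_apply, BooleanSubalgebra.val_sup]
  rw [Bool.or_eq_true, memB_enumFC, memB_enumFC]
  exact Iff.rfl

theorem inf_computable : Computable₂ (fun m n : ℕ => enumFC.symm (enumFC m ⊓ enumFC n)) := by
  refine op_computable (fun a b => a && b) _ ?_
  intro m n x
  rw [Bool.eq_iff_iff, memB_enumFC, Equiv.apply_symm_apply, BooleanSubalgebra.val_inf]
  rw [Bool.and_eq_true, memB_enumFC, memB_enumFC]
  exact Iff.rfl

theorem compl_computable : Computable (fun n : ℕ => enumFC.symm (enumFC n)ᶜ) := by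
  have h : Computable₂ (fun m _n : ℕ => enumFC.symm (enumFC m)ᶜ) := by
    refine op_computable (fun a _ => !a) _ ?_
    intro m n x
    rw [Bool.eq_iff_iff, memB_enumFC, Equiv.apply_symm_apply, BooleanSubalgebra.val_compl]
    rw [Bool.not_eq_true', Bool.eq_false_iff, Ne, memB_enumFC]
    exact Iff.rfl
  exact h.comp Computable.id Computable.id

/-- the description of the interval algebra of `ω` used in the frozen statement -/
theorem range_eq : Set.range (fun a : FC => (a : Set ℕ)) =
    {X : Set ℕ | ∃ S : Finset ℕ, ∃ b : Bool,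
      X = {x : ℕ | Xor' (b = true) (Odd (S.filter (fun s => s ≤ x)).card)}} := by
  classical
  have hid : ∀ s t : ℕ, leF id s t ↔ s ≤ t := by
    intro s t
    unfold leF
    simp only [id]
    constructor
    · rintro (⟨h, _⟩ | ⟨h, u, h1, h2, h3⟩)
      · exact h
      · omega
    · intro h
      exact Or.inl ⟨h, fun u h1 _ => h1⟩
  have hPhi : ∀ S : Finset ℕ, Phi id S = {x : ℕ | Odd (S.filter (fun s => s ≤ x)).card} := by
    intro S
    ext x
    rw [mem_Phi]
    have : (@Finset.filter _ (fun s => leF id s x) (Classical.decPred _) S) =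
        S.filter (fun s => s ≤ x) := by
      ext t
      simp only [Finset.mem_filter, hid]
    rw [this]
    exact Iff.rfl
  have hidinj : Function.Injective (id : ℕ → ℕ) := Function.injective_id
  ext X
  constructor
  · rintro ⟨⟨Y, hY⟩, rfl⟩
    obtain ⟨k, hk⟩ := exists_code hidinj (fun u hu => hu) hY
    refine ⟨code k, false, ?_⟩
    show Y = _
    rw [← hk, hPhi]
    ext x
    simp [Xor']
  · rintro ⟨S, b, rfl⟩
    have hmem : {x : ℕ | Xor' (b = true) (Odd (S.filter (fun s => s ≤ x)).card)} ∈ FC := by
      have h1 : Phi id S ∈ FC := Phi_fincofin hidinj S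
      rw [hPhi] at h1
      cases b
      · have : {x : ℕ | Xor' (false = true) (Odd (S.filter (fun s => s ≤ x)).card)} =
            {x : ℕ | Odd (S.filter (fun s => s ≤ x)).card} := by
          ext x; simp [Xor']
        rw [this]; exact h1
      · have : {x : ℕ | Xor' (true = true) (Odd (S.filter (fun s => s ≤ x)).card)} =
            {x : ℕ | Odd (S.filter (fun s => s ≤ x)).card}ᶜ := by
          ext x; simp [Xor']
        rw [this]; exact FC.compl_mem h1
    exact ⟨⟨_, hmem⟩, rfl⟩

end Pool.Agent.Helper73.BA
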