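import Mathlib

/-!
Translation invariant ideals on a group, and sets of size `κ` which meet every set of the ideal in
fewer than `κ` points (`κ`-Luzin sets), `κ` singular.
-/

set_option autoImplicit false

open Cardinal Set

namespace Pool.Agent.Helper73.Luzin

/-- `I` is a proper ideal of subsets of the group `E`, invariant under the maps `y ↦ x - y`. -/
structure TIdeal {E : Type} [AddCommGroup E] (I : Set E → Prop) : Prop where
  mono : ∀ {A B : Set E}, A ⊆ B → I B → I A
  union : ∀ {A B : Set E}, I A → I B → I (A ∪ B)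
  refl : ∀ (B : Set E) (x : E), I B → I {y | x - y ∈ B}
  proper : ¬ I univ

variable {E : Type} [AddCommGroup E] {I : Set E → Prop}

/-- The complement of a set of the ideal has the size of the whole group. -/
theorem TIdeal.card_compl (hI : TIdeal I) [Infinite E] {B : Set E} (hB : I B) :
    #E ≤ #(Bᶜ : Set E) := by
  have hsurj : Function.Surjective fun p : (Bᶜ : Set E) × (Bᶜ : Set E) => (p.1 : E) + p.2 := by
    intro z
    by_contra hne
    apply hI.proper
    refine hI.mono ?_ (hI.union hB (hI.refl B z hB))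
    intro y _
    by_contra hy
    simp only [mem_union, mem_setOf_eq, not_or] at hy
    exact hne ⟨(⟨z - y, hy.2⟩, ⟨y, hy.1⟩), by simp⟩
  have h1 : #E ≤ #(Bᶜ : Set E) * #(Bᶜ : Set E) := by
    rw [mul_def]
    exact mk_le_of_surjective hsurj
  have hinf : ℵ₀ ≤ #(Bᶜ : Set E) := by
    by_contra hlt
    have h2 : #(Bᶜ : Set E) < ℵ₀ := not_le.1 hlt
    exact absurd (h1.trans_lt (mul_lt_aleph0 h2 h2)) (not_lt.2 (aleph0_le_mk E))
  rwa [mul_eq_self hinf] at h1

/-- **Luzin sets of singular size.** Let `κ ≤ |E|` be a singular cardinal of cofinality `μ`.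
If the ideal has a cofinal family of size at most `μ` and is closed under unions of fewer than `μ`
sets, then there is a set of size at least `κ` which meets every set of the ideal in fewer
than `κ` points. -/
theorem TIdeal.exists_luzin (hI : TIdeal I) [Infinite E] {κ : Cardinal.{0}} (hκ : κ.IsSingular)
    (hκE : κ ≤ #E)
    (hadd : ∀ S : Set (Set E), #S < κ.ord.cof → (∀ B ∈ S, I B) → I (⋃₀ S))
    (F : Set (Set E)) (hFcard : #F ≤ κ.ord.cof) (hFI : ∀ B ∈ F, I B)
    (hFcof : ∀ B, I B → ∃ C ∈ F, B ⊆ C) :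
    ∃ A : Set E, κ ≤ #A ∧ ∀ B, I B → #(A ∩ B : Set E) < κ := by
  classical
  have hlim : Order.IsSuccLimit κ := hκ.isSuccLimit
  have hcofκ : κ.ord.cof < κ := hκ.cof_ord_lt
  have hκ0 : ℵ₀ ≤ κ := hκ.1
  -- the index set
  let J : Type := (κ.ord.cof).ord.ToType
  have hJ : #J = κ.ord.cof := by simp [J]
  have hJlt : ∀ i : J, #(Iio i) < κ.ord.cof := fun i => mk_Iio_ord_toType i
  -- the cofinal family indexed by `J`
  have hIempty : I ∅ := by
    obtain ⟨C, hC, _⟩ : ∃ C ∈ F, (∅ : Set E) ⊆ C := by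
      have h0 : I ∅ := by
        have := hadd ∅ (by
          rw [mk_eq_zero]
          rw [Ordinal.cof_pos]
          exact (ord_pos.2 hκ.pos)) (by simp)
        simpa using this
      exact hFcof ∅ h0
    exact hI.mono (empty_subset _) (hFI C hC)
  obtain ⟨b, hbI, hbcof⟩ : ∃ b : J → Set E, (∀ j, I (b j)) ∧ ∀ B, I B → ∃ j, B ⊆ b j := by
    rw [← hJ] at hFcard
    obtain ⟨e⟩ := hFcard
    refine ⟨fun j => if h : ∃ C : F, e C = j then (h.choose : Set E) else ∅, fun j => ?_,
      fun B hB => ?_⟩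
    · by_cases h : ∃ C : F, e C = j
      · simp only [dif_pos h]
        exact hFI _ h.choose.2
      · simp only [dif_neg h]
        exact hIempty
    · obtain ⟨C, hC, hBC⟩ := hFcof B hB
      refine ⟨e ⟨C, hC⟩, ?_⟩
      have h : ∃ C' : F, e C' = e ⟨C, hC⟩ := ⟨_, rfl⟩
      simp only [dif_pos h]
      have := e.injective h.choose_spec
      rw [this]
      exact hBC
  -- cofinally many cardinals below `κ`, indexed by `J`
  obtain ⟨c, hc, hccof⟩ : ∃ c : J → Cardinal.{0}, (∀ j, c j < κ) ∧ ∀ lam < κ, ∃ j, lam < c j := by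
    obtain ⟨s, hs, hs'⟩ := Order.cof_eq κ.ord.ToType
    have h1 : #s = #J := by rw [hs', hJ, Ordinal.cof_toType]
    obtain ⟨e⟩ := Cardinal.eq.1 h1
    refine ⟨fun j => (Ordinal.typein (α := κ.ord.ToType) (· < ·) (e.symm j : κ.ord.ToType)).card,
      fun j => ?_, fun lam hlam => ?_⟩
    · rw [← lt_ord]
      exact Ordinal.typein_lt_self _
    · have h2 : Order.succ lam < κ := hlim.succ_lt hlam
      have h3 : (Order.succ lam).ord < Ordinal.type (α := κ.ord.ToType) (· < ·) := by
        rw [Ordinal.type_toType]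
        exact ord_lt_ord.2 h2
      obtain ⟨x, hx, hx'⟩ := hs (Ordinal.enum (α := κ.ord.ToType) (· < ·) ⟨_, h3⟩)
      refine ⟨e ⟨x, hx⟩, ?_⟩
      simp only [Equiv.symm_apply_apply]
      have h4 : (Order.succ lam).ord ≤ Ordinal.typein (α := κ.ord.ToType) (· < ·) x := by
        rw [← Ordinal.typein_enum (α := κ.ord.ToType) (· < ·) h3]
        exact (Ordinal.typein_le_typein _).2 (not_lt.2 hx')
      have h5 := Ordinal.card_le_card h4
      rw [card_ord] at h5
      exact (Order.lt_succ lam).trans_le h5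
  -- the unions
  let C : J → Set E := fun j => ⋃₀ (b '' (Iic j))
  have hCI : ∀ j, I (C j) := by
    intro j
    have : C j ⊆ ⋃₀ (b '' (Iio j)) ∪ b j := by
      rintro x ⟨_, ⟨i, hi, rfl⟩, hx⟩
      rcases (mem_Iic.1 hi).lt_or_eq with h | h
      · exact Or.inl ⟨_, ⟨i, h, rfl⟩, hx⟩
      · exact Or.inr (h ▸ hx)
    refine hI.mono this (hI.union (hadd _ (mk_image_le.trans_lt (hJlt j)) ?_) (hbI j))
    rintro _ ⟨i, _, rfl⟩
    exact hbI i
  have hA : ∀ j, ∃ A : Set E, A ⊆ (C j)ᶜ ∧ #A = c j := fun j =>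
    le_mk_iff_exists_subset.1 (((hc j).le.trans hκE).trans (hI.card_compl (hCI j)))
  choose A hAC hAcard using hA
  refine ⟨⋃ j, A j, ?_, fun B hB => ?_⟩
  · by_contra hlt
    obtain ⟨j, hj⟩ := hccof _ (not_le.1 hlt)
    have := mk_le_mk_of_subset (subset_iUnion A j)
    rw [hAcard] at this
    exact absurd hj (not_lt.2 this)
  · obtain ⟨i, hi⟩ := hbcof B hB
    have h1 : (⋃ j, A j) ∩ B ⊆ ⋃ j : Iio i, A j := by
      rintro x ⟨hx, hxB⟩
      obtain ⟨j, hj⟩ := mem_iUnion.1 hx
      rw [mem_iUnion]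
      refine ⟨⟨j, ?_⟩, hj⟩
      by_contra hji
      have hij : i ≤ j := not_lt.1 hji
      exact hAC j hj ⟨_, ⟨i, hij, rfl⟩, hi hxB⟩
    refine (mk_le_mk_of_subset h1).trans_lt ((mk_iUnion_le _).trans_lt ?_)
    refine mul_lt_of_lt hκ0 ((hJlt i).trans hcofκ) ?_
    refine iSup_lt_of_lt_cof_ord (hJlt i) fun j => ?_
    rw [hAcard]
    exact hc _

/-- **The obstruction for groups.** If the subgroup `G` meets every set of the ideal in fewer than
`κ` points and has size at least `κ`, then for every `X ⊆ G` of size less than `κ` and every set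
`B` of the ideal, `X + B` is not the whole group. -/
theorem small_translate {κ : Cardinal.{0}} (hκ : ℵ₀ ≤ κ) (G : AddSubgroup E)
    (hG : κ ≤ #(G : Set E)) {B : Set E} (hB : #((G : Set E) ∩ B : Set E) < κ)
    {X : Set E} (hXG : X ⊆ G) (hX : #X < κ) : ∃ z : E, ∀ x ∈ X, z - x ∉ B := by
  by_contra hne
  push_neg at hne
  have h1 : #(G : Set E) ≤ #(X × ((G : Set E) ∩ B : Set E)) := by
    have : ∀ g : (G : Set E), ∃ p : X × ((G : Set E) ∩ B : Set E), (p.1 : E) + p.2 = g := by
      rintro ⟨g, hg⟩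
      obtain ⟨x, hx, hxB⟩ := hne g
      exact ⟨(⟨x, hx⟩, ⟨g - x, G.sub_mem hg (hXG hx), hxB⟩), by simp⟩
    choose f hf using this
    refine mk_le_of_injective (f := f) fun g g' h => ?_
    apply Subtype.ext
    rw [← hf g, ← hf g', h]
  rw [← mul_def] at h1
  exact absurd (hG.trans h1) (not_le.2 (mul_lt_of_lt hκ hX hB))

end Pool.Agent.Helper73.Luzin
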