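import Mathlib
import Pool.Agent.Helper73.LuzinIdeal

/-!
Luzin and Sierpinski sets of singular size in `ℝⁿ`, and the obstruction for subgroups: strong
measure zero sets and strongly meager sets.
-/

set_option autoImplicit false

open Cardinal Set MeasureTheory

namespace Pool.Agent.Helper73.Luzin

/-- `A ⊆ ℝⁿ` is a `κ`-Luzin set for the ideal `I` of subsets of `ℝⁿ`: it has size at least `κ` and
meets every set of the ideal in fewer than `κ` points. -/
def IsLuzin {n : ℕ} (I : Set (Fin n → ℝ) → Prop) (κ : Cardinal.{0}) (A : Set (Fin n → ℝ)) : Prop :=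
  κ ≤ #A ∧ ∀ B : Set (Fin n → ℝ), I B → #(A ∩ B : Set (Fin n → ℝ)) < κ

/-- `cof(I) ≤ μ`: the ideal has a cofinal subfamily of size at most `μ`. -/
def CofLe {n : ℕ} (I : Set (Fin n → ℝ) → Prop) (μ : Cardinal.{0}) : Prop :=
  ∃ F : Set (Set (Fin n → ℝ)), #F ≤ μ ∧ (∀ B ∈ F, I B) ∧ ∀ B, I B → ∃ C ∈ F, B ⊆ C

/-- `add(I) ≥ μ`: the union of fewer than `μ` sets of the ideal belongs to the ideal. -/
def AddGe {n : ℕ} (I : Set (Fin n → ℝ) → Prop) (μ : Cardinal.{0}) : Prop :=
  ∀ S : Set (Set (Fin n → ℝ)), #S < μ → (∀ B ∈ S, I B) → I (⋃₀ S)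

/-- The ideal of Lebesgue null subsets of `ℝⁿ`. -/
def IsNull (n : ℕ) (B : Set (Fin n → ℝ)) : Prop := volume B = 0

/-- Strong measure zero sets of reals: for every sequence of positive reals `ε k` the set can be
covered by open intervals, the `k`-th one of length `2 * ε k`. -/
def StrongMeasureZero (X : Set ℝ) : Prop :=
  ∀ ε : ℕ → ℝ, (∀ k, 0 < ε k) → ∃ c : ℕ → ℝ, ∀ x ∈ X, ∃ k, |x - c k| < ε k

/-- Strongly meager sets of reals: `X + N ≠ ℝ` for every null set `N`. -/
def StronglyMeager (X : Set ℝ) : Prop :=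
  ∀ N : Set ℝ, volume N = 0 → ∃ z : ℝ, ∀ x ∈ X, z - x ∉ N

theorem tideal_meagre (n : ℕ) : TIdeal (IsMeagre : Set (Fin n → ℝ) → Prop) where
  mono h hB := hB.mono h
  union hA hB := hA.union hB
  refl B x hB := by
    have : {y | x - y ∈ B} = (Homeomorph.subLeft x) ⁻¹' B := rfl
    rw [this]
    exact hB.preimage_of_isOpenMap (Homeomorph.subLeft x).continuous
      (Homeomorph.subLeft x).isOpenMap
  proper h := by
    have h1 : Dense (univᶜ : Set (Fin n → ℝ)) := dense_of_mem_residual h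
    rw [compl_univ] at h1
    exact (h1.nonempty).ne_empty rfl

theorem tideal_null (n : ℕ) : TIdeal (IsNull n) where
  mono h hB := measure_mono_null h hB
  union hA hB := measure_union_null hA hB
  refl B x hB := by
    have := (Measure.measurePreserving_sub_left (volume : Measure (Fin n → ℝ)) x).quasiMeasurePreserving
    exact this.preimage_null hB
  proper h := by
    have : (volume : Measure (Fin n → ℝ)) univ ≠ 0 := (NeZero.ne _)
    exact this h

/-- Coordinate projections of a set with `X + B ≠ ℝⁿ` for all meager `B` are of strong measure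
zero. -/
theorem smz_of_forall {n : ℕ} {X : Set (Fin n → ℝ)}
    (h : ∀ B : Set (Fin n → ℝ), IsMeagre B → ∃ z, ∀ x ∈ X, z - x ∉ B) (i : Fin n) :
    StrongMeasureZero ((fun x => x i) '' X) := by
  intro ε hε
  obtain ⟨q, hq⟩ := TopologicalSpace.exists_dense_seq ℝ
  set U : Set ℝ := ⋃ k, Metric.ball (q k) (ε k) with hU
  have hUo : IsOpen U := isOpen_iUnion fun k => Metric.isOpen_ball
  have hUd : Dense U := hq.mono (by
    rintro _ ⟨k, rfl⟩
    exact mem_iUnion.2 ⟨k, Metric.mem_ball_self (hε k)⟩)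
  have hUm : IsMeagre (Uᶜ : Set ℝ) := by
    rw [IsMeagre, compl_compl]
    exact residual_of_dense_open hUo hUd
  have hB : IsMeagre ((fun y : Fin n → ℝ => -(y i)) ⁻¹' Uᶜ) := by
    refine hUm.preimage_of_isOpenMap (by fun_prop) ?_
    exact (Homeomorph.neg ℝ).isOpenMap.comp (isOpenMap_eval i)
  obtain ⟨z, hz⟩ := h _ hB
  refine ⟨fun k => z i + q k, ?_⟩
  rintro _ ⟨x, hx, rfl⟩
  have h1 := hz x hx
  simp only [mem_preimage, mem_compl_iff, not_not, hU, mem_iUnion, Metric.mem_ball,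
    Real.dist_eq, Pi.sub_apply] at h1
  obtain ⟨k, hk⟩ := h1
  refine ⟨k, ?_⟩
  rwa [show x i - (z i + q k) = -(z i - x i) - q k by ring]

/-- Coordinate projections of a set with `X + B ≠ ℝⁿ` for all null `B` are strongly meager. -/
theorem sm_of_forall {n : ℕ} {X : Set (Fin n → ℝ)}
    (h : ∀ B : Set (Fin n → ℝ), IsNull n B → ∃ z, ∀ x ∈ X, z - x ∉ B) (i : Fin n) :
    StronglyMeager ((fun x => x i) '' X) := by
  intro N hN
  have hB : IsNull n ((fun y : Fin n → ℝ => y i) ⁻¹' N) :=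
    (Measure.quasiMeasurePreserving_eval (fun _ => (volume : Measure ℝ)) i).preimage_null hN
  obtain ⟨z, hz⟩ := h _ hB
  refine ⟨z i, ?_⟩
  rintro _ ⟨x, hx, rfl⟩
  exact hz x hx

/-- If all coordinate projections of all subsets of size less than `κ` of the set `G` belong to
`P` and the singular cardinal `κ` is at most the size of `G`, then `P` contains sets of reals
of size at least `lam`, for all `lam < κ`. -/
theorem exists_large {n : ℕ} {κ : Cardinal.{0}} (hκ : κ.IsSingular)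
    {G : Set (Fin n → ℝ)} (hG : κ ≤ #G) (P : Set ℝ → Prop)
    (h : ∀ X ⊆ G, #X < κ → ∀ i : Fin n, P ((fun x => x i) '' X)) {lam : Cardinal.{0}}
    (hlam : lam < κ) : ∃ X : Set ℝ, P X ∧ lam ≤ #X := by
  set nu : Cardinal.{0} := max lam ℵ₀ with hnu
  have h0 : ℵ₀ < κ := (hκ.1).lt_of_ne fun h => not_isSingular_aleph0 (h ▸ hκ)
  have h1 : nu < κ := max_lt hlam h0
  have h2 : Order.succ nu < κ := hκ.isSuccLimit.succ_lt h1
  obtain ⟨X, hXG, hX⟩ := le_mk_iff_exists_subset.1 (h2.le.trans hG)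
  have hX' : #X < κ := hX ▸ h2
  by_contra hne
  push Not at hne
  have h3 : ∀ i : Fin n, #((fun x : Fin n → ℝ => x i) '' X) ≤ nu := fun i =>
    (hne _ (h X hXG hX' i)).le.trans (le_max_left _ _)
  set Y : Set ℝ := ⋃ i : Fin n, (fun x : Fin n → ℝ => x i) '' X with hY
  have h4 : #Y ≤ nu := by
    refine (mk_iUnion_le _).trans ?_
    have h5 : ⨆ i : Fin n, #((fun x : Fin n → ℝ => x i) '' X) ≤ nu := ciSup_le' h3
    calc #(Fin n) * ⨆ i : Fin n, #((fun x : Fin n → ℝ => x i) '' X) ≤ ℵ₀ * nu := by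
          gcongr
          rw [mk_fin]
          exact (natCast_lt_aleph0).le
      _ = nu := aleph0_mul_eq (le_max_right _ _)
  have h6 : #X ≤ #(Fin n → Y) := by
    refine mk_le_of_injective (f := fun x i => ⟨x.1 i, mem_iUnion.2 ⟨i, x.1, x.2, rfl⟩⟩) ?_
    intro x y hxy
    apply Subtype.ext
    funext i
    exact congrArg Subtype.val (congrFun hxy i)
  have h7 : #(Fin n → Y) ≤ nu := by
    rw [mk_arrow, lift_id, lift_id, mk_fin]
    calc #Y ^ (n : Cardinal.{0}) ≤ nu ^ (n : Cardinal.{0}) := by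
          exact power_le_power_right h4
      _ ≤ nu := by
          have := power_nat_le (c := nu) (n := n) (le_max_right _ _)
          rwa [← power_natCast] at this
  rw [hX] at h6
  exact absurd (h6.trans h7) (not_le.2 (Order.lt_succ nu))

theorem infinite_pi {n : ℕ} (hn : 1 ≤ n) : Infinite (Fin n → ℝ) := by
  haveI : Nonempty (Fin n) := ⟨⟨0, hn⟩⟩
  infer_instance

theorem mk_pi_real {n : ℕ} (hn : 1 ≤ n) : #(Fin n → ℝ) = 𝔠 := by
  haveI : Nonempty (Fin n) := ⟨⟨0, hn⟩⟩
  rw [mk_arrow, lift_id, lift_id, mk_fin, mk_real]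
  have := continuum_power_aleph0
  refine le_antisymm ?_ ?_
  · calc 𝔠 ^ (n : Cardinal.{0}) ≤ 𝔠 ^ ℵ₀ :=
        power_le_power_left continuum_ne_zero (natCast_lt_aleph0).le
      _ = 𝔠 := this
  · exact self_le_power _ (by exact_mod_cast hn)

theorem exists_luzin_meagre {n : ℕ} (hn : 1 ≤ n) {κ : Cardinal.{0}} (hκ : κ.IsSingular)
    (hκc : κ ≤ 𝔠) (hadd : AddGe (IsMeagre : Set (Fin n → ℝ) → Prop) κ.ord.cof)
    (hcof : CofLe (IsMeagre : Set (Fin n → ℝ) → Prop) κ.ord.cof) :
    ∃ A : Set (Fin n → ℝ), IsLuzin IsMeagre κ A := by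
  haveI := infinite_pi hn
  obtain ⟨F, h1, h2, h3⟩ := hcof
  exact (tideal_meagre n).exists_luzin hκ (hκc.trans_eq (mk_pi_real hn).symm) hadd F h1 h2 h3

theorem exists_luzin_null {n : ℕ} (hn : 1 ≤ n) {κ : Cardinal.{0}} (hκ : κ.IsSingular)
    (hκc : κ ≤ 𝔠) (hadd : AddGe (IsNull n) κ.ord.cof) (hcof : CofLe (IsNull n) κ.ord.cof) :
    ∃ A : Set (Fin n → ℝ), IsLuzin (IsNull n) κ A := by
  haveI := infinite_pi hn
  obtain ⟨F, h1, h2, h3⟩ := hcof
  exact (tideal_null n).exists_luzin hκ (hκc.trans_eq (mk_pi_real hn).symm) hadd F h1 h2 h3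

/-- Every subset of size less than `κ` of a `κ`-Luzin subgroup (meager ideal) has projections of
strong measure zero. -/
theorem luzin_group_meagre {n : ℕ} {κ : Cardinal.{0}} (hκ : ℵ₀ ≤ κ)
    (G : AddSubgroup (Fin n → ℝ)) (hG : IsLuzin IsMeagre κ (G : Set (Fin n → ℝ)))
    (X : Set (Fin n → ℝ)) (hX : X ⊆ G) (hXκ : #X < κ) (i : Fin n) :
    StrongMeasureZero ((fun x => x i) '' X) :=
  smz_of_forall (fun B hB => small_translate hκ G hG.1 (hG.2 B hB) hX hXκ) i

/-- Every subset of size less than `κ` of a `κ`-Luzin subgroup (null ideal) has strongly meager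
projections. -/
theorem luzin_group_null {n : ℕ} {κ : Cardinal.{0}} (hκ : ℵ₀ ≤ κ)
    (G : AddSubgroup (Fin n → ℝ)) (hG : IsLuzin (IsNull n) κ (G : Set (Fin n → ℝ)))
    (X : Set (Fin n → ℝ)) (hX : X ⊆ G) (hXκ : #X < κ) (i : Fin n) :
    StronglyMeager ((fun x => x i) '' X) :=
  sm_of_forall (fun B hB => small_translate hκ G hG.1 (hG.2 B hB) hX hXκ) i

theorem isSingular_aleph_omega_one : (ℵ_ (Ordinal.omega 1)).IsSingular := by
  rw [isSingular_aleph_iff]
  refine ⟨isSuccLimit_omega 1, ?_⟩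
  rw [cof_omega_one, aleph_lt_aleph]
  exact Ordinal.one_lt_omega0.trans Ordinal.omega0_lt_omega_one

theorem cof_aleph_omega_one : (ℵ_ (Ordinal.omega 1)).ord.cof = ℵ_ 1 := by
  rw [ord_aleph, Ordinal.cof_omega (isSuccLimit_omega 1), cof_omega_one]

theorem addGe_meagre (n : ℕ) : AddGe (IsMeagre : Set (Fin n → ℝ) → Prop) (ℵ_ 1) := by
  intro S hS h
  have : S.Countable := by
    rw [← le_aleph0_iff_set_countable]
    rwa [← succ_aleph0, Order.lt_succ_iff] at hS
  rw [sUnion_eq_biUnion]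
  exact isMeagre_biUnion this h

theorem addGe_null (n : ℕ) : AddGe (IsNull n) (ℵ_ 1) := by
  intro S hS h
  have : S.Countable := by
    rw [← le_aleph0_iff_set_countable]
    rwa [← succ_aleph0, Order.lt_succ_iff] at hS
  exact (measure_sUnion_null_iff this).2 h

end Pool.Agent.Helper73.Luzin
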