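import Mathlib
import Pool.Agent.Helper73.LuzinReal

/-!
A `κ`-Luzin `ℚ`-linear subspace from a `κ`-Luzin set, `κ` regular, if `cof(I) < 𝔟(κ)`.
-/

set_option autoImplicit false

open Cardinal Set MeasureTheory

namespace Pool.Agent.Helper73.Luzin

/-- `μ < 𝔟(κ)`: every family of at most `μ` functions from `κ` to `κ` is eventually dominated by a
single function (`κ` is represented by the well-order `κ.ord.ToType` of type `κ`). -/
def LtBounding (μ κ : Cardinal.{0}) : Prop :=
  ∀ Φ : Set (κ.ord.ToType → κ.ord.ToType), #Φ ≤ μ →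
    ∃ g : κ.ord.ToType → κ.ord.ToType, ∀ f ∈ Φ, ∃ i₀, ∀ i, i₀ ≤ i → f i ≤ g i

section
variable {κ : Cardinal.{0}}

theorem exists_bound (hκ : κ.IsRegular) {s : Set κ.ord.ToType} (hs : #s < κ) :
    ∃ b : κ.ord.ToType, ∀ i ∈ s, i < b := by
  haveI : NoMaxOrder κ.ord.ToType := noMaxOrder hκ.1
  have h : ¬ IsCofinal s := by
    intro h
    have h1 := Order.cof_le h
    rw [Ordinal.cof_toType, hκ.cof_ord] at h1
    exact absurd h1 (not_le.2 hs)
  simp only [IsCofinal, not_forall, not_exists, not_and, not_le] at h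
  obtain ⟨b, hb⟩ := h
  exact ⟨b, hb⟩

theorem mk_iUnion_lt (hκ : κ.IsRegular) {ι α : Type} (hι : #ι < κ) (f : ι → Set α)
    (hf : ∀ i, #(f i) < κ) : #(⋃ i, f i) < κ := by
  refine (mk_iUnion_le _).trans_lt (mul_lt_of_lt hκ.1 hι ?_)
  exact iSup_lt_of_lt_cof_ord (by rwa [hκ.cof_ord]) hf

theorem mk_span_lt {E : Type} [AddCommGroup E] [Module ℚ E] (hκ : ℵ₀ < κ) {S : Set E}
    (hS : #S < κ) : #(Submodule.span ℚ S : Set E) < κ := by
  by_cases hne : S.Nonempty
  · haveI : Nonempty S := hne.to_subtype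
    have h1 : #(Submodule.span ℚ S : Set E) ≤ #(S →₀ ℚ) := by
      have : (Submodule.span ℚ S : Set E) = range (Finsupp.linearCombination ℚ ((↑) : S → E)) := by
        rw [← LinearMap.coe_range, Finsupp.range_linearCombination, Subtype.range_coe]
      rw [this]
      exact mk_range_le
    refine h1.trans_lt ?_
    rw [mk_finsupp_of_infinite']
    refine max_lt hS ?_
    rwa [mk_eq_aleph0 ℚ]
  · rw [not_nonempty_iff_eq_empty] at hne
    subst hne
    rw [Submodule.span_empty]
    have : #((⊥ : Submodule ℚ E) : Set E) ≤ 1 := by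
      rw [Submodule.bot_coe]
      simp
    exact this.trans_lt (one_lt_aleph0.trans hκ)

/-- **Luzin subspaces of regular size.** -/
theorem exists_luzin_subspace {E : Type} [AddCommGroup E] [Module ℚ E] (I : Set E → Prop)
    (hI : ∀ (B : Set E) (q : ℚ) (v : E), q ≠ 0 → I B → I {y | q • y + v ∈ B})
    (hκ : κ.IsRegular) (hκ0 : ℵ₀ < κ) (A : Set E) (hA : κ ≤ #A)
    (hAB : ∀ B, I B → #(A ∩ B : Set E) < κ)
    {μ : Cardinal.{0}} (hμ : LtBounding μ κ) (F : Set (Set E)) (hF : #F ≤ μ)
    (hFI : ∀ B ∈ F, I B) (hcof : ∀ B, I B → ∃ C ∈ F, B ⊆ C) :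
    ∃ V : Submodule ℚ E, κ ≤ #(V : Set E) ∧ ∀ B, I B → #((V : Set E) ∩ B : Set E) < κ := by
  classical
  let K : Type := κ.ord.ToType
  have hK : #K = κ := by simp [K]
  have hKlt : ∀ i : K, #(Iio i) < κ := fun i => mk_Iio_toType_ord_lt i
  -- an injective enumeration of points of `A`
  obtain ⟨e⟩ : Nonempty (K ↪ A) := by
    rw [← Cardinal.le_def, hK]
    exact hA
  let a : K → E := fun i => (e i : E)
  have ha : Function.Injective a := Subtype.val_injective.comp e.injective
  have haA : ∀ i, a i ∈ A := fun i => (e i).2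
  -- the small spans
  let W : K → Set E := fun γ => (Submodule.span ℚ (a '' Iio γ) : Set E)
  have hW : ∀ γ, #(W γ) < κ := fun γ => mk_span_lt hκ0 (mk_image_le.trans_lt (hKlt γ))
  have hbad : ∀ C, I C → ∀ γ : K, #(⋃ p : ℚ × W γ, {i : K | p.1 ≠ 0 ∧ p.1 • a i + p.2 ∈ C}) < κ := by
    intro C hC γ
    refine mk_iUnion_lt hκ ?_ _ ?_
    · rw [← mul_def]
      refine mul_lt_of_lt hκ.1 ?_ (hW γ)
      rwa [mk_eq_aleph0 ℚ]
    · rintro ⟨q, v⟩
      by_cases hq : q = 0
      · have : {i : K | q ≠ 0 ∧ q • a i + (v : E) ∈ C} = ∅ := by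
          ext i
          simp [hq]
        simp only
        rw [this, mk_eq_zero]
        exact hκ.pos
      · refine lt_of_le_of_lt ?_ (hAB _ (hI C q v hq hC))
        refine mk_le_of_injective (f := fun i => ⟨a i.1, haA i.1, i.2.2⟩) fun i j hij => ?_
        apply Subtype.ext
        exact ha (Subtype.mk.inj hij)
  have hh : ∀ C, ∃ h : K → K, I C → ∀ γ : K, ∀ q : ℚ, q ≠ 0 → ∀ v ∈ W γ, ∀ i : K,
      q • a i + v ∈ C → i < h γ := by
    intro C
    by_cases hC : I C
    · have := fun γ => exists_bound hκ (hbad C hC γ)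
      choose h hh using this
      refine ⟨h, fun _ γ q hq v hv i hi => hh γ i ?_⟩
      exact mem_iUnion.2 ⟨(q, ⟨v, hv⟩), hq, hi⟩
    · exact ⟨id, fun h => absurd h hC⟩
  choose h hh using hh
  obtain ⟨g, hg⟩ := hμ (h '' F) (mk_image_le.trans hF)
  -- strict upper bounds of short sequences
  have hsb : ∀ (ν : K) (s : Iio ν → K), ∃ b : K, ν ≤ b ∧ ∀ j, s j < b := by
    intro ν s
    obtain ⟨b, hb⟩ := exists_bound hκ (s := range s) (mk_range_le.trans_lt (hKlt ν))
    exact ⟨max ν b, le_max_left _ _, fun j => (hb _ (mem_range_self j)).trans_le (le_max_right _ _)⟩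
  choose sb hsb1 hsb2 using hsb
  -- the sparse sequence
  let s : K → K := WellFoundedLT.fix (motive := fun _ => K)
    (fun ν f => max (sb ν fun j => f j.1 j.2) (g (sb ν fun j => f j.1 j.2)))
  let σ : K → K := fun ν => sb ν fun j => s j.1
  have hs : ∀ ν, s ν = max (σ ν) (g (σ ν)) := by
    intro ν
    show WellFoundedLT.fix _ ν = _
    rw [WellFoundedLT.fix_eq]
  have hs1 : ∀ {ν' ν : K}, ν' < ν → s ν' < σ ν := fun {ν' ν} hlt => hsb2 ν (fun j => s j.1) ⟨ν', hlt⟩
  have hsmono : StrictMono s := fun ν' ν hlt => by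
    rw [hs ν]
    exact (hs1 hlt).trans_le (le_max_left _ _)
  refine ⟨Submodule.span ℚ (range (a ∘ s)), ?_, fun B hB => ?_⟩
  · have h1 : #(range (a ∘ s)) = κ := by
      rw [mk_range_eq _ (ha.comp hsmono.injective), hK]
    rw [← h1]
    exact mk_le_mk_of_subset Submodule.subset_span
  · obtain ⟨C, hCF, hBC⟩ := hcof B hB
    obtain ⟨γ₀, hγ₀⟩ := hg (h C) (mem_image_of_mem _ hCF)
    have hC := hFI C hCF
    have hsub : ((Submodule.span ℚ (range (a ∘ s)) : Submodule ℚ E) : Set E) ∩ B ⊆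
        (Submodule.span ℚ ((a ∘ s) '' Iio γ₀) : Submodule ℚ E) := by
      rintro v ⟨hv, hvB⟩
      have hvC := hBC hvB
      rw [SetLike.mem_coe, ← Finsupp.range_linearCombination, LinearMap.mem_range] at hv
      obtain ⟨f, rfl⟩ := hv
      by_cases hsupp : ∀ ν ∈ f.support, ν < γ₀
      · rw [SetLike.mem_coe, Finsupp.linearCombination_apply, Finsupp.sum]
        refine Submodule.sum_mem _ fun ν hν => Submodule.smul_mem _ _ (Submodule.subset_span ?_)
        exact ⟨ν, hsupp ν hν, rfl⟩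
      · exfalso
        push Not at hsupp
        obtain ⟨ν₁, hν₁, hν₁'⟩ := hsupp
        set m := f.support.max' ⟨ν₁, hν₁⟩ with hm
        have hmmem : m ∈ f.support := Finset.max'_mem _ _
        have hm0 : γ₀ ≤ m := hν₁'.trans (Finset.le_max' _ _ hν₁)
        have hfm : f m ≠ 0 := Finsupp.mem_support_iff.1 hmmem
        have hsplit : Finsupp.linearCombination ℚ (a ∘ s) f =
            f m • a (s m) + Finsupp.linearCombination ℚ (a ∘ s) (f.erase m) := by
          conv_lhs => rw [← Finsupp.single_add_erase m f]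
          rw [map_add, Finsupp.linearCombination_single]
          rfl
        have hrest : Finsupp.linearCombination ℚ (a ∘ s) (f.erase m) ∈ W (σ m) := by
          rw [Finsupp.linearCombination_apply, Finsupp.sum]
          refine Submodule.sum_mem _ fun ν hν => Submodule.smul_mem _ _ (Submodule.subset_span ?_)
          rw [Finsupp.support_erase, Finset.mem_erase] at hν
          have hlt : ν < m := lt_of_le_of_ne (Finset.le_max' _ _ hν.2) hν.1
          exact ⟨s ν, hs1 hlt, rfl⟩
        rw [hsplit] at hvC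
        have h1 := hh C hC (σ m) (f m) hfm _ hrest (s m) hvC
        have h2 := hγ₀ (σ m) (hm0.trans (hsb1 m _))
        have h3 : g (σ m) ≤ s m := by
          rw [hs m]
          exact le_max_right _ _
        exact absurd (h1.trans_le (h2.trans h3)) (lt_irrefl _)
    refine (mk_le_mk_of_subset hsub).trans_lt (mk_span_lt hκ0 ?_)
    exact mk_image_le.trans_lt (hKlt γ₀)

end

theorem affine_meagre (n : ℕ) (B : Set (Fin n → ℝ)) (q : ℚ) (v : Fin n → ℝ) (hq : q ≠ 0)
    (hB : IsMeagre B) : IsMeagre {y : Fin n → ℝ | q • y + v ∈ B} := by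
  have hq' : (q : ℝ) ≠ 0 := by exact_mod_cast hq
  have h : {y : Fin n → ℝ | q • y + v ∈ B} =
      ((Homeomorph.smulOfNeZero (q : ℝ) hq').trans (Homeomorph.addRight v)) ⁻¹' B := by
    ext y
    simp only [mem_setOf_eq, mem_preimage, Homeomorph.trans_apply]
    have : (Homeomorph.addRight v) ((Homeomorph.smulOfNeZero (q : ℝ) hq') y) = q • y + v := by
      funext i
      simp [Rat.smul_def]
    rw [this]
  rw [h]
  exact hB.preimage_of_isOpenMap (Homeomorph.continuous _) (Homeomorph.isOpenMap _)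

theorem affine_null (n : ℕ) (B : Set (Fin n → ℝ)) (q : ℚ) (v : Fin n → ℝ) (hq : q ≠ 0)
    (hB : IsNull n B) : IsNull n {y : Fin n → ℝ | q • y + v ∈ B} := by
  have hq' : (q : ℝ) ≠ 0 := by exact_mod_cast hq
  have h : {y : Fin n → ℝ | q • y + v ∈ B} =
      (fun y : Fin n → ℝ => (q : ℝ) • y) ⁻¹' ((fun y => y + v) ⁻¹' B) := by
    ext y
    simp only [mem_setOf_eq, mem_preimage]
    have : (q : ℝ) • y + v = q • y + v := by
      funext i
      simp [Rat.smul_def]
    rw [this]
  unfold IsNull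
  rw [h, Measure.addHaar_preimage_smul _ hq', measure_preimage_add_right]
  rw [show volume B = 0 from hB, mul_zero]

end Pool.Agent.Helper73.Luzin
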