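import Mathlib

/-!
Definitions for problem MP_74c39b_lc: `h`-inputs and the selection principles `S_1(Γ_h, O)` and
`S_1(Γ_h, Γ)`, word for word as in the problem file.
-/

set_option autoImplicit false

open Set Filter

namespace Pool.Agent.Helper73.Sel

/-- An `h`-input for the space `X`: a double sequence `V n m` of open sets such that for every
point `x` and every `n` the set `{m | x ∉ V n m}` has at most `h n` elements. -/
def IsInput (X : Type*) [TopologicalSpace X] (h : ℕ → ℕ) (V : ℕ → ℕ → Set X) : Prop :=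
  (∀ n m, IsOpen (V n m)) ∧ ∀ (x : X) (n : ℕ), {m : ℕ | x ∉ V n m}.encard ≤ h n

/-- `X` satisfies `S_1(Γ_h, O)`: for every `h`-input there is `d : ℕ → ℕ` such that the sets
`V n (d n)` cover `X`. -/
def SelectsCover (X : Type*) [TopologicalSpace X] (h : ℕ → ℕ) : Prop :=
  ∀ V : ℕ → ℕ → Set X, IsInput X h V → ∃ d : ℕ → ℕ, ∀ x : X, ∃ n, x ∈ V n (d n)

/-- `X` satisfies `S_1(Γ_h, Γ)`: for every `h`-input there is `d : ℕ → ℕ` such that every point
lies in `V n (d n)` for all but finitely many `n`. -/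
def SelectsGammaCover (X : Type*) [TopologicalSpace X] (h : ℕ → ℕ) : Prop :=
  ∀ V : ℕ → ℕ → Set X, IsInput X h V → ∃ d : ℕ → ℕ, ∀ x : X, ∀ᶠ n in atTop, x ∈ V n (d n)

end Pool.Agent.Helper73.Sel
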