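import Mathlib

/-!
Combinatorial frame on the real line used for problem MP_74c39b_lc.
-/

set_option autoImplicit false

open Set Filter Topology Cardinal

namespace Pool.Agent.Helper73.Sel

universe u

/-- Injective choice from a family of large sets. -/
theorem exists_injective_choice {I α : Type u} (A : I → Set α)
    (hA : ∀ i, #I ≤ #(A i)) : ∃ f : I → α, Function.Injective f ∧ ∀ i, f i ∈ A i := by
  classical
  obtain ⟨lo, wf, hord⟩ := Cardinal.exists_ord_eq_type_lt I
  have key : ∀ (i : I) (S : Set α), #S < #(A i) → ∃ x ∈ A i, x ∉ S := by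
    intro i S hS
    by_contra hcon
    push Not at hcon
    exact absurd (Cardinal.mk_le_mk_of_subset (show A i ⊆ S from fun x hx => hcon x hx)) (not_le.2 hS)
  have hstep : ∀ (i : I) (ih : ∀ j, j < i → α),
      ∃ x ∈ A i, ∀ j (hj : j < i), ih j hj ≠ x := by
    intro i ih
    obtain ⟨x, hx, hxS⟩ := key i (Set.range fun j : Set.Iio i => ih j.1 j.2) (by
      refine lt_of_le_of_lt Cardinal.mk_range_le ?_
      exact lt_of_lt_of_le (Cardinal.mk_Iio_lt i hord) (hA i))
    exact ⟨x, hx, fun j hj h => hxS ⟨⟨j, hj⟩, h⟩⟩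
  let f : I → α := wf.wf.fix (fun i ih => Classical.choose (hstep i ih))
  have hf : ∀ i, f i = Classical.choose (hstep i (fun j _ => f j)) := by
    intro i
    exact wf.wf.fix_eq _ i
  have hmem : ∀ i, f i ∈ A i := by
    intro i
    rw [hf i]
    exact (Classical.choose_spec (hstep i (fun j _ => f j))).1
  have hne : ∀ i j, j < i → f j ≠ f i := by
    intro i j hj
    have := (Classical.choose_spec (hstep i (fun j _ => f j))).2 j hj
    rwa [← hf i] at this
  refine ⟨f, ?_, hmem⟩
  intro i j hij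
  rcases lt_trichotomy i j with h | h | h
  · exact absurd hij (hne j i h)
  · exact h
  · exact absurd hij.symm (hne i j h)

/-- a well-ordered type of size at most the continuum in which countable sets are bounded -/
theorem exists_levels : ∃ (W : Type) (_ : LinearOrder W) (_ : WellFoundedLT W),
    #W ≤ 𝔠 ∧ ∀ S : Set W, S.Countable → ∃ w, ∀ s ∈ S, s < w := by
  obtain ⟨lo, wf, hord⟩ := Cardinal.exists_ord_eq_type_lt (ℵ₁ : Cardinal.{0}).out
  have hmk : #(ℵ₁ : Cardinal.{0}).out = ℵ₁ := Cardinal.mk_out _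
  refine ⟨(ℵ₁ : Cardinal.{0}).out, lo, wf, ?_, ?_⟩
  · rw [hmk]; exact Cardinal.aleph_one_le_continuum
  · intro S hS
    by_contra hcon
    push Not at hcon
    have hIic : ∀ s : (ℵ₁ : Cardinal.{0}).out, (Set.Iic s).Countable := by
      intro s
      have h1 : (Set.Iio s).Countable := by
        rw [← Cardinal.le_aleph0_iff_set_countable]
        have := Cardinal.mk_Iio_lt s hord
        rw [hmk] at this
        exact Order.lt_succ_iff.1 (lt_of_lt_of_eq this Cardinal.succ_aleph0.symm)
      have : Set.Iic s = Set.Iio s ∪ {s} := by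
        ext x; simp [le_iff_lt_or_eq]
      rw [this]
      exact h1.union (Set.countable_singleton s)
    have hall : (Set.univ : Set (ℵ₁ : Cardinal.{0}).out).Countable := by
      refine (hS.biUnion (fun s _ => hIic s)).mono ?_
      intro w _
      obtain ⟨s, hs, hsw⟩ := hcon w
      exact Set.mem_iUnion₂.2 ⟨s, hs, hsw⟩
    rw [← Cardinal.le_aleph0_iff_set_countable, Cardinal.mk_univ, hmk] at hall
    exact absurd Cardinal.aleph0_lt_aleph_one (not_lt.2 hall)

/-- cluster points of a sequence of reals -/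
def clus (s : ℕ → ℝ) : Set ℝ := {x | MapClusterPt x atTop s}

theorem isClosed_clus (s : ℕ → ℝ) : IsClosed (clus s) := isClosed_setOfPred_clusterPt

theorem mk_clus_diff {s : ℕ → ℝ} (hs : ¬ (clus s).Countable) :
    𝔠 ≤ #(clus s \ Set.range s : Set ℝ) := by
  obtain ⟨f, hf, _, hinj⟩ := (isClosed_clus s).exists_nat_bool_injection_of_not_countable hs
  have h1 : 𝔠 ≤ #(clus s) := by
    have : #(ℕ → Bool) ≤ #(clus s) := by
      refine Cardinal.mk_le_of_injective (f := fun x => (⟨f x, hf ⟨x, rfl⟩⟩ : clus s)) ?_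
      intro x y hxy
      exact hinj (Subtype.ext_iff.1 hxy)
    simpa using this
  by_contra hcon
  rw [not_le] at hcon
  have h2 : #(clus s) ≤ #(clus s \ Set.range s : Set ℝ) + ℵ₀ := by
    calc #(clus s) ≤ #((clus s \ Set.range s) ∪ Set.range s : Set ℝ) :=
          Cardinal.mk_le_mk_of_subset (by intro x hx; by_cases h : x ∈ Set.range s <;> simp_all)
      _ ≤ #(clus s \ Set.range s : Set ℝ) + #(Set.range s) := Cardinal.mk_union_le _ _
      _ ≤ _ := by gcongr; exact (Set.countable_range s).le_aleph0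
  have h3 : #(clus s \ Set.range s : Set ℝ) + ℵ₀ < 𝔠 :=
    Cardinal.add_lt_of_lt Cardinal.aleph0_le_continuum hcon Cardinal.aleph0_lt_continuum
  exact absurd (h1.trans h2) (not_le.2 h3)

/-- a function on the reals all of whose fibres are uncountable in every interval -/
theorem exists_fibre (T : Type) (hT : #T ≤ 𝔠) [Nonempty T] :
    ∃ f : ℝ → T, ∀ (t : T) (u v : ℝ), u < v → ¬ {x | x ∈ Ioo u v ∧ f x = t}.Countable := by
  classical
  let I := T × ℝ × ℚ × ℚ
  have hI : #I ≤ 𝔠 := by
    simp only [I, Cardinal.mk_prod, Cardinal.lift_id, Cardinal.mk_real, Cardinal.mkRat]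
    refine Cardinal.mul_le_of_le Cardinal.aleph0_le_continuum hT ?_
    refine Cardinal.mul_le_of_le Cardinal.aleph0_le_continuum le_rfl ?_
    rw [Cardinal.aleph0_mul_aleph0]
    exact Cardinal.aleph0_le_continuum
  let A : I → Set ℝ := fun i => if ((i.2.2.1 : ℚ) : ℝ) < ((i.2.2.2 : ℚ) : ℝ) then
    Ioo ((i.2.2.1 : ℚ) : ℝ) ((i.2.2.2 : ℚ) : ℝ) else Set.univ
  have hA : ∀ i, #I ≤ #(A i) := by
    intro i
    refine hI.trans ?_
    by_cases h : ((i.2.2.1 : ℚ) : ℝ) < ((i.2.2.2 : ℚ) : ℝ)
    · simp only [A, if_pos h]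
      exact (Cardinal.mk_Ioo_real h).ge
    · simp only [A, if_neg h]
      rw [Cardinal.mk_univ, Cardinal.mk_real]
  obtain ⟨g, hginj, hg⟩ := exists_injective_choice A hA
  let f : ℝ → T := fun x => if h : ∃ i, g i = x then (Classical.choose h).1 else Classical.arbitrary T
  have hf : ∀ i, f (g i) = i.1 := by
    intro i
    have h : ∃ i', g i' = g i := ⟨i, rfl⟩
    simp only [f, dif_pos h]
    rw [hginj (Classical.choose_spec h)]
  refine ⟨f, ?_⟩
  intro t u v huv hcount
  obtain ⟨p, hp1, hp2⟩ := exists_rat_btwn huv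
  obtain ⟨q, hq1, hq2⟩ := exists_rat_btwn hp2
  have hsub : Set.range (fun y : ℝ => g (t, y, p, q)) ⊆ {x | x ∈ Ioo u v ∧ f x = t} := by
    rintro x ⟨y, rfl⟩
    have h1 := hg (t, y, p, q)
    simp only [A, if_pos hq1] at h1
    exact ⟨⟨hp1.trans h1.1, h1.2.trans hq2⟩, hf _⟩
  have h2 := hcount.mono hsub
  have hinj : Function.Injective (fun y : ℝ => g (t, y, p, q)) := by
    intro y y' hyy
    have := hginj hyy
    exact congrArg (fun i : I => i.2.1) this
  have h3 : (Set.univ : Set ℝ).Countable := by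
    rw [← Set.image_univ] at h2
    exact Set.countable_of_injective_of_countable_image hinj.injOn h2
  exact Cardinal.not_countable_real h3

/-- every uncountable set of reals contains the range of a sequence with uncountably many
cluster points -/
theorem exists_seq_of_not_countable {A : Set ℝ} (hA : ¬ A.Countable) :
    ∃ s : ℕ → ℝ, (∀ i, s i ∈ A) ∧ ¬ (clus s).Countable := by
  obtain ⟨S, hS, hd⟩ := TopologicalSpace.exists_countable_dense A
  have hne : S.Nonempty := by
    have : Nonempty A := by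
      by_contra h
      rw [not_nonempty_iff] at h
      exact hA (Set.countable_coe_iff.1 (by infer_instance))
    exact hd.nonempty
  obtain ⟨e, he⟩ := hS.exists_eq_range hne
  let s : ℕ → ℝ := fun n => (e (Nat.unpair n).1 : ℝ)
  refine ⟨s, fun i => (e (Nat.unpair i).1).2, ?_⟩
  intro hc
  apply hA
  refine hc.mono ?_
  have hcl : ∀ k, (e k : ℝ) ∈ clus s := by
    intro k
    show MapClusterPt (e k : ℝ) atTop s
    rw [mapClusterPt_iff_frequently]
    intro U hU
    rw [Filter.frequently_atTop]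
    intro n
    refine ⟨Nat.pair k n, Nat.right_le_pair k n, ?_⟩
    simp only [s, Nat.unpair_pair]
    exact mem_of_mem_nhds hU
  intro x hx
  have h1 : (⟨x, hx⟩ : A) ∈ closure S := hd ⟨x, hx⟩
  have h2 : x ∈ closure (Subtype.val '' S) := by
    have := closure_subtype.1 h1
    exact this
  refine (isClosed_clus s).closure_subset_iff.2 ?_ h2
  rintro y ⟨z, hz, rfl⟩
  rw [he] at hz
  obtain ⟨k, rfl⟩ := hz
  exact hcl k

/-- a sequence meeting every nonempty open interval infinitely often has uncountably many cluster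
points: we only need one choice of intervals -/
theorem exists_intervals : ∃ I : ℕ → ℝ × ℝ, (∀ n, (I n).1 < (I n).2) ∧
    ∀ s : ℕ → ℝ, (∀ n, s n ∈ Ioo (I n).1 (I n).2) → ¬ (clus s).Countable := by
  let J : ℚ × ℕ → ℝ × ℝ := fun p => ((p.1 : ℝ) - 1 / (p.2 + 1), (p.1 : ℝ) + 1 / (p.2 + 1))
  obtain ⟨e, he⟩ := exists_surjective_nat (ℚ × ℕ)
  refine ⟨fun n => J (e n), ?_, ?_⟩
  · intro n
    simp only [J]
    have : (0 : ℝ) < 1 / ((e n).2 + 1) := by positivity
    linarith
  · intro s hs hc
    apply Cardinal.not_countable_real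
    refine hc.mono ?_
    intro x _
    show MapClusterPt x atTop s
    rw [mapClusterPt_iff_frequently]
    intro U hU
    rw [Filter.frequently_atTop]
    intro n
    obtain ⟨ε, hε, hεU⟩ := Metric.mem_nhds_iff.1 hU
    -- infinitely many indices
    have hinf : {k : ℕ | s k ∈ U}.Infinite := by
      obtain ⟨m, hm⟩ := exists_nat_one_div_lt (half_pos (half_pos hε))
      obtain ⟨q, hq1, hq2⟩ := exists_rat_btwn (show x < x + ε / 4 by linarith)
      have hk : ∀ l : ℕ, ∃ k, e k = (q, m + l) := fun l => he (q, m + l)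
      choose κ hκ using hk
      refine Set.infinite_of_injective_forall_mem (f := κ) ?_ ?_
      · intro l l' hll
        have : e (κ l) = e (κ l') := by rw [hll]
        rw [hκ, hκ] at this
        have := congrArg Prod.snd this
        simpa using this
      · intro l
        apply hεU
        have h1 := hs (κ l)
        simp only [J, hκ] at h1
        have h2 : (1 : ℝ) / (((m + l : ℕ) : ℝ) + 1) ≤ 1 / ((m : ℝ) + 1) := by
          apply one_div_le_one_div_of_le (by positivity)
          push_cast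
          have : (0 : ℝ) ≤ l := by positivity
          linarith
        rw [Metric.mem_ball, Real.dist_eq, abs_lt]
        constructor <;> linarith [h1.1, h1.2]
    obtain ⟨k, hk, hnk⟩ := hinf.exists_gt n
    exact ⟨k, hnk.le, hk⟩

/-- The frame: each `pre` point `z` carries `N z` sequences of points of smaller rank, converging
(as reals) to distinct labels. -/
structure Frame where
  r : ℝ → ℝ → Prop
  wf : WellFounded r
  N : ℝ → ℕ
  a : ℝ → ℕ → ℕ → ℝ
  d : ℝ → ℕ → ℕ
  lab : ℝ → ℕ → ℝ
  pre : ℝ → Prop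
  a_lt : ∀ {z j}, pre z → j < N z → ∀ i, r (a z j i) z
  a_tendsto : ∀ {z j}, pre z → j < N z → Tendsto (a z j) atTop (𝓝 (lab z j))
  a_ne : ∀ {z j}, pre z → j < N z → ∀ i, a z j i ≠ lab z j
  lab_inj : ∀ {z j z' j'}, lab z j = lab z' j' → z = z' ∧ j = j'
  base : ∀ δ : ℕ → ℕ, ∃ z, N z = 0 ∧ d z = δ
  task : ∀ (n : ℕ) (s : ℕ → ℕ → ℝ), 1 ≤ n → (∀ j < n, ¬ (clus (s j)).Countable) →
    ∀ (u v : ℝ), u < v → ¬ {z | z ∈ Ioo u v ∧ pre z ∧ N z = n ∧
      ∀ j < n, ∃ φ : ℕ → ℕ, StrictMono φ ∧ a z j = s j ∘ φ}.Countable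

theorem exists_frame : Nonempty Frame := by
  classical
  obtain ⟨W, lo, wfW, hW, hbdd⟩ := exists_levels
  let T := W × ℕ × (ℕ → ℕ → ℝ) × (ℕ → ℕ)
  have hT : #T ≤ 𝔠 := by
    simp only [T, Cardinal.mk_prod, Cardinal.lift_id, Cardinal.mk_nat]
    refine Cardinal.mul_le_of_le Cardinal.aleph0_le_continuum hW ?_
    refine Cardinal.mul_le_of_le Cardinal.aleph0_le_continuum Cardinal.aleph0_le_continuum ?_
    refine Cardinal.mul_le_of_le Cardinal.aleph0_le_continuum ?_ ?_
    · simp [Cardinal.mk_real]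
    · simp
  obtain ⟨w0, -⟩ := hbdd ∅ Set.countable_empty
  have : Nonempty T := ⟨(w0, 0, fun _ _ => 0, fun _ => 0)⟩
  obtain ⟨f, hf⟩ := exists_fibre T hT
  let lev : ℝ → W := fun x => (f x).1
  let N : ℝ → ℕ := fun x => (f x).2.1
  let s : ℝ → ℕ → ℕ → ℝ := fun x => (f x).2.2.1
  let d : ℝ → ℕ → ℕ := fun x => (f x).2.2.2
  let pre : ℝ → Prop := fun z => ∀ j < N z, (∀ i, lev (s z j i) < lev z) ∧ ¬ (clus (s z j)).Countable
  let A : ℝ × ℕ → Set ℝ := fun p => if pre p.1 ∧ p.2 < N p.1 then
    clus (s p.1 p.2) \ Set.range (s p.1 p.2) else Set.univ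
  have hA : ∀ p, #(ℝ × ℕ) ≤ #(A p) := by
    intro p
    have h1 : #(ℝ × ℕ) ≤ 𝔠 := by simp [Cardinal.mk_real]
    refine h1.trans ?_
    by_cases h : pre p.1 ∧ p.2 < N p.1
    · simp only [A, if_pos h]
      exact mk_clus_diff (h.1 p.2 h.2).2
    · simp only [A, if_neg h]
      rw [Cardinal.mk_univ, Cardinal.mk_real]
  obtain ⟨lab, hinj, hlab⟩ := exists_injective_choice A hA
  have hsub : ∀ z j, pre z → j < N z → ∃ φ : ℕ → ℕ, StrictMono φ ∧
      Tendsto (s z j ∘ φ) atTop (𝓝 (lab (z, j))) := by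
    intro z j hz hj
    have h1 := hlab (z, j)
    simp only [A, if_pos (show pre z ∧ j < N z from ⟨hz, hj⟩)] at h1
    exact MapClusterPt.tendsto_subseq h1.1
  let φ : ℝ → ℕ → ℕ → ℕ := fun z j =>
    if h : pre z ∧ j < N z then Classical.choose (hsub z j h.1 h.2) else id
  have hφ : ∀ z j, pre z → j < N z → StrictMono (φ z j) ∧
      Tendsto (s z j ∘ φ z j) atTop (𝓝 (lab (z, j))) := by
    intro z j hz hj
    simp only [φ, dif_pos (show pre z ∧ j < N z from ⟨hz, hj⟩)]
    exact Classical.choose_spec (hsub z j hz hj)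
  refine ⟨{ r := fun x y => lev x < lev y
            wf := InvImage.wf lev wfW.wf
            N := N
            a := fun z j i => s z j (φ z j i)
            d := d
            lab := fun z j => lab (z, j)
            pre := pre
            a_lt := ?_
            a_tendsto := ?_
            a_ne := ?_
            lab_inj := ?_
            base := ?_
            task := ?_ }⟩
  · intro z j hz hj i
    exact (hz j hj).1 _
  · intro z j hz hj
    exact (hφ z j hz hj).2
  · intro z j hz hj i h
    have h1 := hlab (z, j)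
    simp only [A, if_pos (show pre z ∧ j < N z from ⟨hz, hj⟩)] at h1
    exact h1.2 ⟨φ z j i, h⟩
  · intro z j z' j' h
    have := hinj h
    exact ⟨congrArg Prod.fst this, congrArg Prod.snd this⟩
  · intro δ
    by_contra hcon
    push Not at hcon
    apply hf (w0, 0, fun _ _ => 0, δ) 0 1 one_pos
    convert Set.countable_empty
    rw [Set.eq_empty_iff_forall_notMem]
    rintro x ⟨_, hx⟩
    exact hcon x (by simp only [N, hx]) (by simp only [d, hx])
  · intro n s' hn hs' u v huv
    obtain ⟨w, hw⟩ := hbdd (⋃ j, ⋃ i, {lev (s' j i)})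
      (Set.countable_iUnion fun j => Set.countable_iUnion fun i => Set.countable_singleton _)
    have hw' : ∀ j i, lev (s' j i) < w := fun j i =>
      hw _ (Set.mem_iUnion.2 ⟨j, Set.mem_iUnion.2 ⟨i, rfl⟩⟩)
    intro hc
    apply hf (w, n, s', fun _ => 0) u v huv
    refine hc.mono ?_
    rintro z ⟨hz, hfz⟩
    have e1 : lev z = w := by simp only [lev, hfz]
    have e2 : N z = n := by simp only [N, hfz]
    have e3 : s z = s' := by simp only [s, hfz]
    have hpre : pre z := by
      intro j hj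
      rw [e1, e3]
      exact ⟨fun i => hw' j i, hs' j (by omega)⟩
    refine ⟨hz, hpre, e2, ?_⟩
    intro j hj
    refine ⟨φ z j, (hφ z j hpre (by omega)).1, ?_⟩
    funext i
    simp only [e3, Function.comp]

end Pool.Agent.Helper73.Sel
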