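import Mathlib
import Pool.Agent.Helper73.SelDefs
import Pool.Agent.Helper73.SelFrame

/-!
The space built from a frame and a function `h`.
-/

set_option autoImplicit false

open Set Filter Topology Cardinal

namespace Pool.Agent.Helper73.Sel

variable (F : Frame) (h : ℕ → ℕ)

/-- bounded types of size at most `h` -/
def good (h : ℕ → ℕ) (t : ℕ → Set ℕ) : Prop :=
  (∀ n, (t n).encard ≤ h n) ∧ ∃ r : ℕ, ∀ n, (t n).encard ≤ r

open Classical in
/-- one step in the recursive definition of types -/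
noncomputable def pstep (z : ℝ) (ih : ∀ y, F.r y z → ℕ → Set ℕ) : ℕ → Set ℕ :=
  if F.N z = 0 then fun n => {F.d z n}
  else if hpre : F.pre z then
    (if good h (fun n => {m | ∃ j, ∃ hj : j < F.N z,
        ∀ᶠ i in hyperfilter ℕ, m ∈ ih (F.a z j i) (F.a_lt hpre hj i) n}) then
      (fun n => {m | ∃ j, ∃ hj : j < F.N z,
        ∀ᶠ i in hyperfilter ℕ, m ∈ ih (F.a z j i) (F.a_lt hpre hj i) n})
    else fun _ => ∅)
  else fun _ => ∅

/-- the type of a point -/
noncomputable def p : ℝ → ℕ → Set ℕ := F.wf.fix (pstep F h)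

/-- the union of the limit types along the sequences attached to `z` -/
def tlim (z : ℝ) (n : ℕ) : Set ℕ :=
  {m | ∃ j, j < F.N z ∧ ∀ᶠ i in hyperfilter ℕ, m ∈ p F h (F.a z j i) n}

/-- active points: those which are limits of their sequences -/
def act (z : ℝ) : Prop := F.N z ≠ 0 ∧ F.pre z ∧ good h (tlim F h z)

theorem p_eq (z : ℝ) : p F h z = pstep F h z (fun y _ => p F h y) := F.wf.fix_eq _ z

theorem p_base {z : ℝ} (hz : F.N z = 0) : p F h z = fun n => {F.d z n} := by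
  rw [p_eq, pstep, if_pos hz]

theorem tlim_eq (z : ℝ) : (fun n => {m | ∃ j, ∃ _ : j < F.N z,
        ∀ᶠ i in hyperfilter ℕ, m ∈ p F h (F.a z j i) n}) = tlim F h z := by
  funext n
  ext m
  simp only [tlim, Set.mem_ofPred_eq, exists_prop]

theorem p_act {z : ℝ} (hz : act F h z) : p F h z = tlim F h z := by
  obtain ⟨h0, hpre, hgood⟩ := hz
  rw [p_eq, pstep, if_neg h0, dif_pos hpre]
  have e := tlim_eq F h z
  rw [if_pos (by rw [e]; exact hgood)]
  exact e

theorem p_else {z : ℝ} (h0 : F.N z ≠ 0) (hz : ¬ act F h z) : p F h z = fun _ => ∅ := by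
  rw [p_eq, pstep, if_neg h0]
  by_cases hpre : F.pre z
  · rw [dif_pos hpre]
    have e := tlim_eq F h z
    rw [if_neg (by rw [e]; exact fun hg => hz ⟨h0, hpre, hg⟩)]
  · rw [dif_neg hpre]

theorem p_card (h1 : ∀ n, 1 ≤ h n) (z : ℝ) (n : ℕ) : (p F h z n).encard ≤ h n := by
  by_cases h0 : F.N z = 0
  · rw [p_base F h h0]
    simp only [Set.encard_singleton]
    exact_mod_cast h1 n
  · by_cases hz : act F h z
    · rw [p_act F h hz]
      exact hz.2.2.1 n
    · rw [p_else F h h0 hz]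
      simp

theorem p_bdd (z : ℝ) : ∃ r : ℕ, ∀ n, (p F h z n).encard ≤ r := by
  by_cases h0 : F.N z = 0
  · refine ⟨1, fun n => ?_⟩
    rw [p_base F h h0]
    simp
  · by_cases hz : act F h z
    · rw [p_act F h hz]
      exact hz.2.2.2
    · refine ⟨0, fun n => ?_⟩
      rw [p_else F h h0 hz]
      simp

/-- the underlying set of the space is the set of real numbers -/
def Sp (_F : Frame) (_h : ℕ → ℕ) : Type := ℝ

/-- `U` is open when every active point of `U` has all its sequences in `U` along the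
ultrafilter -/
instance : TopologicalSpace (Sp F h) where
  IsOpen U := ∀ z : ℝ, z ∈ (show Set ℝ from U) → act F h z → ∀ j < F.N z,
    ∀ᶠ i in hyperfilter ℕ, F.a z j i ∈ (show Set ℝ from U)
  isOpen_univ := by
    intro z _ _ j _
    exact Filter.Eventually.of_forall fun _ => trivial
  isOpen_inter := by
    intro U V hU hV z hz ha j hj
    exact (hU z hz.1 ha j hj).and (hV z hz.2 ha j hj)
  isOpen_sUnion := by
    intro S hS z hz ha j hj
    obtain ⟨U, hU, hzU⟩ := hz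
    exact (hS U hU z hzU ha j hj).mono fun i hi => ⟨U, hU, hi⟩

theorem isOpen_iff' (U : Set ℝ) : IsOpen (X := Sp F h) U ↔ ∀ z ∈ U, act F h z → ∀ j < F.N z,
    ∀ᶠ i in hyperfilter ℕ, F.a z j i ∈ U := Iff.rfl

theorem mem_of_isClosed {C : Set ℝ} (hC : IsClosed (X := Sp F h) C) {z : ℝ} (hz : act F h z)
    {j : ℕ} (hj : j < F.N z) (hmem : ∀ i, F.a z j i ∈ C) : z ∈ C := by
  by_contra hcon
  have h1 : IsOpen (X := Sp F h) Cᶜ := hC.isOpen_compl
  rw [isOpen_iff'] at h1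
  obtain ⟨i, hi⟩ := (h1 z hcon hz j hj).exists
  exact hi (hmem i)

theorem isOpen_notMem (n m : ℕ) : IsOpen (X := Sp F h) {x : ℝ | m ∉ p F h x n} := by
  rw [isOpen_iff']
  intro z hz ha j hj
  have hz' : m ∉ p F h z n := hz
  rw [p_act F h ha] at hz'
  have h2 : ¬ ∀ᶠ i in hyperfilter ℕ, m ∈ p F h (F.a z j i) n := fun hc => hz' ⟨j, hj, hc⟩
  exact Ultrafilter.eventually_not.2 h2

/-- The space fails `S_1(Γ_h, O)`. -/
theorem not_selectsCover (h1 : ∀ n, 1 ≤ h n) : ¬ SelectsCover (Sp F h) h := by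
  intro hS
  obtain ⟨d, hd⟩ := hS (fun n m => {x : ℝ | m ∉ p F h x n}) ⟨fun n m => isOpen_notMem F h n m, by
    intro x n
    refine le_trans (Set.encard_le_encard ?_) (p_card F h h1 x n)
    intro m hm
    by_contra hcon
    exact hm hcon⟩
  obtain ⟨z, hz, hdz⟩ := F.base d
  obtain ⟨n, hn⟩ := hd (show ℝ from z)
  have hn' : d n ∉ p F h z n := hn
  rw [p_base F h hz, hdz] at hn'
  exact hn' rfl

/-! ### Almost disjointness and the Hausdorff property -/

theorem eventually_ne {z : ℝ} {j : ℕ} (hz : F.pre z) (hj : j < F.N z) (w : ℝ) :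
    ∀ᶠ i in atTop, F.a z j i ≠ w := by
  by_cases hw : w = F.lab z j
  · subst hw
    exact Filter.Eventually.of_forall fun i => F.a_ne hz hj i
  · exact (F.a_tendsto hz hj).eventually_ne (Ne.symm hw)

theorem eventually_notMem_range {z z' : ℝ} {j j' : ℕ} (hz : F.pre z) (hj : j < F.N z)
    (hz' : F.pre z') (hj' : j' < F.N z') (hne : ¬ (z = z' ∧ j = j')) :
    ∀ᶠ i in atTop, ∀ k, F.a z j i ≠ F.a z' j' k := by
  have hlab : F.lab z j ≠ F.lab z' j' := fun h => hne (F.lab_inj h)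
  obtain ⟨U, V, hU, hV, hxU, hxV, hUV⟩ := t2_separation hlab
  have e1 : ∀ᶠ i in atTop, F.a z j i ∈ U := (F.a_tendsto hz hj).eventually_mem (hU.mem_nhds hxU)
  have e2 : ∀ᶠ k in atTop, F.a z' j' k ∈ V :=
    (F.a_tendsto hz' hj').eventually_mem (hV.mem_nhds hxV)
  obtain ⟨K, hK⟩ := Filter.eventually_atTop.1 e2
  have e3 : ∀ᶠ i in atTop, ∀ k ∈ Set.Iio K, F.a z j i ≠ F.a z' j' k :=
    (Filter.eventually_all_finite (Set.finite_Iio K)).2 fun k _ => eventually_ne F hz hj _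
  filter_upwards [e1, e3] with i h1 h3 k hk
  by_cases hkK : k < K
  · exact h3 k hkK hk
  · rw [hk] at h1
    exact Set.disjoint_left.1 hUV h1 (hK k (not_lt.1 hkK))

/-- descendants -/
def desc (S : Set ℝ) : ℕ → Set ℝ
  | 0 => S
  | n + 1 => desc S n ∪ ⋃ z ∈ desc S n, ⋃ j, Set.range (F.a z j)

theorem desc_countable {S : Set ℝ} (hS : S.Countable) : ∀ n, (desc F S n).Countable
  | 0 => hS
  | n + 1 => (desc_countable hS n).union ((desc_countable hS n).biUnion fun z _ =>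
      Set.countable_iUnion fun j => Set.countable_range _)

/-- cut functions making all tails disjoint -/
theorem exists_cut (α β : ℝ) : ∃ (D : Set ℝ) (g : ℝ → ℕ → ℕ), α ∈ D ∧ β ∈ D ∧
    (∀ z ∈ D, ∀ j i, F.a z j i ∈ D) ∧
    (∀ z ∈ D, F.pre z → ∀ j < F.N z, ∀ i ≥ g z j, F.a z j i ≠ α ∧ F.a z j i ≠ β) ∧
    (∀ z ∈ D, F.pre z → ∀ j < F.N z, ∀ i ≥ g z j,
      ∀ z' ∈ D, F.pre z' → ∀ j' < F.N z', ∀ i' ≥ g z' j', F.a z j i = F.a z' j' i' →
        z = z' ∧ j = j') := by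
  classical
  let D : Set ℝ := ⋃ n, desc F {α, β} n
  have hD : D.Countable := Set.countable_iUnion fun n =>
    desc_countable F ((Set.countable_singleton β).insert α) n
  have hα : α ∈ D := Set.mem_iUnion.2 ⟨0, by simp [desc]⟩
  have hβ : β ∈ D := Set.mem_iUnion.2 ⟨0, by simp [desc]⟩
  have hcl : ∀ z ∈ D, ∀ j i, F.a z j i ∈ D := by
    intro z hz j i
    obtain ⟨n, hn⟩ := Set.mem_iUnion.1 hz
    refine Set.mem_iUnion.2 ⟨n + 1, Or.inr ?_⟩
    exact Set.mem_iUnion₂.2 ⟨z, hn, Set.mem_iUnion.2 ⟨j, ⟨i, rfl⟩⟩⟩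
  -- an injection of D × ℕ into ℕ
  have hDN : (D ×ˢ (Set.univ : Set ℕ)).Countable := hD.prod Set.countable_univ
  obtain ⟨ι, hι⟩ := Set.countable_iff_exists_injOn.1 hDN
  have hfin : ∀ z j, {q : ℝ × ℕ | q ∈ D ×ˢ (Set.univ : Set ℕ) ∧ ι q ≤ ι (z, j)}.Finite := by
    intro z j
    refine Set.Finite.of_finite_image (f := ι) ?_ (hι.mono fun q hq => hq.1)
    refine (Set.finite_Iic (ι (z, j))).subset ?_
    rintro _ ⟨q, hq, rfl⟩
    exact hq.2
  have hex : ∀ z j, ∃ g : ℕ, F.pre z → j < F.N z → ∀ i ≥ g,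
      (F.a z j i ≠ α ∧ F.a z j i ≠ β) ∧
      ∀ q : ℝ × ℕ, q ∈ D ×ˢ (Set.univ : Set ℕ) → ι q ≤ ι (z, j) → F.pre q.1 → q.2 < F.N q.1 →
        ¬ (z = q.1 ∧ j = q.2) → ∀ k, F.a z j i ≠ F.a q.1 q.2 k := by
    intro z j
    by_cases hz : F.pre z
    · by_cases hj : j < F.N z
      · have e1 := (eventually_ne F hz hj α).and (eventually_ne F hz hj β)
        have e2 : ∀ᶠ i in atTop, ∀ q ∈ {q : ℝ × ℕ | q ∈ D ×ˢ (Set.univ : Set ℕ) ∧ ι q ≤ ι (z, j)},
            F.pre q.1 → q.2 < F.N q.1 → ¬ (z = q.1 ∧ j = q.2) → ∀ k, F.a z j i ≠ F.a q.1 q.2 k := by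
          refine (Filter.eventually_all_finite (hfin z j)).2 ?_
          intro q _
          by_cases hq : F.pre q.1 ∧ q.2 < F.N q.1 ∧ ¬ (z = q.1 ∧ j = q.2)
          · filter_upwards [eventually_notMem_range F hz hj hq.1 hq.2.1 hq.2.2] with i hi _ _ _
            exact hi
          · refine Filter.Eventually.of_forall fun i h1 h2 h3 => absurd ⟨h1, h2, h3⟩ hq
        obtain ⟨g, hg⟩ := Filter.eventually_atTop.1 (e1.and e2)
        refine ⟨g, fun _ _ i hi => ⟨(hg i hi).1, fun q hq hqi => (hg i hi).2 q ⟨hq, hqi⟩⟩⟩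
      · exact ⟨0, fun _ h => absurd h hj⟩
    · exact ⟨0, fun h => absurd h hz⟩
  choose g hg using hex
  refine ⟨D, g, hα, hβ, hcl, ?_, ?_⟩
  · intro z _ hz j hj i hi
    exact (hg z j hz hj i hi).1
  · intro z hzD hz j hj i hi z' hzD' hz' j' hj' i' hi' heq
    by_contra hne
    rcases le_total (ι (z', j')) (ι (z, j)) with hle | hle
    · exact (hg z j hz hj i hi).2 (z', j') ⟨hzD', trivial⟩ hle hz' hj' hne i' heq
    · refine (hg z' j' hz' hj' i' hi').2 (z, j) ⟨hzD, trivial⟩ hle hz hj ?_ i heq.symm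
      rintro ⟨h1, h2⟩
      exact hne ⟨h1.symm, h2.symm⟩

/-- one step down along a tail -/
def step (g : ℝ → ℕ → ℕ) (x y : ℝ) : Prop :=
  act F h x ∧ ∃ j < F.N x, ∃ i ≥ g x j, y = F.a x j i

theorem isOpen_reach (g : ℝ → ℕ → ℕ) (α : ℝ) :
    IsOpen (X := Sp F h) {w : ℝ | Relation.ReflTransGen (step F h g) α w} := by
  rw [isOpen_iff']
  intro z hz ha j hj
  have hz' : Relation.ReflTransGen (step F h g) α z := hz
  have e : ∀ᶠ i in (cofinite : Filter ℕ), Relation.ReflTransGen (step F h g) α (F.a z j i) := by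
    rw [Nat.cofinite_eq_atTop, Filter.eventually_atTop]
    exact ⟨g z j, fun i hi => hz'.tail ⟨ha, j, hj, i, hi, rfl⟩⟩
  exact e.filter_mono Filter.hyperfilter_le_cofinite

theorem t2 : T2Space (Sp F h) := by
  refine ⟨?_⟩
  intro x y hxy
  obtain ⟨D, g, hα, hβ, hcl, hab, hinj⟩ := exists_cut F (show ℝ from x) (show ℝ from y)
  have hD : ∀ α ∈ D, ∀ w, Relation.ReflTransGen (step F h g) α w → w ∈ D := by
    intro α hαD w hw
    induction hw with
    | refl => exact hαD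
    | tail _ hs ih =>
      obtain ⟨_, j, _, i, _, rfl⟩ := hs
      exact hcl _ ih j i
  refine ⟨{w : ℝ | Relation.ReflTransGen (step F h g) (show ℝ from x) w},
    {w : ℝ | Relation.ReflTransGen (step F h g) (show ℝ from y) w},
    isOpen_reach F h g _, isOpen_reach F h g _, Relation.ReflTransGen.refl,
    Relation.ReflTransGen.refl, ?_⟩
  rw [Set.disjoint_left]
  suffices H : ∀ w : ℝ, Relation.ReflTransGen (step F h g) (show ℝ from x) w →
      Relation.ReflTransGen (step F h g) (show ℝ from y) w → False from fun w => H w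
  intro w hw1' hw2'
  induction hw1' with
  | refl =>
    rcases Relation.ReflTransGen.cases_tail hw2' with hcase | ⟨z, hz, ha, j, hj, i, hi, hxi⟩
    · exact hxy hcase
    · exact (hab z (hD _ hβ z hz) ha.2.1 j hj i hi).1 hxi.symm
  | tail hz hs ih =>
    obtain ⟨ha, j, hj, i, hi, rfl⟩ := hs
    rcases Relation.ReflTransGen.cases_tail hw2' with hcase | ⟨z', hz', ha', j', hj', i', hi', hxi⟩
    · exact (hab _ (hD _ hα _ hz) ha.2.1 j hj i hi).2 hcase
    · obtain ⟨rfl, -⟩ := hinj _ (hD _ hα _ hz) ha.2.1 j hj i hi z' (hD _ hβ z' hz') ha'.2.1 j' hj'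
        i' hi' hxi
      exact ih hz'

end Pool.Agent.Helper73.Sel
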