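import Mathlib
import Pool.Agent.Helper73.SelSpace

/-!
Limit lemmas: common points of large closed sets.
-/

set_option autoImplicit false

open Set Filter Topology Cardinal

namespace Pool.Agent.Helper73.Sel

variable (F : Frame) (h : ℕ → ℕ)

theorem lim_card {P : ℕ → Set ℕ} {w : ℕ} (hP : ∀ i, (P i).encard ≤ w) :
    {m | ∀ᶠ i in hyperfilter ℕ, m ∈ P i}.encard ≤ w := by
  by_contra hcon
  rw [not_le] at hcon
  have h1 : ((w + 1 : ℕ) : ℕ∞) ≤ {m | ∀ᶠ i in hyperfilter ℕ, m ∈ P i}.encard := by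
    push_cast
    exact Order.add_one_le_of_lt hcon
  obtain ⟨T, hT, hTc⟩ := Set.exists_subset_encard_eq h1
  have hfin : T.Finite := Set.finite_of_encard_eq_coe hTc
  have h2 : ∀ᶠ i in hyperfilter ℕ, ∀ m ∈ T, m ∈ P i :=
    (Filter.eventually_all_finite hfin).2 fun m hm => hT hm
  obtain ⟨i, hi⟩ := h2.exists
  have h3 : T.encard ≤ w := (Set.encard_le_encard hi).trans (hP i)
  rw [hTc] at h3
  have : w + 1 ≤ w := by exact_mod_cast h3
  omega

theorem encard_union_range_le (S : ℕ → Set ℕ) (w n : ℕ) (hS : ∀ j < n, (S j).encard ≤ w) :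
    {m | ∃ j < n, m ∈ S j}.encard ≤ (n * w : ℕ) := by
  induction n with
  | zero => simp
  | succ n ih =>
    have e : {m | ∃ j < n + 1, m ∈ S j} = {m | ∃ j < n, m ∈ S j} ∪ S n := by
      ext m
      constructor
      · rintro ⟨j, hj, hm⟩
        rcases Nat.lt_succ_iff_lt_or_eq.1 hj with h | rfl
        · exact Or.inl ⟨j, h, hm⟩
        · exact Or.inr hm
      · rintro (⟨j, hj, hm⟩ | hm)
        · exact ⟨j, by omega, hm⟩
        · exact ⟨n, by omega, hm⟩
    rw [e]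
    refine (Set.encard_union_le _ _).trans ?_
    rw [Nat.succ_mul]
    push_cast
    exact add_le_add (by exact_mod_cast ih fun j hj => hS j (by omega)) (hS n (by omega))

/-- tasks whose limit types are good produce uncountably many active points -/
theorem task_act (n : ℕ) (s : ℕ → ℕ → ℝ) (hn : 1 ≤ n) (hs : ∀ j < n, ¬ (clus (s j)).Countable)
    (hgood : ∀ z, F.pre z → F.N z = n →
      (∀ j < n, ∃ φ : ℕ → ℕ, StrictMono φ ∧ F.a z j = s j ∘ φ) → good h (tlim F h z))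
    (u v : ℝ) (huv : u < v) :
    ¬ {z | z ∈ Ioo u v ∧ act F h z ∧ F.N z = n ∧
      ∀ j < n, ∃ φ : ℕ → ℕ, StrictMono φ ∧ F.a z j = s j ∘ φ}.Countable := by
  intro hc
  apply F.task n s hn hs u v huv
  refine hc.mono ?_
  rintro z ⟨hz, hpre, hN, hφ⟩
  exact ⟨hz, ⟨by omega, hpre, hgood z hpre hN hφ⟩, hN, hφ⟩

/-- Common points of closed sets with uncountable trace on a piece. -/
theorem common_point (C : ℕ → Set ℝ) (n : ℕ) (hn : 1 ≤ n)
    (hC : ∀ j < n, IsClosed (X := Sp F h) (C j)) (L : Set ℝ) (w l : ℕ) (u : ℕ → Set ℕ)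
    (hL1 : ∀ x ∈ L, ∀ k < l, p F h x k = u k) (hL2 : ∀ x ∈ L, ∀ k, (p F h x k).encard ≤ w)
    (hh : ∀ k ≥ l, n * w ≤ h k) (hcard : ∀ x k, (p F h x k).encard ≤ h k)
    (hunc : ∀ j < n, ¬ (C j ∩ L).Countable) : ∃ z, ∀ j < n, z ∈ C j := by
  have hex : ∀ j, ∃ s : ℕ → ℝ, j < n → (∀ i, s i ∈ C j ∩ L) ∧ ¬ (clus s).Countable := by
    intro j
    by_cases hj : j < n
    · obtain ⟨s, hs⟩ := exists_seq_of_not_countable (hunc j hj)
      exact ⟨s, fun _ => hs⟩
    · exact ⟨fun _ => 0, fun h => absurd h hj⟩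
  choose s hs using hex
  have hgood : ∀ z, F.pre z → F.N z = n →
      (∀ j < n, ∃ φ : ℕ → ℕ, StrictMono φ ∧ F.a z j = s j ∘ φ) → good h (tlim F h z) := by
    intro z _ hN hφ
    have hmem : ∀ j < n, ∀ i, F.a z j i ∈ L := by
      intro j hj i
      obtain ⟨φ, _, hφ⟩ := hφ j hj
      rw [hφ]
      exact ((hs j hj).1 (φ i)).2
    have hlow : ∀ k < l, tlim F h z k ⊆ u k := by
      rintro k hk m ⟨j, hj, hm⟩
      obtain ⟨i, hi⟩ := hm.exists
      rwa [hL1 _ (hmem j (by omega) i) k hk] at hi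
    have hall : ∀ k, (tlim F h z k).encard ≤ (n * w : ℕ) := by
      intro k
      have := encard_union_range_le (fun j => {m | ∀ᶠ i in hyperfilter ℕ, m ∈ p F h (F.a z j i) k})
        w n (fun j hj => lim_card fun i => hL2 _ (hmem j hj i) k)
      refine le_trans (Set.encard_le_encard ?_) this
      rintro m ⟨j, hj, hm⟩
      exact ⟨j, by omega, hm⟩
    refine ⟨?_, n * w, hall⟩
    intro k
    by_cases hk : k < l
    · refine (Set.encard_le_encard (hlow k hk)).trans ?_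
      have h0 : s 0 0 ∈ L := ((hs 0 (by omega)).1 0).2
      rw [← hL1 _ h0 k hk]
      exact hcard _ k
    · refine (hall k).trans ?_
      exact_mod_cast hh k (by omega)
  have h1 := task_act F h n s hn (fun j hj => (hs j hj).2) hgood 0 1 one_pos
  have h2 : {z | z ∈ Ioo (0 : ℝ) 1 ∧ act F h z ∧ F.N z = n ∧
      ∀ j < n, ∃ φ : ℕ → ℕ, StrictMono φ ∧ F.a z j = s j ∘ φ}.Nonempty := by
    by_contra hne
    rw [Set.not_nonempty_iff_eq_empty] at hne
    rw [hne] at h1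
    exact h1 Set.countable_empty
  obtain ⟨z, _, hact, hN, hφ⟩ := h2
  refine ⟨z, fun j hj => ?_⟩
  refine mem_of_isClosed F h (hC j hj) hact (j := j) (by omega) ?_
  intro i
  obtain ⟨φ, _, hφ⟩ := hφ j hj
  rw [hφ]
  exact ((hs j hj).1 (φ i)).1

end Pool.Agent.Helper73.Sel
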