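import Mathlib
import Pool.Agent.Helper73.SelLimit

/-!
The space satisfies `S_1(Γ_g, O)` for some slowly diverging `g`.
-/

set_option autoImplicit false

open Set Filter Topology Cardinal

namespace Pool.Agent.Helper73.Sel

variable (F : Frame) (h : ℕ → ℕ)

theorem common_point_finset (C : ℕ → Set ℝ) (T : Finset ℕ) (hn : 1 ≤ T.card)
    (hC : ∀ j, IsClosed (X := Sp F h) (C j)) (L : Set ℝ) (w l : ℕ) (u : ℕ → Set ℕ)
    (hL1 : ∀ x ∈ L, ∀ k < l, p F h x k = u k) (hL2 : ∀ x ∈ L, ∀ k, (p F h x k).encard ≤ w)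
    (hh : ∀ k ≥ l, T.card * w ≤ h k) (hcard : ∀ x k, (p F h x k).encard ≤ h k)
    (hunc : ∀ j ∈ T, ¬ (C j ∩ L).Countable) : ∃ z, ∀ j ∈ T, z ∈ C j := by
  classical
  let f : Fin T.card ≃ T := T.equivFin.symm
  let g : ℕ → ℕ := fun j => if hj : j < T.card then (f ⟨j, hj⟩ : ℕ) else 0
  have hg : ∀ j < T.card, g j ∈ T := by
    intro j hj
    simp only [g, dif_pos hj]
    exact (f ⟨j, hj⟩).2
  obtain ⟨z, hz⟩ := common_point F h (fun j => C (g j)) T.card hn
    (fun j _ => hC (g j)) L w l u hL1 hL2 hh hcard (fun j hj => hunc _ (hg j hj))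
  refine ⟨z, ?_⟩
  intro m hm
  obtain ⟨j, hj⟩ := f.surjective ⟨m, hm⟩
  have := hz j.1 j.2
  simp only [g, dif_pos j.2, hj] at this
  exact this

/-- limits of a single sequence inside a closed set -/
theorem single_limit (C : Set ℝ) (hC : IsClosed (X := Sp F h) C) (s : ℕ → ℝ)
    (hs : ¬ (clus s).Countable) (hsC : ∀ i, s i ∈ C) (hcard : ∀ x k, (p F h x k).encard ≤ h k)
    (r : ℕ) (hr : ∀ i k, (p F h (s i) k).encard ≤ r) (u v : ℝ) (huv : u < v) :
    ¬ {z | z ∈ Ioo u v ∧ z ∈ C ∧ (∀ k, (p F h z k).encard ≤ r) ∧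
      ∃ φ : ℕ → ℕ, StrictMono φ ∧
        ∀ k, p F h z k = {m | ∀ᶠ i in hyperfilter ℕ, m ∈ p F h (s (φ i)) k}}.Countable := by
  have htl : ∀ z, F.N z = 1 → ∀ k, tlim F h z k =
      {m | ∀ᶠ i in hyperfilter ℕ, m ∈ p F h (F.a z 0 i) k} := by
    intro z hz k
    ext m
    constructor
    · rintro ⟨j, hj, hm⟩
      rw [hz, Nat.lt_one_iff] at hj
      subst hj
      exact hm
    · intro hm
      exact ⟨0, by omega, hm⟩
  have key := task_act F h 1 (fun _ => s) le_rfl (fun _ _ => hs) (by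
    intro z _ hN hφ
    obtain ⟨φ, _, hφ⟩ := hφ 0 one_pos
    refine ⟨fun k => ?_, r, fun k => ?_⟩
    · rw [htl z hN]
      exact lim_card fun i => hcard _ k
    · rw [htl z hN, hφ]
      exact lim_card fun i => hr _ k) u v huv
  intro hc
  apply key
  refine hc.mono ?_
  rintro z ⟨hz, hact, hN, hφ⟩
  obtain ⟨φ, hφm, hφ⟩ := hφ 0 one_pos
  have hp : ∀ k, p F h z k = {m | ∀ᶠ i in hyperfilter ℕ, m ∈ p F h (s (φ i)) k} := by
    intro k
    rw [p_act F h hact, htl z hN, hφ]
    rfl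
  refine ⟨hz, ?_, ?_, φ, hφm, hp⟩
  · refine mem_of_isClosed F h hC hact (j := 0) (by omega) fun i => ?_
    rw [hφ]
    exact hsC _
  · intro k
    rw [hp]
    exact lim_card fun i => hr _ k

/-- points of type bounded by `r` whose type avoids `[b, b')` below `l` -/
def Q (l r b b' : ℕ) : Set ℝ :=
  {x | (∀ k, (p F h x k).encard ≤ r) ∧ ∀ k < l, ∀ m ∈ p F h x k, b ≤ m → b' ≤ m}

/-- points of type bounded by `r` whose type lies below `b` before `l` -/
def Qinf (l r b : ℕ) : Set ℝ :=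
  {x | (∀ k, (p F h x k).encard ≤ r) ∧ ∀ k < l, ∀ m ∈ p F h x k, m < b}

theorem claim1 (hcard : ∀ x k, (p F h x k).encard ≤ h k) (C : Set ℝ)
    (hC : IsClosed (X := Sp F h) C) (l r b b' : ℕ) (hunc : ¬ (C ∩ Q F h l r b b').Countable)
    (u v : ℝ) (huv : u < v) : (C ∩ Q F h l r b b' ∩ Ioo u v).Nonempty := by
  obtain ⟨s, hs, hsc⟩ := exists_seq_of_not_countable hunc
  have h1 := single_limit F h C hC s hsc (fun i => (hs i).1) hcard r (fun i => (hs i).2.1) u v huv
  by_contra hne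
  apply h1
  convert Set.countable_empty
  rw [Set.eq_empty_iff_forall_notMem]
  rintro z ⟨hz, hzC, hzr, φ, _, hφ⟩
  refine hne ⟨z, ⟨hzC, hzr, ?_⟩, hz⟩
  intro k hk m hm hbm
  rw [hφ] at hm
  obtain ⟨i, hi⟩ := (show ∀ᶠ i in hyperfilter ℕ, m ∈ p F h (s (φ i)) k from hm).exists
  exact (hs (φ i)).2.2 k hk m hi hbm

theorem claim2 (hcard : ∀ x k, (p F h x k).encard ≤ h k) (C : Set ℝ)
    (hC : IsClosed (X := Sp F h) C) (l r b : ℕ)
    (hunc : ∀ b', b < b' → ¬ (C ∩ Q F h l r b b').Countable) :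
    ¬ (C ∩ Qinf F h l r b).Countable := by
  obtain ⟨I, hI, hIc⟩ := exists_intervals
  have hex : ∀ n, ∃ x, x ∈ C ∩ Q F h l r b (b + n + 1) ∩ Ioo (I n).1 (I n).2 := fun n =>
    claim1 F h hcard C hC l r b (b + n + 1) (hunc _ (by omega)) _ _ (hI n)
  choose s hs using hex
  have h1 := single_limit F h C hC s (hIc s fun n => (hs n).2) (fun i => (hs i).1.1) hcard r
    (fun i => (hs i).1.2.1) 0 1 one_pos
  intro hc
  apply h1
  refine hc.mono ?_
  rintro z ⟨_, hzC, hzr, φ, hφm, hφ⟩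
  refine ⟨hzC, hzr, ?_⟩
  intro k hk m hm
  by_contra hbm
  rw [not_lt] at hbm
  rw [hφ] at hm
  have hm' : ∀ᶠ i in hyperfilter ℕ, m ∈ p F h (s (φ i)) k := hm
  have h2 : ∀ᶠ i in hyperfilter ℕ, m < i := by
    have e : ∀ᶠ i in (cofinite : Filter ℕ), m < i := by
      rw [Nat.cofinite_eq_atTop]
      exact Filter.eventually_gt_atTop m
    exact e.filter_mono Filter.hyperfilter_le_cofinite
  obtain ⟨i, hi, hmi⟩ := (hm'.and h2).exists
  have h3 := (hs (φ i)).1.2.2 k hk m hi hbm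
  have h4 : i ≤ φ i := hφm.le_apply
  omega

theorem claim4 (hcard : ∀ x k, (p F h x k).encard ≤ h k) (C : ℕ → Set ℝ)
    (hC : ∀ j, IsClosed (X := Sp F h) (C j)) (l r : ℕ) (hl : ∀ k ≥ l, (r + 2) * r ≤ h k)
    (hmult : ∀ x : ℝ, {j | x ∈ C j}.encard ≤ (r + 1 : ℕ)) (b : ℕ) :
    ∃ j b', b < b' ∧ (C j ∩ Q F h l r b b').Countable := by
  classical
  by_contra hcon
  push Not at hcon
  have h1 : ∀ j, ¬ (C j ∩ Qinf F h l r b).Countable := fun j =>
    claim2 F h hcard (C j) (hC j) l r b (fun b' hb' => hcon j b' hb')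
  -- pieces
  let tr : ℝ → (Fin l → Set (Fin b)) := fun x k => {m | (m : ℕ) ∈ p F h x k}
  have h2 : ∀ j, ∃ τ : Fin l → Set (Fin b), ¬ (C j ∩ {x | x ∈ Qinf F h l r b ∧ tr x = τ}).Countable := by
    intro j
    by_contra hc
    push Not at hc
    apply h1 j
    refine (Set.countable_iUnion hc).mono ?_
    intro x hx
    exact Set.mem_iUnion.2 ⟨tr x, hx.1, hx.2, rfl⟩
  choose τ hτ using h2
  obtain ⟨τ0, hτ0⟩ := Finite.exists_infinite_fiber τ
  have hinf : (τ ⁻¹' {τ0}).Infinite := Set.infinite_coe_iff.1 hτ0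
  obtain ⟨T, hT, hTc⟩ := hinf.exists_subset_card_eq (r + 2)
  obtain ⟨z, hz⟩ := common_point_finset F h C T (by omega) hC
    {x | x ∈ Qinf F h l r b ∧ tr x = τ0} r l
    (fun k => if hk : k < l then (Fin.val : Fin b → ℕ) '' (τ0 ⟨k, hk⟩) else ∅) (by
      rintro x ⟨hx, htr⟩ k hk
      simp only [dif_pos hk]
      rw [← htr]
      ext m
      constructor
      · intro hm
        exact ⟨⟨m, hx.2 k hk m hm⟩, hm, rfl⟩
      · rintro ⟨m', hm', rfl⟩
        exact hm') (fun x hx => hx.1.1) (by rw [hTc]; exact hl) hcard (by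
      intro j hj
      have e : τ j = τ0 := hT hj
      rw [← e]
      exact hτ j)
  have h3 : (T : Set ℕ).encard ≤ (r + 1 : ℕ) :=
    (Set.encard_le_encard fun j hj => hz j hj).trans (hmult z)
  rw [Set.encard_coe_eq_coe_finsetCard, hTc] at h3
  have : r + 2 ≤ r + 1 := by exact_mod_cast h3
  omega

theorem exists_gap (S : Set ℕ) (M : ℕ) (hS : S.encard ≤ (M : ℕ)) (b : ℕ → ℕ)
    (hb : StrictMono b) : ∃ e < M + 1, ∀ m ∈ S, b e ≤ m → b (e + 1) ≤ m := by
  by_contra hcon
  push Not at hcon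
  choose m hm1 hm2 hm3 using hcon
  have hinj : Function.Injective (fun e : Fin (M + 1) => m e.1 e.2) := by
    intro e e' hee
    by_contra hne
    have hne' : e.1 ≠ e'.1 := fun h => hne (Fin.ext h)
    rcases lt_or_gt_of_ne hne' with hlt | hlt
    · have h1 := hm3 e.1 e.2
      have h2 := hm2 e'.1 e'.2
      have h3 : b (e.1 + 1) ≤ b e'.1 := hb.monotone hlt
      simp only at hee
      omega
    · have h1 := hm3 e'.1 e'.2
      have h2 := hm2 e.1 e.2
      have h3 : b (e'.1 + 1) ≤ b e.1 := hb.monotone hlt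
      simp only at hee
      omega
  have h1 : (Set.range (fun e : Fin (M + 1) => m e.1 e.2)).encard ≤ (M : ℕ) := by
    refine (Set.encard_le_encard ?_).trans hS
    rintro _ ⟨e, rfl⟩
    exact hm1 e.1 e.2
  rw [← Set.image_univ, hinj.encard_image, Set.encard_univ] at h1
  simp only [ENat.card_eq_coe_fintype_card, Fintype.card_fin] at h1
  have : M + 1 ≤ M := by exact_mod_cast h1
  omega

theorem exists_slow (h1 : ∀ n, 1 ≤ h n) (hdiv : Tendsto h atTop atTop) :
    ∃ g : ℕ → ℕ, (∀ n, 1 ≤ g n) ∧ Tendsto g atTop atTop ∧ SelectsCover (Sp F h) g := by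
  classical
  have hcard := p_card F h h1
  have hl : ∀ r : ℕ, ∃ l, ∀ k ≥ l, (r + 2) * r ≤ h k := fun r =>
    Filter.eventually_atTop.1 (hdiv.eventually_ge_atTop ((r + 2) * r))
  choose l hl using hl
  -- blocks
  let E : Type := Σ r : ℕ, Fin (l r * r + 2)
  have : Infinite E := Infinite.of_injective (fun r : ℕ => (⟨r, 0⟩ : E)) (by
    intro r r' hrr
    exact congrArg Sigma.fst hrr)
  obtain ⟨ε⟩ : Nonempty (ℕ ≃ E) := nonempty_equiv_of_countable
  refine ⟨fun k => (ε k).1 + 1, fun n => Nat.le_add_left 1 _, ?_, ?_⟩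
  · rw [tendsto_atTop]
    intro b
    rw [← Nat.cofinite_eq_atTop, Filter.eventually_cofinite]
    have hfin : {e : E | e.1 < b}.Finite := by
      refine ((Finset.range b).sigma fun r => (Finset.univ : Finset (Fin (l r * r + 2)))).finite_toSet.subset ?_
      intro e he
      simp only [Finset.coe_sigma, Finset.coe_range, Finset.coe_univ]
      exact ⟨he, trivial⟩
    refine Set.Finite.of_finite_image (f := ε) (hfin.subset ?_) ε.injective.injOn
    rintro _ ⟨k, hk, rfl⟩
    have hk' : ¬ (b ≤ (ε k).1 + 1) := hk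
    show (ε k).1 < b
    omega
  · intro V hV
    let C : ℕ → ℕ → Set ℝ := fun n m => (show Set ℝ from V n m)ᶜ
    have hC : ∀ n m, IsClosed (X := Sp F h) (C n m) := fun n m => (hV.1 n m).isClosed_compl
    have hmult : ∀ (x : ℝ) n, {m | x ∈ C n m}.encard ≤ ((ε n).1 + 1 : ℕ) := fun x n => hV.2 x n
    -- index of position `e` in block `r`
    let idx : ∀ r e : ℕ, e < l r * r + 2 → ℕ := fun r e he => ε.symm ⟨r, ⟨e, he⟩⟩
    have hidx : ∀ r e he, ε (idx r e he) = ⟨r, ⟨e, he⟩⟩ := fun r e he => by simp [idx]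
    have hex : ∀ r e b : ℕ, ∃ j b', b < b' ∧ ∀ he : e < l r * r + 2,
        (C (idx r e he) j ∩ Q F h (l r) r b b').Countable := by
      intro r e b
      by_cases he : e < l r * r + 2
      · obtain ⟨j, b', hb', hc⟩ := claim4 F h hcard (C (idx r e he)) (hC _) (l r) r (hl r)
          (fun x => by
            have := hmult x (idx r e he)
            rwa [hidx] at this) b
        exact ⟨j, b', hb', fun _ => hc⟩
      · exact ⟨0, b + 1, by omega, fun h => absurd h he⟩
    choose J B hB hJ using hex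
    let b : ℕ → ℕ → ℕ := fun r e => Nat.rec 0 (fun e be => B r e be) e
    have hb : ∀ r e, b r (e + 1) = B r e (b r e) := fun r e => rfl
    have hbmono : ∀ r, StrictMono (b r) := fun r => strictMono_nat_of_lt_succ fun e => by
      rw [hb]; exact hB _ _ _
    -- the countable exceptional set
    let Y : Set ℝ := insert 0 (⋃ n, ⋃ m, ⋃ r, ⋃ b, ⋃ b', {x | x ∈ C n m ∩ Q F h (l r) r b b' ∧
      (C n m ∩ Q F h (l r) r b b').Countable})
    have hY : Y.Countable := by
      refine Set.Countable.insert _ ?_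
      refine Set.countable_iUnion fun n => Set.countable_iUnion fun m =>
        Set.countable_iUnion fun r => Set.countable_iUnion fun b =>
        Set.countable_iUnion fun b' => ?_
      by_cases hc : (C n m ∩ Q F h (l r) r b b').Countable
      · exact hc.mono fun x hx => hx.1
      · refine Set.countable_empty.mono fun x hx => absurd hx.2 hc
    obtain ⟨y, hy⟩ := hY.exists_eq_range ⟨0, Set.mem_insert _ _⟩
    have hkill : ∀ n i, ∃ m, y i ∉ C n m := by
      intro n i
      have hf : {m | y i ∈ C n m}.Finite := Set.finite_of_encard_le_coe (hmult (y i) n)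
      exact hf.exists_notMem
    choose κ hκ using hkill
    let D : E → ℕ → ℕ := fun q n => if (q.2 : ℕ) = l q.1 * q.1 + 1 then κ n q.1
      else J q.1 q.2 (b q.1 q.2)
    let d : ℕ → ℕ := fun n => D (ε n) n
    refine ⟨d, fun x => ?_⟩
    by_contra hcon
    have hx : ∀ n, (show ℝ from x) ∈ C n (d n) := by
      intro n hn
      exact hcon ⟨n, hn⟩
    clear hcon
    generalize (show ℝ from x) = x at hx
    obtain ⟨r, hr⟩ := p_bdd F h x
    obtain ⟨e, he, hgap⟩ := exists_gap {m | ∃ k < l r, m ∈ p F h x k} (l r * r)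
      (encard_union_range_le (fun k => p F h x k) r (l r) fun k _ => hr k) (b r) (hbmono r)
    have he2 : e < l r * r + 2 := by omega
    have hxQ : x ∈ Q F h (l r) r (b r e) (b r (e + 1)) :=
      ⟨hr, fun k hk m hm hbm => hgap m ⟨k, hk, hm⟩ hbm⟩
    have hd1 : d (idx r e he2) = J r e (b r e) := by
      show D (ε (idx r e he2)) (idx r e he2) = J r e (b r e)
      rw [hidx]
      simp only [D]
      rw [if_neg (by omega)]
    have hxC : x ∈ C (idx r e he2) (J r e (b r e)) := by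
      rw [← hd1]; exact hx _
    have hcount : (C (idx r e he2) (J r e (b r e)) ∩ Q F h (l r) r (b r e) (b r (e + 1))).Countable := by
      rw [hb]; exact hJ r e (b r e) he2
    have hxY : x ∈ Y := by
      refine Or.inr ?_
      exact Set.mem_iUnion.2 ⟨_, Set.mem_iUnion.2 ⟨_, Set.mem_iUnion.2 ⟨r, Set.mem_iUnion.2 ⟨_,
        Set.mem_iUnion.2 ⟨_, ⟨hxC, hxQ⟩, hcount⟩⟩⟩⟩⟩
    rw [hy] at hxY
    obtain ⟨i, rfl⟩ := hxY
    have hi : l i * i + 1 < l i * i + 2 := by omega
    have hd2 : d (idx i _ hi) = κ (idx i _ hi) i := by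
      show D (ε (idx i _ hi)) (idx i _ hi) = κ (idx i _ hi) i
      rw [hidx]
      simp only [D, if_true]
    have := hx (idx i _ hi)
    rw [hd2] at this
    exact hκ _ _ this

end Pool.Agent.Helper73.Sel
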