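import Mathlib
import Pool.Agent.Helper73.SelLimit

/-!
The space satisfies `S_1(Γ_1, Γ)`.
-/

set_option autoImplicit false

open Set Filter Topology Cardinal

namespace Pool.Agent.Helper73.Sel

variable (F : Frame) (h : ℕ → ℕ)

/-- data of a point used to cut the space into countably many pieces -/
theorem exists_pieces (hcard : ∀ x k, (p F h x k).encard ≤ h k) (l : ℕ → ℕ) :
    ∃ L : ℕ → Set ℝ, (∀ x, ∃ e, x ∈ L e) ∧ ∀ e, ∃ (r : ℕ) (u : ℕ → Set ℕ),
      (∀ x ∈ L e, ∀ k, (p F h x k).encard ≤ r) ∧ (∀ x ∈ L e, ∀ k < l r, p F h x k = u k) := by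
  classical
  have hfin : ∀ x k, (p F h x k).Finite := fun x k =>
    Set.finite_of_encard_le_coe (hcard x k)
  let r : ℝ → ℕ := fun x => Nat.find (p_bdd F h x)
  have hr : ∀ x k, (p F h x k).encard ≤ r x := fun x => Nat.find_spec (p_bdd F h x)
  let key : ℝ → ℕ × List (Finset ℕ) := fun x =>
    (r x, (List.range (l (r x))).map fun k => (hfin x k).toFinset)
  let L : ℕ → Set ℝ := fun e => {x | Encodable.encode (key x) = e}
  refine ⟨L, fun x => ⟨_, rfl⟩, ?_⟩
  intro e
  by_cases hne : (L e).Nonempty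
  · obtain ⟨x0, hx0⟩ := hne
    have hkey : ∀ x ∈ L e, key x = key x0 := by
      intro x hx
      exact Encodable.encode_injective ((show Encodable.encode (key x) = e from hx).trans
        (show Encodable.encode (key x0) = e from hx0).symm)
    refine ⟨r x0, fun k => p F h x0 k, ?_, ?_⟩
    · intro x hx k
      have : r x = r x0 := congrArg Prod.fst (hkey x hx)
      rw [← this]
      exact hr x k
    · intro x hx k hk
      have h1 : r x = r x0 := congrArg Prod.fst (hkey x hx)
      have h2 : (List.range (l (r x))).map (fun k => (hfin x k).toFinset) =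
        (List.range (l (r x0))).map (fun k => (hfin x0 k).toFinset) :=
        congrArg Prod.snd (hkey x hx)
      rw [h1, List.map_inj_left] at h2
      have h3 := h2 k (List.mem_range.2 hk)
      exact Set.Finite.toFinset_inj.1 h3
  · refine ⟨0, fun _ => ∅, fun x hx => absurd ⟨x, hx⟩ hne, fun x hx => absurd ⟨x, hx⟩ hne⟩

theorem selectsGammaCover (h1 : ∀ n, 1 ≤ h n) (hdiv : Tendsto h atTop atTop) (N : ℕ) :
    SelectsGammaCover (Sp F h) (fun _ => N) := by
  classical
  have hcard := p_card F h h1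
  have hl : ∀ r : ℕ, ∃ l, ∀ k ≥ l, (N + 1) * r ≤ h k := fun r =>
    Filter.eventually_atTop.1 (hdiv.eventually_ge_atTop ((N + 1) * r))
  choose l hl using hl
  obtain ⟨L, hcov, hL⟩ := exists_pieces F h hcard l
  intro V hV
  let C : ℕ → ℕ → Set ℝ := fun n m => (show Set ℝ from V n m)ᶜ
  have hC : ∀ n m, IsClosed (X := Sp F h) (C n m) := fun n m => (hV.1 n m).isClosed_compl
  have hmult : ∀ (x : ℝ) n, {m | x ∈ C n m}.encard ≤ N := fun x n => hV.2 x n
  have hbad : ∀ n e, {m | ¬ (C n m ∩ L e).Countable}.encard ≤ N := by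
    intro n e
    by_contra hcon
    rw [not_le] at hcon
    have h2 : ((N + 1 : ℕ) : ℕ∞) ≤ {m | ¬ (C n m ∩ L e).Countable}.encard := by
      push_cast
      exact Order.add_one_le_of_lt hcon
    obtain ⟨T, hT, hTc⟩ := Set.exists_subset_encard_eq h2
    have hfin : T.Finite := Set.finite_of_encard_eq_coe hTc
    obtain ⟨r, u, hr, hu⟩ := hL e
    have hcardT : hfin.toFinset.card = N + 1 := by
      rw [Set.Finite.encard_eq_coe_toFinset_card hfin] at hTc
      exact_mod_cast hTc
    let f : Fin (N + 1) ≃ hfin.toFinset := (hfin.toFinset.equivFinOfCardEq hcardT).symm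
    let g : ℕ → ℕ := fun j => if hj : j < N + 1 then (f ⟨j, hj⟩ : ℕ) else 0
    have hg : ∀ j < N + 1, g j ∈ T := by
      intro j hj
      simp only [g, dif_pos hj]
      exact hfin.mem_toFinset.1 (f ⟨j, hj⟩).2
    obtain ⟨z, hz⟩ := common_point F h (fun j => C n (g j)) (N + 1) (by omega)
      (fun j _ => hC n (g j)) (L e) r (l r) u hu hr (hl r) hcard
      (fun j hj => hT (hg j hj))
    have h3 : T.encard ≤ N := by
      refine le_trans (Set.encard_le_encard ?_) (hmult z n)
      intro m hm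
      obtain ⟨j, hj⟩ := f.surjective ⟨m, hfin.mem_toFinset.2 hm⟩
      have := hz j.1 j.2
      simp only [g, dif_pos j.2, hj] at this
      exact this
    rw [hTc] at h3
    have : N + 1 ≤ N := by exact_mod_cast h3
    omega
  -- the countable exceptional set
  let Y : Set ℝ := insert 0 (⋃ n, ⋃ m, ⋃ e, {x | x ∈ C n m ∩ L e ∧ (C n m ∩ L e).Countable})
  have hY : Y.Countable := by
    refine Set.Countable.insert _ ?_
    refine Set.countable_iUnion fun n => Set.countable_iUnion fun m => Set.countable_iUnion fun e => ?_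
    by_cases hc : (C n m ∩ L e).Countable
    · exact hc.mono fun x hx => hx.1
    · refine Set.countable_empty.mono fun x hx => absurd hx.2 hc
  obtain ⟨y, hy⟩ := hY.exists_eq_range ⟨0, Set.mem_insert _ _⟩
  have hch : ∀ n, ∃ m, (∀ e < n, (C n m ∩ L e).Countable) ∧ ∀ i < n, y i ∉ C n m := by
    intro n
    have hf : ((⋃ e ∈ Set.Iio n, {m | ¬ (C n m ∩ L e).Countable}) ∪
        (⋃ i ∈ Set.Iio n, {m | y i ∈ C n m})).Finite := by
      refine Set.Finite.union ?_ ?_
      · exact (Set.finite_Iio n).biUnion fun e _ => Set.finite_of_encard_le_coe (hbad n e)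
      · exact (Set.finite_Iio n).biUnion fun i _ => Set.finite_of_encard_le_coe (hmult (y i) n)
    obtain ⟨m, hm⟩ := hf.exists_notMem
    refine ⟨m, fun e he => ?_, fun i hi hmi => ?_⟩
    · by_contra hcon
      exact hm (Or.inl (Set.mem_iUnion₂.2 ⟨e, he, hcon⟩))
    · exact hm (Or.inr (Set.mem_iUnion₂.2 ⟨i, hi, hmi⟩))
  choose d hd1 hd2 using hch
  refine ⟨d, fun x => ?_⟩
  have key : ∀ x : ℝ, ∀ᶠ n in atTop, x ∉ C n (d n) := by
    intro x
    by_cases hxY : x ∈ Y
    · rw [hy] at hxY
      obtain ⟨i, rfl⟩ := hxY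
      filter_upwards [Filter.eventually_gt_atTop i] with n hn
      exact hd2 n i hn
    · obtain ⟨e, he⟩ := hcov x
      filter_upwards [Filter.eventually_gt_atTop e] with n hn hx
      refine hxY (Or.inr ?_)
      exact Set.mem_iUnion.2 ⟨n, Set.mem_iUnion.2 ⟨d n, Set.mem_iUnion.2 ⟨e, ⟨hx, he⟩,
        hd1 n e hn⟩⟩⟩
  filter_upwards [key x] with n hn
  by_contra hcon
  exact hn hcon

end Pool.Agent.Helper73.Sel
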