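import Mathlib
import Pool.Agent.Helper73.SelDefs
import Pool.Agent.Helper73.SelQ1
import Pool.Agent.Helper73.SelQ2

/-!
Main theorems for problem MP_74c39b_lc.
-/

set_option autoImplicit false

open Set Filter Topology

namespace Pool.Agent.Helper73.Sel

theorem q1_main (h : ℕ → ℕ) (h1 : ∀ n, 1 ≤ h n) (hdiv : Tendsto h atTop atTop) :
    ∃ g : ℕ → ℕ, (∀ n, 1 ≤ g n) ∧ Tendsto g atTop atTop ∧
      ∃ (X : Type) (_ : TopologicalSpace X), T2Space X ∧ SelectsCover X g ∧ ¬ SelectsCover X h := by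
  obtain ⟨F⟩ := exists_frame
  obtain ⟨g, hg1, hg2, hg3⟩ := exists_slow F h h1 hdiv
  exact ⟨g, hg1, hg2, Sp F h, inferInstance, t2 F h, hg3, not_selectsCover F h h1⟩

theorem q2_main (h : ℕ → ℕ) (hunb : ∀ b, ∃ n, b ≤ h n) :
    ∃ (X : Type) (_ : TopologicalSpace X), T2Space X ∧
      (∀ N : ℕ, SelectsGammaCover X (fun _ => N)) ∧ ¬ SelectsGammaCover X h := by
  classical
  -- a subsequence along which `h` diverges
  have hex : ∀ b c : ℕ, ∃ n, c < n ∧ b ≤ h n := by
    intro b c
    obtain ⟨n, hn⟩ := hunb (b + (∑ i ∈ Finset.range (c + 1), h i) + 1)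
    refine ⟨n, ?_, by omega⟩
    by_contra hcn
    have : h n ≤ ∑ i ∈ Finset.range (c + 1), h i :=
      Finset.single_le_sum (fun i _ => Nat.zero_le (h i)) (Finset.mem_range.2 (by omega))
    omega
  choose nx hnx1 hnx2 using hex
  obtain ⟨n, hmono, hge⟩ : ∃ n : ℕ → ℕ, StrictMono n ∧ ∀ k, k + 1 ≤ h (n k) := by
    let n : ℕ → ℕ := fun k => Nat.rec (nx 1 0) (fun k m => nx (k + 2) m) k
    have hn1 : ∀ k, n (k + 1) = nx (k + 2) (n k) := fun k => rfl
    refine ⟨n, strictMono_nat_of_lt_succ fun k => by rw [hn1]; exact hnx1 _ _, ?_⟩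
    intro k
    cases k with
    | zero => exact hnx2 1 0
    | succ k => rw [hn1]; exact hnx2 _ _
  obtain ⟨F⟩ := exists_frame
  let h' : ℕ → ℕ := fun k => h (n k)
  have h1' : ∀ k, 1 ≤ h' k := fun k => le_trans (by omega) (hge k)
  have hdiv' : Tendsto h' atTop atTop :=
    tendsto_atTop_mono (fun k => hge k) (tendsto_add_atTop_nat 1)
  refine ⟨Sp F h', inferInstance, t2 F h', selectsGammaCover F h' h1' hdiv', ?_⟩
  intro hS
  apply not_selectsCover F h' h1'
  intro V hV
  -- spread the input over the subsequence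
  let V' : ℕ → ℕ → Set (Sp F h') := fun i m =>
    if hi : ∃ k : ℕ, n k = i then V (Classical.choose hi) m else Set.univ
  obtain ⟨d, hd⟩ := hS V' ⟨by
    intro i m
    by_cases hi : ∃ k, n k = i
    · simp only [V', dif_pos hi]
      exact hV.1 _ _
    · simp only [V', dif_neg hi]
      exact isOpen_univ, by
    intro x i
    by_cases hi : ∃ k, n k = i
    · simp only [V', dif_pos hi]
      have e := Classical.choose_spec hi
      refine (hV.2 x (Classical.choose hi)).trans ?_
      simp only [h', e, le_refl]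
    · simp only [V', dif_neg hi]
      simp⟩
  refine ⟨fun k => d (n k), fun x => ?_⟩
  obtain ⟨i0, hi0⟩ := Filter.eventually_atTop.1 (hd x)
  refine ⟨i0, ?_⟩
  have h2 := hi0 (n i0) hmono.le_apply
  have hi : ∃ k, n k = n i0 := ⟨i0, rfl⟩
  simp only [V', dif_pos hi] at h2
  rwa [hmono.injective (Classical.choose_spec hi)] at h2

end Pool.Agent.Helper73.Sel
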