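import Mathlib

/-!
Under the continuum hypothesis: a Sierpinski set whose algebraic sum with itself is the complement
of a given countable set.
-/

set_option autoImplicit false

open Set Filter MeasureTheory Topology Cardinal

namespace Pool.Agent.Helper73.Tau

theorem mk_null_le : #{s : Set ℝ // MeasurableSet s ∧ volume s = 0} ≤ 𝔠 := by
  have h1 : #{t : Set ℝ | MeasurableSet t} ≤ 𝔠 := by
    have e : (inferInstance : MeasurableSpace ℝ) = MeasurableSpace.generateFrom (Set.range Set.Iio) := by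
      rw [← borel_eq_generateFrom_Iio ℝ]
      exact BorelSpace.measurable_eq
    have h2 := MeasurableSpace.cardinal_measurableSet_le_continuum
      (s := Set.range (Set.Iio : ℝ → Set ℝ)) (by
        refine Cardinal.mk_range_le.trans ?_
        rw [Cardinal.mk_real])
    rw [← e] at h2
    exact h2
  refine le_trans ?_ h1
  refine Cardinal.mk_le_of_injective
    (f := fun s : {s : Set ℝ // MeasurableSet s ∧ volume s = 0} =>
      (⟨s.1, s.2.1⟩ : {t : Set ℝ | MeasurableSet t})) ?_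
  intro a b hab
  exact Subtype.ext (by simpa using hab)

theorem exists_surj {I T : Type} [Nonempty T] (h : #T ≤ #I) : ∃ f : I → T, Function.Surjective f := by
  obtain ⟨g⟩ := h
  exact ⟨Function.invFun g, Function.invFun_surjective g.injective⟩

theorem exists_avoid (D A : Set ℝ) (hD : D.Countable) (hA : A.Countable) (𝒩 : Set (Set ℝ))
    (h𝒩 : 𝒩.Countable) (hnull : ∀ N ∈ 𝒩, volume N = 0) (r : ℝ) :
    ∃ x : ℝ, (∀ N ∈ 𝒩, x ∉ N ∧ r - x ∉ N) ∧ (∀ a ∈ A, x + a ∉ D ∧ r - x + a ∉ D) ∧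
      x + x ∉ D ∧ (r - x) + (r - x) ∉ D := by
  by_contra hcon
  push Not at hcon
  let B1 : Set ℝ := ⋃ N ∈ 𝒩, (N ∪ (fun x => r - x) ⁻¹' N)
  let B2 : Set ℝ := ⋃ a ∈ A, ⋃ d ∈ D, ({d - a, r + a - d} : Set ℝ)
  let B3 : Set ℝ := ⋃ d ∈ D, ({d / 2, r - d / 2} : Set ℝ)
  have h1 : volume B1 = 0 := by
    rw [measure_biUnion_null_iff h𝒩]
    intro N hN
    rw [measure_union_null_iff]
    refine ⟨hnull N hN, ?_⟩
    exact (Measure.measurePreserving_sub_left volume r).quasiMeasurePreserving.preimage_null (hnull N hN)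
  have h2 : volume B2 = 0 := by
    refine Set.Countable.measure_zero ?_ _
    exact hA.biUnion fun a _ => hD.biUnion fun d _ => (Set.toFinite _).countable
  have h3 : volume B3 = 0 := by
    refine Set.Countable.measure_zero ?_ _
    exact hD.biUnion fun d _ => (Set.toFinite _).countable
  have h4 : (Set.univ : Set ℝ) ⊆ B1 ∪ B2 ∪ B3 := by
    intro x _
    by_contra hx
    simp only [Set.mem_union, not_or] at hx
    obtain ⟨⟨hx1, hx2⟩, hx3⟩ := hx
    have e1 : ∀ N ∈ 𝒩, x ∉ N ∧ r - x ∉ N := by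
      intro N hN
      refine ⟨fun h => hx1 (Set.mem_iUnion₂.2 ⟨N, hN, Or.inl h⟩), fun h => hx1
        (Set.mem_iUnion₂.2 ⟨N, hN, Or.inr h⟩)⟩
    have e2 : ∀ a ∈ A, x + a ∉ D ∧ r - x + a ∉ D := by
      intro a ha
      refine ⟨fun h => hx2 ?_, fun h => hx2 ?_⟩
      · exact Set.mem_iUnion₂.2 ⟨a, ha, Set.mem_iUnion₂.2 ⟨_, h, Or.inl (by ring)⟩⟩
      · refine Set.mem_iUnion₂.2 ⟨a, ha, Set.mem_iUnion₂.2 ⟨_, h, Or.inr ?_⟩⟩
        rw [Set.mem_singleton_iff]
        ring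
    have e3 : x + x ∉ D := fun h => hx3 (Set.mem_iUnion₂.2 ⟨_, h, Or.inl (by ring)⟩)
    refine hx3 (Set.mem_iUnion₂.2 ⟨_, hcon x e1 e2 e3, Or.inr ?_⟩)
    rw [Set.mem_singleton_iff]
    ring
  have h5 : volume (Set.univ : Set ℝ) = 0 :=
    measure_mono_null h4 (measure_union_null (measure_union_null h1 h2) h3)
  simp at h5

theorem exists_sierpinski (CH : (ℵ₁ : Cardinal.{0}) = 𝔠) (D : Set ℝ) (hD : D.Countable) :
    ∃ S : Set ℝ, (∀ N : Set ℝ, volume N = 0 → (S ∩ N).Countable) ∧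
      (∀ x ∈ S, ∀ y ∈ S, x + y ∉ D) ∧ ∀ r, r ∉ D → ∃ x ∈ S, ∃ y ∈ S, x + y = r := by
  classical
  let I : Type := (𝔠 : Cardinal.{0}).out
  have hI : #I = 𝔠 := Cardinal.mk_out _
  obtain ⟨lo, wf, hord⟩ := Cardinal.exists_ord_eq_type_lt I
  have hIio : ∀ i : I, (Set.Iio i).Countable := by
    intro i
    rw [← Cardinal.le_aleph0_iff_set_countable]
    have h1 := Cardinal.mk_Iio_lt i hord
    rw [hI] at h1
    have h2 : #(Set.Iio i) < ℵ₁ := lt_of_lt_of_eq h1 CH.symm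
    exact Order.lt_succ_iff.1 (lt_of_lt_of_eq h2 Cardinal.succ_aleph0.symm)
  have hIic : ∀ i : I, (Set.Iic i).Countable := by
    intro i
    have : Set.Iic i = Set.Iio i ∪ {i} := by
      ext x; simp [le_iff_lt_or_eq]
    rw [this]
    exact (hIio i).union (Set.countable_singleton i)
  -- enumerations
  obtain ⟨r0, hr0⟩ : ∃ r, r ∉ D := by
    by_contra hcon
    push Not at hcon
    exact Cardinal.not_countable_real (hD.mono fun x _ => hcon x)
  have : Nonempty {r : ℝ // r ∉ D} := ⟨⟨r0, hr0⟩⟩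
  have : Nonempty {s : Set ℝ // MeasurableSet s ∧ volume s = 0} :=
    ⟨⟨∅, MeasurableSet.empty, measure_empty⟩⟩
  obtain ⟨ρ, hρ⟩ : ∃ ρ : I → {r : ℝ // r ∉ D}, Function.Surjective ρ := by
    apply exists_surj
    rw [hI, ← Cardinal.mk_real]
    exact Cardinal.mk_subtype_le _
  obtain ⟨ν, hν⟩ : ∃ ν : I → {s : Set ℝ // MeasurableSet s ∧ volume s = 0},
      Function.Surjective ν := by
    apply exists_surj
    rw [hI]
    exact mk_null_le
  -- recursion
  have hstep : ∀ (i : I) (ih : ∀ j, j < i → ℝ), ∃ x : ℝ,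
      (∀ j ≤ i, x ∉ (ν j).1 ∧ (ρ i : ℝ) - x ∉ (ν j).1) ∧
      (∀ j (hj : j < i), (x + ih j hj ∉ D ∧ (ρ i : ℝ) - x + ih j hj ∉ D) ∧
        (x + (ρ j - ih j hj) ∉ D ∧ (ρ i : ℝ) - x + (ρ j - ih j hj) ∉ D)) ∧
      x + x ∉ D ∧ ((ρ i : ℝ) - x) + ((ρ i : ℝ) - x) ∉ D := by
    intro i ih
    have : Countable (Set.Iio i) := (hIio i).to_subtype
    obtain ⟨x, h1, h2, h3, h4⟩ := exists_avoid D
      ((Set.range fun j : Set.Iio i => ih j.1 j.2) ∪
        (Set.range fun j : Set.Iio i => ((ρ j : ℝ) - ih j.1 j.2))) hD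
      ((Set.countable_range _).union (Set.countable_range _))
      ((fun j => (ν j).1) '' Set.Iic i) ((hIic i).image _)
      (by rintro _ ⟨j, _, rfl⟩; exact (ν j).2.2) (ρ i)
    refine ⟨x, fun j hj => h1 _ ⟨j, hj, rfl⟩, fun j hj => ⟨?_, ?_⟩, h3, h4⟩
    · exact h2 _ (Or.inl ⟨⟨j, hj⟩, rfl⟩)
    · exact h2 _ (Or.inr ⟨⟨j, hj⟩, rfl⟩)
  let x : I → ℝ := wf.wf.fix (fun i ih => Classical.choose (hstep i ih))
  have hx : ∀ i, x i = Classical.choose (hstep i (fun j _ => x j)) := fun i => wf.wf.fix_eq _ i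
  have hspec := fun i => Classical.choose_spec (hstep i (fun j _ => x j))
  simp only [← hx] at hspec
  let S : Set ℝ := Set.range x ∪ Set.range fun i => ((ρ i : ℝ) - x i)
  refine ⟨S, ?_, ?_, ?_⟩
  · intro N hN
    obtain ⟨k, hk⟩ := hν ⟨toMeasurable volume N, measurableSet_toMeasurable _ _, by
      rw [measure_toMeasurable, hN]⟩
    have hNk : N ⊆ (ν k).1 := by rw [hk]; exact subset_toMeasurable _ _
    refine (((hIio k).image x).union ((hIio k).image fun i => ((ρ i : ℝ) - x i))).mono ?_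
    rintro y ⟨⟨i, rfl⟩ | ⟨i, rfl⟩, hyN⟩
    · refine Or.inl ⟨i, ?_, rfl⟩
      by_contra hik
      exact ((hspec i).1 k (not_lt.1 hik)).1 (hNk hyN)
    · refine Or.inr ⟨i, ?_, rfl⟩
      by_contra hik
      exact ((hspec i).1 k (not_lt.1 hik)).2 (hNk hyN)
  · -- sums avoid D
    have hρD : ∀ i, (ρ i : ℝ) ∉ D := fun i => (ρ i).2
    have h1 : ∀ i j, x i + x j ∉ D := by
      intro i j
      rcases lt_trichotomy i j with h | rfl | h
      · rw [add_comm]; exact ((hspec j).2.1 i h).1.1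
      · exact (hspec i).2.2.1
      · exact ((hspec i).2.1 j h).1.1
    have h2 : ∀ i j, x i + ((ρ j : ℝ) - x j) ∉ D := by
      intro i j
      rcases lt_trichotomy i j with h | rfl | h
      · rw [add_comm]; exact ((hspec j).2.1 i h).1.2
      · have : x i + ((ρ i : ℝ) - x i) = ρ i := by ring
        rw [this]; exact hρD i
      · exact ((hspec i).2.1 j h).2.1
    have h3 : ∀ i j, ((ρ i : ℝ) - x i) + ((ρ j : ℝ) - x j) ∉ D := by
      intro i j
      rcases lt_trichotomy i j with h | rfl | h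
      · rw [add_comm]; exact ((hspec j).2.1 i h).2.2
      · exact (hspec i).2.2.2
      · exact ((hspec i).2.1 j h).2.2
    rintro _ (⟨i, rfl⟩ | ⟨i, rfl⟩) _ (⟨j, rfl⟩ | ⟨j, rfl⟩)
    · exact h1 i j
    · exact h2 i j
    · rw [add_comm]; exact h2 j i
    · exact h3 i j
  · intro r hr
    obtain ⟨i, hi⟩ := hρ ⟨r, hr⟩
    refine ⟨x i, Or.inl ⟨i, rfl⟩, (ρ i : ℝ) - x i, Or.inr ⟨i, rfl⟩, ?_⟩
    rw [hi]
    ring

end Pool.Agent.Helper73.Tau
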