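import Mathlib

/-!
Definitions for problem MP_24a1d9_gt: open covers, `ω`-, `τ`- and `γ`-covers and the selection
principles `S_1(𝔘, 𝔙)`, `S_fin(𝔘, 𝔙)`, for an arbitrary topological space.
-/

set_option autoImplicit false

open Set

namespace Pool.Agent.Helper73.Tau

variable (X : Type*) [TopologicalSpace X]

/-- An (open) cover of `X`: a family of open sets whose union is `X` and which does not contain
`X` itself. -/
def IsCover (U : Set (Set X)) : Prop :=
  (∀ u ∈ U, IsOpen u) ∧ ⋃₀ U = Set.univ ∧ Set.univ ∉ U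

/-- `Ω`: the open `ω`-covers, i.e. every finite subset of `X` is contained in some member. -/
def Omega : Set (Set (Set X)) :=
  {U | IsCover X U ∧ ∀ F : Set X, F.Finite → ∃ u ∈ U, F ⊆ u}

/-- `T`: the open `τ`-covers, i.e. large covers (every point lies in infinitely many members) such
that for all `x, y` at least one of `{u ∈ U : x ∈ u, y ∉ u}`, `{u ∈ U : y ∈ u, x ∉ u}` is finite. -/
def Tau : Set (Set (Set X)) :=
  {U | IsCover X U ∧ (∀ x : X, {u ∈ U | x ∈ u}.Infinite) ∧
    ∀ x y : X, {u ∈ U | x ∈ u ∧ y ∉ u}.Finite ∨ {u ∈ U | y ∈ u ∧ x ∉ u}.Finite}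

/-- `Γ`: the open `γ`-covers, i.e. infinite covers such that every point belongs to all but
finitely many members. -/
def Gamma : Set (Set (Set X)) :=
  {U | IsCover X U ∧ U.Infinite ∧ ∀ x : X, {u ∈ U | x ∉ u}.Finite}

variable {X}

/-- `S_1(𝔘, 𝔙)`: for every sequence of members of `𝔘` one can choose one element from each so that
the set of the chosen elements is a member of `𝔙`. -/
def S1 (A B : Set (Set (Set X))) : Prop :=
  ∀ U : ℕ → Set (Set X), (∀ n, U n ∈ A) →
    ∃ u : ℕ → Set X, (∀ n, u n ∈ U n) ∧ Set.range u ∈ B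

/-- `S_fin(𝔘, 𝔙)`: for every sequence of members of `𝔘` one can choose a finite subset of each so
that the union of the chosen finite sets is a member of `𝔙`. -/
def Sfin (A B : Set (Set (Set X))) : Prop :=
  ∀ U : ℕ → Set (Set X), (∀ n, U n ∈ A) →
    ∃ F : ℕ → Set (Set X), (∀ n, (F n).Finite ∧ F n ⊆ U n) ∧ (⋃ n, F n) ∈ B

end Pool.Agent.Helper73.Tau
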