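import Mathlib
import Pool.Agent.Helper73.TauDefs

/-!
Sierpinski sets satisfy `S_1(T, Γ)`.
-/

set_option autoImplicit false

open Set Filter MeasureTheory Topology

namespace Pool.Agent.Helper73.Tau

/-- `x_𝒰 ⊆* y_𝒰` for the sequence of sets `U`. -/
def rel (U : ℕ → Set ℝ) (x y : ℝ) : Prop := ∀ᶠ n in atTop, x ∈ U n → y ∈ U n

theorem rel_refl (U : ℕ → Set ℝ) (x : ℝ) : rel U x x := Eventually.of_forall fun _ h => h

theorem rel_trans {U : ℕ → Set ℝ} {x y z : ℝ} (h1 : rel U x y) (h2 : rel U y z) : rel U x z := by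
  filter_upwards [h1, h2] with n a b c
  exact b (a c)

theorem measurableSet_rel {U : ℕ → Set ℝ} (hU : ∀ n, MeasurableSet (U n)) :
    MeasurableSet {p : ℝ × ℝ | rel U p.1 p.2} := by
  have e : {p : ℝ × ℝ | rel U p.1 p.2} = ⋃ k : ℕ, ⋂ n : ℕ, ⋂ _ : k ≤ n,
      ((Prod.fst ⁻¹' (U n))ᶜ ∪ Prod.snd ⁻¹' (U n)) := by
    ext p
    simp only [rel, eventually_atTop, Set.mem_iUnion, Set.mem_iInter, Set.mem_union,
      Set.mem_compl_iff, Set.mem_preimage]
    constructor
    · rintro ⟨k, hk⟩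
      refine ⟨k, fun n hn => ?_⟩
      by_cases h : p.1 ∈ U n
      · exact Or.inr (hk n hn h)
      · exact Or.inl h
    · rintro ⟨k, hk⟩
      refine ⟨k, fun n hn h => ?_⟩
      rcases hk n hn with h' | h'
      · exact absurd h h'
      · exact h'
  rw [e]
  refine MeasurableSet.iUnion fun k => MeasurableSet.iInter fun n => MeasurableSet.iInter fun _ => ?_
  exact (measurable_fst (hU n)).compl.union (measurable_snd (hU n))

/-- a countable coinitial subset -/
theorem exists_coinitial (μ : Measure ℝ) [IsFiniteMeasure μ] (X : Set ℝ)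
    (hX : ∀ N : Set ℝ, μ N = 0 → (X ∩ N).Countable) (U : ℕ → Set ℝ)
    (hU : ∀ n, MeasurableSet (U n)) (htot : ∀ x ∈ X, ∀ y ∈ X, rel U x y ∨ rel U y x) :
    ∃ C : Set ℝ, C.Countable ∧ C ⊆ X ∧ ∀ y ∈ X, ∃ x ∈ C, rel U x y := by
  classical
  rcases X.eq_empty_or_nonempty with rfl | ⟨x₀, hx₀⟩
  · exact ⟨∅, Set.countable_empty, Set.Subset.rfl, fun y hy => absurd hy (Set.notMem_empty y)⟩
  have hmeas := measurableSet_rel hU
  have hup : ∀ x, MeasurableSet {y | rel U x y} := fun x => measurable_prodMk_left hmeas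
  let f : X → ENNReal := fun x => μ (X ∩ {y | rel U x y})
  -- a maximising sequence
  obtain ⟨x, hx⟩ : ∃ x : ℕ → X, ⨆ n, f (x n) = ⨆ z, f z := by
    have : Nonempty X := ⟨⟨x₀, hx₀⟩⟩
    obtain ⟨u, _, hu, hur⟩ := exists_seq_tendsto_sSup (S := Set.range f) (Set.range_nonempty f)
      (OrderTop.bddAbove _)
    choose x hx using hur
    refine ⟨x, le_antisymm (iSup_le fun n => le_iSup f (x n)) ?_⟩
    rw [← sSup_range]
    refine le_of_tendsto hu (Eventually.of_forall fun n => ?_)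
    rw [← hx n]
    exact le_iSup (fun n => f (x n)) n
  let E : Set ℝ := ⋃ n, {y | rel U (x n) y}
  have hE : MeasurableSet E := MeasurableSet.iUnion fun n => hup _
  have hsup : ⨆ z, f z ≤ μ (X ∩ E) := by
    rw [← hx]
    refine iSup_le fun n => measure_mono ?_
    exact Set.inter_subset_inter_right X (Set.subset_iUnion (fun n => {y | rel U (x n) y}) n)
  -- points outside E
  have hout : ∀ z ∈ X, z ∉ E → μ (X ∩ ({y | rel U z y} \ E)) = 0 := by
    intro z hz hzE
    have h1 : E ⊆ {y | rel U z y} := by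
      intro y hy
      obtain ⟨n, hn⟩ := Set.mem_iUnion.1 hy
      have h2 : rel U z (x n) := by
        rcases htot z hz (x n) (x n).2 with h | h
        · exact h
        · exact absurd (Set.mem_iUnion.2 ⟨n, h⟩) hzE
      exact rel_trans h2 hn
    have h3 : μ (X ∩ {y | rel U z y}) = μ (X ∩ E) + μ (X ∩ ({y | rel U z y} \ E)) := by
      have := measure_inter_add_sdiff (μ := μ) (X ∩ {y | rel U z y}) hE
      rw [← this]
      congr 2
      · ext y
        constructor
        · rintro ⟨⟨a, _⟩, c⟩; exact ⟨a, c⟩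
        · rintro ⟨a, c⟩; exact ⟨⟨a, h1 c⟩, c⟩
      · ext y
        constructor
        · rintro ⟨⟨a, b⟩, c⟩; exact ⟨a, b, c⟩
        · rintro ⟨a, b, c⟩; exact ⟨⟨a, b⟩, c⟩
    have h4 : μ (X ∩ {y | rel U z y}) ≤ μ (X ∩ E) := (le_iSup f ⟨z, hz⟩).trans hsup
    rw [h3] at h4
    have h5 : μ (X ∩ E) ≠ ⊤ := measure_ne_top _ _
    by_contra hne
    exact absurd h4 (not_le.2 (ENNReal.lt_add_right h5 hne))
  -- X \ E is countable
  have hcount : (X \ E).Countable := by
    by_contra hunc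
    let B := toMeasurable μ X
    have hB : MeasurableSet B := measurableSet_toMeasurable μ X
    have hXB : X ⊆ B := subset_toMeasurable μ X
    let ν := μ.restrict B
    have hν : ∀ M, MeasurableSet M → ν M = μ (X ∩ M) := by
      intro M hM
      rw [Measure.restrict_apply hM, Set.inter_comm, ← Measure.measure_toMeasurable_inter_of_sFinite hM X]
    have hνX : ∀ N : Set ℝ, ν N = 0 → (X ∩ N).Countable := by
      intro N hN
      have h1 : μ (toMeasurable ν N ∩ B) = 0 := by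
        have h2 : ν (toMeasurable ν N) = 0 := by rw [measure_toMeasurable, hN]
        rwa [Measure.restrict_apply (measurableSet_toMeasurable ν N)] at h2
      refine (hX _ h1).mono ?_
      rintro y ⟨hy, hyN⟩
      exact ⟨hy, subset_toMeasurable ν N hyN, hXB hy⟩
    let R : Set (ℝ × ℝ) := {p | rel U p.1 p.2 ∧ p.1 ∉ E ∧ p.2 ∉ E}
    have hR : MeasurableSet R :=
      hmeas.inter ((measurable_fst hE.compl).inter (measurable_snd hE.compl))
    have hsec : ∀ z ∈ X, ν (Prod.mk z ⁻¹' R) = 0 := by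
      intro z hz
      by_cases hzE : z ∈ E
      · have : Prod.mk z ⁻¹' R = ∅ := by
          rw [Set.eq_empty_iff_forall_notMem]
          intro y hy
          exact hy.2.1 hzE
        rw [this, measure_empty]
      · rw [hν _ (measurable_prodMk_left hR)]
        refine measure_mono_null ?_ (hout z hz hzE)
        rintro y ⟨a, b, _, c⟩
        exact ⟨a, b, c⟩
    have hae : ∀ᵐ z ∂ν, ν (Prod.mk z ⁻¹' R) = 0 := by
      have hms : MeasurableSet {z | ν (Prod.mk z ⁻¹' R) = 0} :=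
        (measurable_measure_prodMk_left hR) (measurableSet_singleton 0)
      rw [ae_iff]
      have : ν {z | ν (Prod.mk z ⁻¹' R) = 0}ᶜ = 0 := by
        rw [hν _ hms.compl]
        have : X ∩ {z | ν (Prod.mk z ⁻¹' R) = 0}ᶜ = ∅ := by
          rw [Set.eq_empty_iff_forall_notMem]
          rintro z ⟨hz, hz2⟩
          exact hz2 (hsec z hz)
        rw [this, measure_empty]
      exact this
    have hprod : (ν.prod ν) R = 0 := by
      rw [Measure.prod_apply hR]
      exact lintegral_eq_zero_of_ae_eq_zero hae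
    have hprod2 : ∀ᵐ y ∂ν, ν ((fun z => (z, y)) ⁻¹' R) = 0 := by
      rw [Measure.prod_apply_symm hR, lintegral_eq_zero_iff (measurable_measure_prodMk_right hR)]
        at hprod
      exact hprod
    have hbad : (X ∩ {y | ¬ ν ((fun z => (z, y)) ⁻¹' R) = 0}).Countable := hνX _ (ae_iff.1 hprod2)
    obtain ⟨y, hyZ, hyG⟩ : ∃ y ∈ X \ E, ν ((fun z => (z, y)) ⁻¹' R) = 0 := by
      by_contra hcon
      push Not at hcon
      refine hunc (hbad.mono ?_)
      intro y hy
      exact ⟨hy.1, hcon y hy⟩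
    have c1 : (X ∩ (fun z => (z, y)) ⁻¹' R).Countable := hνX _ hyG
    have c2 : (X ∩ Prod.mk y ⁻¹' R).Countable := hνX _ (hsec y hyZ.1)
    refine hunc ((c1.union c2).mono ?_)
    intro z hz
    rcases htot z hz.1 y hyZ.1 with h | h
    · exact Or.inl ⟨hz.1, h, hz.2, hyZ.2⟩
    · exact Or.inr ⟨hz.1, h, hyZ.2, hz.2⟩
  refine ⟨Set.range (fun n => (x n : ℝ)) ∪ (X \ E), (Set.countable_range _).union hcount, ?_, ?_⟩
  · rintro y (⟨n, rfl⟩ | hy)
    · exact (x n).2
    · exact hy.1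
  · intro y hy
    by_cases hyE : y ∈ E
    · obtain ⟨n, hn⟩ := Set.mem_iUnion.1 hyE
      exact ⟨x n, Or.inl ⟨n, rfl⟩, hn⟩
    · exact ⟨y, Or.inr ⟨hy, hyE⟩, rel_refl U y⟩

/-- finite subsets of a totally ordered family have a least element -/
theorem exists_least {U : ℕ → Set ℝ} (c : ℕ → ℝ)
    (htot : ∀ i j, rel U (c i) (c j) ∨ rel U (c j) (c i)) (n : ℕ) :
    ∃ i, ∀ j ≤ n, rel U (c i) (c j) := by
  induction n with
  | zero => exact ⟨0, fun j hj => by rw [Nat.le_zero.1 hj]; exact rel_refl U _⟩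
  | succ n ih =>
    obtain ⟨i, hi⟩ := ih
    rcases htot i (n + 1) with h | h
    · refine ⟨i, fun j hj => ?_⟩
      rcases Nat.le_succ_iff.1 hj with h' | rfl
      · exact hi j h'
      · exact h
    · refine ⟨n + 1, fun j hj => ?_⟩
      rcases Nat.le_succ_iff.1 hj with h' | rfl
      · exact rel_trans h (hi j h')
      · exact rel_refl U _

/-- a pseudo-intersection of a countable totally ordered family of infinite sets -/
theorem exists_pseudo {U : ℕ → Set ℝ} (c : ℕ → ℝ)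
    (htot : ∀ i j, rel U (c i) (c j) ∨ rel U (c j) (c i))
    (hinf : ∀ i, {n | c i ∈ U n}.Infinite) :
    ∃ p : ℕ → ℕ, StrictMono p ∧ ∀ i, ∀ᶠ k in atTop, c i ∈ U (p k) := by
  have hex : ∀ n m : ℕ, ∃ k, m < k ∧ ∀ j ≤ n, c j ∈ U k := by
    intro n m
    obtain ⟨i, hi⟩ := exists_least c htot n
    have h1 : ∀ᶠ k in atTop, ∀ j ∈ Set.Iic n, c i ∈ U k → c j ∈ U k :=
      (eventually_all_finite (Set.finite_Iic n)).2 fun j hj => hi j hj
    obtain ⟨K, hK⟩ := eventually_atTop.1 h1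
    obtain ⟨k, hk, hkm⟩ := (hinf i).exists_gt (max m K)
    refine ⟨k, lt_of_le_of_lt (le_max_left _ _) hkm, fun j hj => ?_⟩
    exact hK k ((le_max_right m K).trans hkm.le) j hj hk
  choose nx h1 h2 using hex
  obtain ⟨p, hp0, hp1⟩ : ∃ p : ℕ → ℕ, p 0 = nx 0 0 ∧ ∀ k, p (k + 1) = nx (k + 1) (p k) :=
    ⟨fun k => Nat.rec (nx 0 0) (fun k m => nx (k + 1) m) k, rfl, fun k => rfl⟩
  refine ⟨p, strictMono_nat_of_lt_succ fun k => by rw [hp1]; exact h1 _ _, fun i => ?_⟩
  filter_upwards [eventually_ge_atTop i] with k hk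
  cases k with
  | zero => rw [hp0]; exact h2 _ _ i hk
  | succ k => rw [hp1]; exact h2 _ _ i hk

/-- the subsequence lemma for Sierpinski sets -/
theorem exists_subseq (μ : Measure ℝ) [IsFiniteMeasure μ] (X : Set ℝ)
    (hX : ∀ N : Set ℝ, μ N = 0 → (X ∩ N).Countable) (U : ℕ → Set ℝ)
    (hU : ∀ n, MeasurableSet (U n)) (htot : ∀ x ∈ X, ∀ y ∈ X, rel U x y ∨ rel U y x)
    (hinf : ∀ x ∈ X, {n | x ∈ U n}.Infinite) :
    ∃ p : ℕ → ℕ, StrictMono p ∧ ∀ x ∈ X, ∀ᶠ k in atTop, x ∈ U (p k) := by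
  obtain ⟨C, hC, hCX, hcoin⟩ := exists_coinitial μ X hX U hU htot
  rcases C.eq_empty_or_nonempty with rfl | hne
  · refine ⟨id, strictMono_id, fun x hx => ?_⟩
    obtain ⟨y, hy, _⟩ := hcoin x hx
    exact absurd hy (Set.notMem_empty y)
  · obtain ⟨c, rfl⟩ := hC.exists_eq_range hne
    obtain ⟨p, hp, hpc⟩ := exists_pseudo (U := U) c
      (fun i j => htot _ (hCX ⟨i, rfl⟩) _ (hCX ⟨j, rfl⟩)) (fun i => hinf _ (hCX ⟨i, rfl⟩))
    refine ⟨p, hp, fun x hx => ?_⟩
    obtain ⟨_, ⟨i, rfl⟩, hi⟩ := hcoin x hx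
    have h1 : ∀ᶠ k in atTop, c i ∈ U (p k) → x ∈ U (p k) := hp.tendsto_atTop.eventually hi
    filter_upwards [hpc i, h1] with k a b
    exact b a

/-- the diagonal selection lemma for Sierpinski sets -/
theorem exists_selection (μ : Measure ℝ) [IsFiniteMeasure μ] (X : Set ℝ)
    (hX : ∀ N : Set ℝ, μ N = 0 → (X ∩ N).Countable) (W : ℕ → ℕ → Set ℝ)
    (hW : ∀ n m, MeasurableSet (W n m)) (hg : ∀ x ∈ X, ∀ n, ∀ᶠ m in atTop, x ∈ W n m) :
    ∃ f : ℕ → ℕ, ∀ x ∈ X, ∀ᶠ n in atTop, x ∈ W n (f n) := by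
  let A : ℕ → ℕ → Set ℝ := fun n k => ⋂ m, ⋂ _ : k ≤ m, W n m
  have hA : ∀ n k, MeasurableSet (A n k) := fun n k =>
    MeasurableSet.iInter fun m => MeasurableSet.iInter fun _ => hW n m
  let G : ℕ → Set ℝ := fun n => ⋃ k, A n k
  have hG : ∀ n, MeasurableSet (G n) := fun n => MeasurableSet.iUnion fun k => hA n k
  have hXG : ∀ n, X ⊆ G n := by
    intro n x hx
    obtain ⟨k, hk⟩ := eventually_atTop.1 (hg x hx n)
    exact Set.mem_iUnion.2 ⟨k, Set.mem_iInter₂.2 fun m hm => hk m hm⟩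
  have hlim : ∀ n, Tendsto (fun k => μ (G n \ A n k)) atTop (𝓝 0) := by
    intro n
    have hanti : Antitone fun k => G n \ A n k := by
      intro k k' hkk x hx
      refine ⟨hx.1, fun h => hx.2 ?_⟩
      exact Set.mem_iInter₂.2 fun m hm => Set.mem_iInter₂.1 h m (hkk.trans hm)
    have h1 := tendsto_measure_iInter_atTop (μ := μ) (s := fun k => G n \ A n k)
      (fun k => ((hG n).diff (hA n k)).nullMeasurableSet) hanti ⟨0, measure_ne_top _ _⟩
    have h2 : ⋂ k, (G n \ A n k) = ∅ := by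
      rw [Set.eq_empty_iff_forall_notMem]
      intro x hx
      rw [Set.mem_iInter] at hx
      obtain ⟨k, hk⟩ := Set.mem_iUnion.1 (hx 0).1
      exact (hx k).2 hk
    rwa [h2, measure_empty] at h1
  have hk : ∀ n : ℕ, ∃ k, μ (G n \ A n k) < (1 / 2 : ENNReal) ^ n := by
    intro n
    have hpos : (0 : ENNReal) < (1 / 2 : ENNReal) ^ n := by
      apply ENNReal.pow_pos
      simp
    exact ((hlim n).eventually_lt_const hpos).exists
  choose κ hκ using hk
  have hsum : ∑' n, μ (G n \ A n (κ n)) ≠ ⊤ := by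
    refine ne_top_of_le_ne_top ?_ (ENNReal.tsum_le_tsum fun n => (hκ n).le)
    rw [ENNReal.tsum_geometric]
    simp
  have hlims := measure_limsup_atTop_eq_zero hsum
  obtain ⟨x, hx⟩ : ∃ x : ℕ → ℝ, ∀ y ∈ X, y ∈ limsup (fun n => G n \ A n (κ n)) atTop →
      y ∈ Set.range x := by
    have hc := hX _ hlims
    obtain ⟨e, he⟩ := (hc.insert 0).exists_eq_range ⟨0, Set.mem_insert _ _⟩
    exact ⟨e, fun y hy hy2 => by rw [← he]; exact Or.inr ⟨hy, hy2⟩⟩
  -- choose the indices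
  have hf : ∀ n, ∃ m, κ n ≤ m ∧ ∀ i ≤ n, x i ∈ X → x i ∈ W n m := by
    intro n
    have h1 : ∀ᶠ m in atTop, ∀ i ∈ Set.Iic n, x i ∈ X → x i ∈ W n m := by
      refine (eventually_all_finite (Set.finite_Iic n)).2 fun i _ => ?_
      by_cases hi : x i ∈ X
      · filter_upwards [hg _ hi n] with m hm _
        exact hm
      · exact Eventually.of_forall fun _ h => absurd h hi
    obtain ⟨m, h2, h3⟩ := ((eventually_ge_atTop (κ n)).and h1).exists
    exact ⟨m, h2, h3⟩
  choose f hf1 hf2 using hf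
  refine ⟨f, fun y hy => ?_⟩
  by_cases hyl : y ∈ limsup (fun n => G n \ A n (κ n)) atTop
  · obtain ⟨i, rfl⟩ := hx y hy hyl
    filter_upwards [eventually_ge_atTop i] with n hn
    exact hf2 n i hn hy
  · rw [limsup_eq_iInf_iSup_of_nat] at hyl
    simp only [Set.iInf_eq_iInter, Set.iSup_eq_iUnion, Set.mem_iInter, Set.mem_iUnion,
      not_forall, not_exists] at hyl
    obtain ⟨K, hK⟩ := hyl
    filter_upwards [eventually_ge_atTop K] with n hn
    have h1 := hK n hn
    have h2 : y ∈ A n (κ n) := by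
      by_contra hcon
      exact h1 ⟨hXG n hy, hcon⟩
    exact Set.mem_iInter₂.1 h2 (f n) (hf1 n)

end Pool.Agent.Helper73.Tau
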