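import Mathlib
import Pool.Agent.Helper73.TauDefs
import Pool.Agent.Helper73.TauSierp

/-!
Sierpinski sets satisfy `S_1(T, Γ)`.
-/

set_option autoImplicit false

open Set Filter MeasureTheory Topology

namespace Pool.Agent.Helper73.Tau

/-- a large open family on a second countable space has a countable large subfamily -/
theorem exists_countable_large {X : Type*} [TopologicalSpace X] [SecondCountableTopology X]
    (U : Set (Set X)) (hU : ∀ u ∈ U, IsOpen u) (hL : ∀ x : X, {u ∈ U | x ∈ u}.Infinite) :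
    ∃ V : Set (Set X), V.Countable ∧ V ⊆ U ∧ ∀ x : X, {u ∈ V | x ∈ u}.Infinite := by
  classical
  have hn : ∀ n : ℕ, ∃ V : Set (Set X), V.Countable ∧ V ⊆ U ∧
      ∀ x : X, ∃ F : Finset (Set X), F.card = n ∧ ∀ u ∈ F, u ∈ V ∧ x ∈ u := by
    intro n
    let ι : Type _ := {F : Finset (Set X) // F.card = n ∧ ∀ u ∈ F, u ∈ U}
    let s : ι → Set X := fun F => ⋂ u ∈ F.1, u
    have hs : ∀ i, IsOpen (s i) := fun i =>
      isOpen_biInter_finset fun u hu => hU u (i.2.2 u hu)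
    obtain ⟨T, hT, hTU⟩ := TopologicalSpace.isOpen_iUnion_countable s hs
    have hcov : ∀ x : X, ∃ i ∈ T, x ∈ s i := by
      intro x
      obtain ⟨F, hF, hFc⟩ := (hL x).exists_subset_card_eq n
      have h1 : x ∈ ⋃ i, s i := by
        refine Set.mem_iUnion.2 ⟨⟨F, hFc, fun u hu => (hF hu).1⟩, ?_⟩
        exact Set.mem_iInter₂.2 fun u hu => (hF hu).2
      rw [← hTU] at h1
      obtain ⟨i, hi, hxi⟩ := Set.mem_iUnion₂.1 h1
      exact ⟨i, hi, hxi⟩
    refine ⟨⋃ i ∈ T, (i.1 : Set (Set X)), ?_, ?_, ?_⟩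
    · exact hT.biUnion fun i _ => i.1.countable_toSet
    · intro u hu
      obtain ⟨i, _, hui⟩ := Set.mem_iUnion₂.1 hu
      exact i.2.2 u hui
    · intro x
      obtain ⟨i, hi, hxi⟩ := hcov x
      refine ⟨i.1, i.2.1, fun u hu => ⟨Set.mem_iUnion₂.2 ⟨i, hi, hu⟩, ?_⟩⟩
      exact Set.mem_iInter₂.1 hxi u hu
  choose V hVc hVU hV using hn
  refine ⟨⋃ n, V n, Set.countable_iUnion hVc, Set.iUnion_subset hVU, ?_⟩
  intro x hfin
  obtain ⟨F, hF, hFx⟩ := hV (hfin.toFinset.card + 1) x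
  have h1 : F ⊆ hfin.toFinset := by
    intro u hu
    rw [Set.Finite.mem_toFinset]
    exact ⟨Set.mem_iUnion.2 ⟨_, (hFx u hu).1⟩, (hFx u hu).2⟩
  have := Finset.card_le_card h1
  omega

/-- the sequence extracted from a `τ`-cover of a Sierpinski set -/
theorem exists_gamma_seq (μ : Measure ℝ) [IsFiniteMeasure μ] (X : Set ℝ) (hne : X.Nonempty)
    (hX : ∀ N : Set ℝ, μ N = 0 → (X ∩ N).Countable) (U : Set (Set X)) (hU : U ∈ Tau X) :
    ∃ W : ℕ → Set ℝ, (∀ n, IsOpen (W n)) ∧ (∀ n, (Subtype.val ⁻¹' (W n) : Set X) ∈ U) ∧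
      ∀ x ∈ X, ∀ᶠ n in atTop, x ∈ W n := by
  obtain ⟨⟨hopen, hcov, huniv⟩, hlarge, htot⟩ := hU
  obtain ⟨V, hVc, hVU, hVl⟩ := exists_countable_large U hopen hlarge
  have hVinf : V.Infinite := by
    obtain ⟨x, hx⟩ := hne
    exact (hVl ⟨x, hx⟩).mono fun u hu => hu.1
  have : Countable V := hVc.to_subtype
  have : Infinite V := hVinf.to_subtype
  obtain ⟨e⟩ : Nonempty (ℕ ≃ V) := nonempty_equiv_of_countable
  have hext : ∀ n, ∃ w : Set ℝ, IsOpen w ∧ (Subtype.val ⁻¹' w : Set X) = (e n : Set X) := fun n =>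
    isOpen_induced_iff.1 (hopen _ (hVU (e n).2))
  choose w hwo hw using hext
  have hmem : ∀ (x : X) n, (x : ℝ) ∈ w n ↔ x ∈ (e n : Set X) := by
    intro x n
    rw [← hw n]
    rfl
  obtain ⟨p, hp, hpx⟩ := exists_subseq μ X hX w (fun n => (hwo n).measurableSet) (by
    intro x hx y hy
    have key : ∀ x y : X, {u ∈ U | x ∈ u ∧ y ∉ u}.Finite → rel w x y := by
      intro x y hfin
      have h1 : {n | (x : ℝ) ∈ w n ∧ (y : ℝ) ∉ w n}.Finite := by
        refine Set.Finite.of_finite_image (f := fun n => (e n : Set X)) (hfin.subset ?_) ?_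
        · rintro _ ⟨n, ⟨h1, h2⟩, rfl⟩
          exact ⟨hVU (e n).2, (hmem x n).1 h1, fun h => h2 ((hmem y n).2 h)⟩
        · intro i _ j _ hij
          exact e.injective (Subtype.ext hij)
      have h2 : ∀ᶠ n in atTop, n ∉ {n | (x : ℝ) ∈ w n ∧ (y : ℝ) ∉ w n} := by
        rw [← Nat.cofinite_eq_atTop]
        exact h1.compl_mem_cofinite
      filter_upwards [h2] with n hn hx
      by_contra hy
      exact hn ⟨hx, hy⟩
    rcases htot ⟨x, hx⟩ ⟨y, hy⟩ with h | h
    · exact Or.inl (key _ _ h)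
    · exact Or.inr (key _ _ h)) (by
    intro x hx hfin
    refine hVl ⟨x, hx⟩ ((hfin.image fun n => (e n : Set X)).subset ?_)
    rintro u ⟨huV, hxu⟩
    refine ⟨e.symm ⟨u, huV⟩, ?_, by simp⟩
    exact (hmem ⟨x, hx⟩ _).2 (by simpa using hxu))
  refine ⟨fun k => w (p k), fun k => hwo _, fun k => ?_, hpx⟩
  rw [hw]
  exact hVU (e (p k)).2

/-- **Sierpinski sets satisfy `S_1(T, Γ)`.** -/
theorem s1_tau_gamma (μ : Measure ℝ) [IsFiniteMeasure μ] (X : Set ℝ) (hne : X.Nonempty)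
    (hX : ∀ N : Set ℝ, μ N = 0 → (X ∩ N).Countable) : S1 (Tau X) (Gamma X) := by
  intro U hU
  choose W hWo hWU hWx using fun n => exists_gamma_seq μ X hne hX (U n) (hU n)
  obtain ⟨f, hf⟩ := exists_selection μ X hX W (fun n m => (hWo n m).measurableSet)
    (fun x hx n => hWx n x hx)
  let u : ℕ → Set X := fun n => Subtype.val ⁻¹' (W n (f n))
  have hu : ∀ n, u n ∈ U n := fun n => hWU n (f n)
  have hev : ∀ x : X, ∀ᶠ n in atTop, x ∈ u n := fun x => hf x x.2
  have huniv : Set.univ ∉ Set.range u := by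
    rintro ⟨n, hn⟩
    exact (hU n).1.2.2 (hn ▸ hu n)
  refine ⟨u, hu, ⟨?_, ?_, huniv⟩, ?_, ?_⟩
  · rintro _ ⟨n, rfl⟩
    exact (hU n).1.1 _ (hu n)
  · rw [Set.eq_univ_iff_forall]
    intro x
    obtain ⟨n, hn⟩ := (hev x).exists
    exact ⟨u n, ⟨n, rfl⟩, hn⟩
  · intro hfin
    have : Finite (Set.range u) := hfin
    obtain ⟨v, hv⟩ := Finite.exists_infinite_fiber (Set.rangeFactorization u)
    have hinf : (Set.rangeFactorization u ⁻¹' {v}).Infinite := Set.infinite_coe_iff.1 hv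
    refine huniv ?_
    have hvu : (v : Set X) = Set.univ := by
      rw [Set.eq_univ_iff_forall]
      intro x
      obtain ⟨N, hN⟩ := eventually_atTop.1 (hev x)
      obtain ⟨n, hn, hnN⟩ := hinf.exists_gt N
      have h1 : Set.rangeFactorization u n = v := hn
      rw [← h1]
      exact hN n hnN.le
    rw [← hvu]
    exact v.2
  · intro x
    obtain ⟨N, hN⟩ := eventually_atTop.1 (hev x)
    refine ((Set.finite_Iio N).image u).subset ?_
    rintro _ ⟨⟨n, rfl⟩, hx⟩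
    refine ⟨n, ?_, rfl⟩
    by_contra hn
    exact hx (hN n (not_lt.1 hn))

end Pool.Agent.Helper73.Tau
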