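import Mathlib
import Pool.Agent.Helper73.TauDefs

/-!
A non-Menger square.
-/

set_option autoImplicit false

open Set Filter Topology
open scoped Pointwise

namespace Pool.Agent.Helper73.Tau

/-- zero and the unit fractions -/
def K : Set ℝ := insert 0 (Set.range fun m : ℕ => (1 : ℝ) / (m + 1))

/-- sums of at most `n` unit fractions -/
def A : ℕ → Set ℝ
  | 0 => {0}
  | n + 1 => A n + K

theorem isCompact_K : IsCompact K :=
  Filter.Tendsto.isCompact_insert_range (tendsto_one_div_add_atTop_nhds_zero_nat (𝕜 := ℝ))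

theorem isCompact_A : ∀ n, IsCompact (A n)
  | 0 => isCompact_singleton
  | n + 1 => (isCompact_A n).add isCompact_K

theorem countable_A : ∀ n, (A n).Countable
  | 0 => Set.countable_singleton 0
  | n + 1 => (countable_A n).image2 ((Set.countable_range _).insert 0) (fun x y => x + y)

theorem nonempty_A : ∀ n, (A n).Nonempty
  | 0 => ⟨0, rfl⟩
  | n + 1 => (nonempty_A n).add ⟨0, Or.inl rfl⟩

/-- the countable set of all finite sums of unit fractions -/
def D : Set ℝ := ⋃ n, A n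

theorem countable_D : D.Countable := Set.countable_iUnion countable_A

theorem step (n : ℕ) (p r : ℝ) (hp : p ∈ A n) (hr : 0 < r) (d ε : ℝ) (hε : 0 < ε) :
    ∃ p' ∈ A (n + 1), ∃ r' : ℝ, 0 < r' ∧ r' ≤ ε ∧
      Metric.closedBall p' r' ⊆ Metric.closedBall p r ∧ d ∉ Metric.closedBall p' r' := by
  obtain ⟨m, hm⟩ : ∃ m : ℕ, (1 : ℝ) / (m + 1) < r := exists_nat_one_div_lt hr
  obtain ⟨q, hqK, hq0, hqr, hqd⟩ : ∃ q ∈ K, 0 ≤ q ∧ q < r ∧ p + q ≠ d := by
    by_cases h : p + (1 : ℝ) / (m + 1) = d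
    · refine ⟨0, Or.inl rfl, le_rfl, hr, ?_⟩
      intro h'
      have : (0 : ℝ) < 1 / (m + 1) := by positivity
      linarith
    · exact ⟨_, Or.inr ⟨m, rfl⟩, by positivity, hm, h⟩
  have hd : 0 < |d - (p + q)| := abs_pos.2 (sub_ne_zero.2 (Ne.symm hqd))
  refine ⟨p + q, Set.add_mem_add hp hqK, min ε (min (r - q) (|d - (p + q)| / 2)), ?_, ?_, ?_, ?_⟩
  · exact lt_min hε (lt_min (by linarith) (by positivity))
  · exact min_le_left _ _
  · refine Metric.closedBall_subset_closedBall' ?_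
    have h1 : min ε (min (r - q) (|d - (p + q)| / 2)) ≤ r - q :=
      (min_le_right _ _).trans (min_le_left _ _)
    have h2 : dist (p + q) p = q := by
      rw [Real.dist_eq, add_sub_cancel_left, abs_of_nonneg hq0]
    rw [h2]
    linarith
  · rw [Metric.mem_closedBall, Real.dist_eq, not_le]
    have h1 : min ε (min (r - q) (|d - (p + q)| / 2)) ≤ |d - (p + q)| / 2 :=
      (min_le_right _ _).trans (min_le_right _ _)
    linarith

theorem exists_point (g : ℕ → ℕ) :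
    ∃ z, z ∉ D ∧ ∀ n, Metric.infDist z (A n) ≤ 1 / ((g n : ℝ) + 1) := by
  classical
  obtain ⟨d, hd⟩ := countable_D.exists_eq_range ⟨0, Set.mem_iUnion.2 ⟨0, rfl⟩⟩
  -- states: a level, a centre and a radius
  let St : Type := Σ' n : ℕ, {q : ℝ × ℝ // q.1 ∈ A n ∧ 0 < q.2 ∧ q.2 ≤ 1 / ((g n : ℝ) + 1)}
  have hnext : ∀ s : St, ∃ t : St, t.1 = s.1 + 1 ∧
      Metric.closedBall t.2.1.1 t.2.1.2 ⊆ Metric.closedBall s.2.1.1 s.2.1.2 ∧
      d s.1 ∉ Metric.closedBall t.2.1.1 t.2.1.2 := by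
    rintro ⟨n, ⟨⟨p, r⟩, hp, hr, hrg⟩⟩
    obtain ⟨p', hp', r', hr', hre, h1, h2⟩ := step n p r hp hr (d n) (1 / ((g (n + 1) : ℝ) + 1))
      (by positivity)
    exact ⟨⟨n + 1, ⟨(p', r'), hp', hr', hre⟩⟩, rfl, h1, h2⟩
  choose nx h1 h2 h3 using hnext
  let s0 : St := ⟨0, ⟨(0, 1 / ((g 0 : ℝ) + 1)), rfl, by positivity, le_rfl⟩⟩
  obtain ⟨s, hs0, hs⟩ : ∃ s : ℕ → St, s 0 = s0 ∧ ∀ k, s (k + 1) = nx (s k) :=
    ⟨fun k => Nat.rec s0 (fun _ t => nx t) k, rfl, fun k => rfl⟩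
  have hlev : ∀ k, (s k).1 = k := by
    intro k
    induction k with
    | zero => rw [hs0]
    | succ k ih => rw [hs, h1, ih]
  let B : ℕ → Set ℝ := fun k => Metric.closedBall (s k).2.1.1 (s k).2.1.2
  have hB : ∀ k, B (k + 1) ⊆ B k := by
    intro k
    show Metric.closedBall (s (k + 1)).2.1.1 (s (k + 1)).2.1.2 ⊆ _
    rw [hs]
    exact h2 (s k)
  obtain ⟨z, hz⟩ := IsCompact.nonempty_iInter_of_sequence_nonempty_isCompact_isClosed B hB
    (fun k => ⟨(s k).2.1.1, Metric.mem_closedBall_self (s k).2.2.2.1.le⟩)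
    (isCompact_closedBall _ _) (fun k => Metric.isClosed_closedBall)
  rw [Set.mem_iInter] at hz
  refine ⟨z, ?_, ?_⟩
  · rw [hd]
    rintro ⟨k, rfl⟩
    have h4 := hz (k + 1)
    have h5 : d (s k).1 ∉ Metric.closedBall (s (k + 1)).2.1.1 (s (k + 1)).2.1.2 := by
      rw [hs]; exact h3 (s k)
    have h6 : d (s k).1 = d k := congrArg d (hlev k)
    rw [h6] at h5
    exact h5 h4
  · intro n
    have h4 : z ∈ Metric.closedBall (s n).2.1.1 (s n).2.1.2 := hz n
    have h5 := (s n).2.2.1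
    have h6 := (s n).2.2.2.2
    have h7 : (s n).2.1.1 ∈ A n := (congrArg A (hlev n)).subset h5
    have h8 : (1 : ℝ) / ((g (s n).1 : ℝ) + 1) = 1 / ((g n : ℝ) + 1) :=
      congrArg (fun j : ℕ => (1 : ℝ) / ((g j : ℝ) + 1)) (hlev n)
    exact (Metric.infDist_le_dist_of_mem h7).trans (h4.trans (h6.trans_eq h8))

/-- If the sums of elements of `S` are exactly the points outside `D`, then the square of `S` fails
`S_fin(T, Ω)`. -/
theorem not_sfin (S : Set ℝ) (h1 : ∀ x ∈ S, ∀ y ∈ S, x + y ∉ D)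
    (h2 : ∀ r, r ∉ D → ∃ x ∈ S, ∃ y ∈ S, x + y = r) : ¬ Sfin (Tau (S × S)) (Omega (S × S)) := by
  classical
  intro hS
  let u : ℕ → ℕ → Set (S × S) := fun n m =>
    {q | (1 : ℝ) / ((m : ℝ) + 1) < Metric.infDist ((q.1 : ℝ) + (q.2 : ℝ)) (A n)}
  have hmono : ∀ n, Monotone (u n) := by
    intro n m m' hmm q hq
    have hq' : (1 : ℝ) / ((m : ℝ) + 1) < Metric.infDist ((q.1 : ℝ) + (q.2 : ℝ)) (A n) := hq
    show (1 : ℝ) / ((m' : ℝ) + 1) < Metric.infDist ((q.1 : ℝ) + (q.2 : ℝ)) (A n)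
    refine lt_of_le_of_lt ?_ hq'
    apply one_div_le_one_div_of_le (by positivity)
    have : (m : ℝ) ≤ m' := by exact_mod_cast hmm
    linarith
  have hopen : ∀ n m, IsOpen (u n m) := by
    intro n m
    refine isOpen_lt continuous_const ?_
    refine (Metric.continuous_infDist_pt (A n)).comp ?_
    fun_prop
  have hpos : ∀ n (q : S × S), ∃ m, q ∈ u n m := by
    intro n q
    have h3 : (q.1 : ℝ) + (q.2 : ℝ) ∉ A n := fun h =>
      h1 _ q.1.2 _ q.2.2 (Set.mem_iUnion.2 ⟨n, h⟩)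
    have h4 : 0 < Metric.infDist ((q.1 : ℝ) + (q.2 : ℝ)) (A n) :=
      ((isCompact_A n).isClosed.notMem_iff_infDist_pos (nonempty_A n)).1 h3
    obtain ⟨m, hm⟩ := exists_nat_one_div_lt h4
    exact ⟨m, hm⟩
  have hnot : ∀ g : ℕ → ℕ, ∃ q : S × S, ∀ n, q ∉ u n (g n) := by
    intro g
    obtain ⟨z, hzD, hz⟩ := exists_point g
    obtain ⟨x, hx, y, hy, rfl⟩ := h2 z hzD
    exact ⟨(⟨x, hx⟩, ⟨y, hy⟩), fun n h => absurd h (not_lt.2 (hz n))⟩
  have hne : ∀ n m, u n m ≠ Set.univ := by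
    intro n m h
    obtain ⟨q, hq⟩ := hnot fun _ => m
    exact hq n (h ▸ Set.mem_univ q)
  have hfinnot : ∀ n (q : S × S), {v ∈ Set.range (u n) | q ∉ v}.Finite := by
    intro n q
    obtain ⟨m, hm⟩ := hpos n q
    refine ((Set.finite_Iio m).image (u n)).subset ?_
    rintro _ ⟨⟨k, rfl⟩, hk⟩
    refine ⟨k, ?_, rfl⟩
    by_contra hkm
    exact hk (hmono n (not_lt.1 hkm) hm)
  have hinf : ∀ n, (Set.range (u n)).Infinite := by
    intro n hfin
    -- a finite increasing family has a largest member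
    have : ∃ m, ∀ k, u n k ⊆ u n m := by
      obtain ⟨v, hv⟩ := hfin.exists_maximal ⟨u n 0, 0, rfl⟩
      obtain ⟨m, rfl⟩ := hv.1
      refine ⟨m, fun k => ?_⟩
      rcases le_total k m with h | h
      · exact hmono n h
      · exact hv.2 ⟨k, rfl⟩ (hmono n h)
    obtain ⟨m, hm⟩ := this
    apply hne n m
    rw [Set.eq_univ_iff_forall]
    intro q
    obtain ⟨k, hk⟩ := hpos n q
    exact hm k hk
  have htau : ∀ n, Set.range (u n) ∈ Tau (S × S) := by
    intro n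
    refine ⟨⟨?_, ?_, ?_⟩, ?_, ?_⟩
    · rintro _ ⟨m, rfl⟩
      exact hopen n m
    · rw [Set.eq_univ_iff_forall]
      intro q
      obtain ⟨m, hm⟩ := hpos n q
      exact ⟨u n m, ⟨m, rfl⟩, hm⟩
    · rintro ⟨m, hm⟩
      exact hne n m hm
    · intro q hfin
      refine hinf n ((hfin.union (hfinnot n q)).subset ?_)
      intro v hv
      by_cases hq : q ∈ v
      · exact Or.inl ⟨hv, hq⟩
      · exact Or.inr ⟨hv, hq⟩
    · intro x y
      refine Or.inl ((hfinnot n y).subset ?_)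
      rintro v ⟨hv, _, hy⟩
      exact ⟨hv, hy⟩
  obtain ⟨F, hF, hFΩ⟩ := hS (fun n => Set.range (u n)) htau
  -- a bound for each finite selection
  have hbound : ∀ n, ∃ g, ∀ v ∈ F n, v ⊆ u n g := by
    intro n
    obtain ⟨hfin, hsub⟩ := hF n
    have : ∀ v ∈ F n, ∃ k, u n k = v := fun v hv => hsub hv
    choose! k hk using this
    obtain ⟨g, hg⟩ := (hfin.image k).bddAbove
    refine ⟨g, fun v hv => ?_⟩
    rw [← hk v hv]
    exact hmono n (hg ⟨v, hv, rfl⟩)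
  choose g hg using hbound
  obtain ⟨q, hq⟩ := hnot g
  have hcov := hFΩ.1.2.1
  have : q ∈ ⋃₀ ⋃ n, F n := by rw [hcov]; exact Set.mem_univ q
  obtain ⟨v, hv, hqv⟩ := this
  obtain ⟨n, hn⟩ := Set.mem_iUnion.1 hv
  exact hq n (hg n v hn hqv)

end Pool.Agent.Helper73.Tau
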