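import Mathlib
import Pool.Agent.Helper73.TauDefs
import Pool.Agent.Helper73.TauS1
import Pool.Agent.Helper73.TauCH
import Pool.Agent.Helper73.TauSquare

/-!
Main theorem for problem MP_24a1d9_gt, Q2.
-/

set_option autoImplicit false

open Set Filter MeasureTheory Topology

namespace Pool.Agent.Helper73.Tau

section
variable {X : Type*} [TopologicalSpace X]

theorem gamma_subset_tau : Gamma X ⊆ Tau X := by
  rintro U ⟨hU, hinf, hfin⟩
  refine ⟨hU, ?_, ?_⟩
  · intro x h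
    refine hinf ((h.union (hfin x)).subset ?_)
    intro u hu
    by_cases hx : x ∈ u
    · exact Or.inl ⟨hu, hx⟩
    · exact Or.inr ⟨hu, hx⟩
  · intro x y
    refine Or.inl ((hfin y).subset ?_)
    rintro v ⟨hv, _, hy⟩
    exact ⟨hv, hy⟩

theorem tau_subset_omega [Nonempty X] : Tau X ⊆ Omega X := by
  rintro U ⟨hU, hinf, htot⟩
  refine ⟨hU, ?_⟩
  -- every nonempty finite set has a least element
  have key : ∀ F : Set X, F.Finite → ∃ x : X, ∀ y ∈ F, {u ∈ U | x ∈ u ∧ y ∉ u}.Finite := by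
    intro F hF
    induction F, hF using Set.Finite.induction_on with
    | empty => exact ⟨Classical.arbitrary X, fun y hy => absurd hy (Set.notMem_empty y)⟩
    | insert _ _ ih =>
      rename_i a s _ _
      obtain ⟨x, hx⟩ := ih
      rcases htot x a with h | h
      · refine ⟨x, fun y hy => ?_⟩
        rcases hy with rfl | hy
        · exact h
        · exact hx y hy
      · refine ⟨a, fun y hy => ?_⟩
        rcases hy with rfl | hy
        · refine Set.Finite.subset Set.finite_empty ?_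
          rintro u ⟨_, h1, h2⟩
          exact absurd h1 h2
        · refine (h.union (hx y hy)).subset ?_
          rintro u ⟨hu, h1, h2⟩
          by_cases hxu : x ∈ u
          · exact Or.inr ⟨hu, hxu, h2⟩
          · exact Or.inl ⟨hu, h1, hxu⟩
  intro F hF
  obtain ⟨x, hx⟩ := key F hF
  have h1 : (⋃ y ∈ F, {u ∈ U | x ∈ u ∧ y ∉ u}).Finite := hF.biUnion hx
  obtain ⟨u, ⟨huU, hxu⟩, hu⟩ := ((hinf x).sdiff h1).nonempty
  refine ⟨u, huU, fun y hy => ?_⟩
  by_contra hyu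
  exact hu (Set.mem_iUnion₂.2 ⟨y, hy, huU, hxu, hyu⟩)

omit [TopologicalSpace X] in
theorem S1.mono {A B C : Set (Set (Set X))} (h : S1 A B) (hBC : B ⊆ C) : S1 A C := by
  intro U hU
  obtain ⟨u, hu, hB⟩ := h U hU
  exact ⟨u, hu, hBC hB⟩

omit [TopologicalSpace X] in
theorem Sfin.mono {A B C : Set (Set (Set X))} (h : Sfin A B) (hBC : B ⊆ C) : Sfin A C := by
  intro U hU
  obtain ⟨u, hu, hB⟩ := h U hU
  exact ⟨u, hu, hBC hB⟩

omit [TopologicalSpace X] in
theorem S1.sfin {A B : Set (Set (Set X))} (h : S1 A B) : Sfin A B := by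
  intro U hU
  obtain ⟨u, hu, hB⟩ := h U hU
  refine ⟨fun n => {u n}, fun n => ⟨Set.finite_singleton _, Set.singleton_subset_iff.2 (hu n)⟩, ?_⟩
  have : (⋃ n, ({u n} : Set (Set X))) = Set.range u := by
    ext v
    simp only [Set.mem_iUnion, Set.mem_singleton_iff, Set.mem_range]
    constructor
    · rintro ⟨n, rfl⟩; exact ⟨n, rfl⟩
    · rintro ⟨n, rfl⟩; exact ⟨n, rfl⟩
  rw [this]
  exact hB

end

theorem main (CH : (Cardinal.aleph 1 : Cardinal.{0}) = Cardinal.continuum) :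
    ∃ X : Set ℝ, X.Nonempty ∧ S1 (Tau X) (Gamma X) ∧ ¬ Sfin (Tau (X × X)) (Omega (X × X)) := by
  obtain ⟨S, h1, h2, h3⟩ := exists_sierpinski CH D countable_D
  obtain ⟨z, hz, _⟩ := exists_point fun _ => 0
  have hne : S.Nonempty := by
    obtain ⟨x, hx, _⟩ := h3 z hz
    exact ⟨x, hx⟩
  refine ⟨S, hne, ?_, not_sfin S h2 h3⟩
  refine s1_tau_gamma (volume : Measure ℝ).toFinite S hne ?_
  intro N hN
  exact h1 N (absolutelyContinuous_toFinite volume hN)

theorem main_all (CH : (Cardinal.aleph 1 : Cardinal.{0}) = Cardinal.continuum) :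
    ∃ X : Set ℝ,
      (S1 (Tau X) (Gamma X) ∧ ¬ S1 (Tau (X × X)) (Gamma (X × X))) ∧
      (S1 (Tau X) (Tau X) ∧ ¬ S1 (Tau (X × X)) (Tau (X × X))) ∧
      (S1 (Tau X) (Omega X) ∧ ¬ S1 (Tau (X × X)) (Omega (X × X))) ∧
      (Sfin (Tau X) (Tau X) ∧ ¬ Sfin (Tau (X × X)) (Tau (X × X))) ∧
      (Sfin (Tau X) (Omega X) ∧ ¬ Sfin (Tau (X × X)) (Omega (X × X))) := by
  obtain ⟨X, ⟨x, hx⟩, h1, h2⟩ := main CH
  have : Nonempty X := ⟨⟨x, hx⟩⟩
  have h3 : Gamma (X × X) ⊆ Omega (X × X) := gamma_subset_tau.trans tau_subset_omega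
  refine ⟨X, ⟨h1, fun h => h2 (h.sfin.mono h3)⟩,
    ⟨h1.mono gamma_subset_tau, fun h => h2 (h.sfin.mono tau_subset_omega)⟩,
    ⟨h1.mono (gamma_subset_tau.trans tau_subset_omega), fun h => h2 h.sfin⟩,
    ⟨(h1.mono gamma_subset_tau).sfin, fun h => h2 (h.mono tau_subset_omega)⟩,
    ⟨(h1.mono (gamma_subset_tau.trans tau_subset_omega)).sfin, h2⟩⟩

end Pool.Agent.Helper73.Tau
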