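import Mathlib

/-!
Definitions for problem MP_7819b7_lc: strong measure zero sets in the Cantor space, Yorioka ideals,
relational systems and Tukey reductions, directed systems and dominating systems.
-/

set_option autoImplicit false

open Set Cardinal

namespace Pool.Agent.Helper73.Yor

/-- The Cantor space `2^ω`. -/
abbrev C : Type := ℕ → Bool

/-- The point `x` extends the finite sequence `s`. -/
def Ext (s : List Bool) (x : C) : Prop := ∀ (i : ℕ) (hi : i < s.length), s[i] = x i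

/-- `g ≤* h`. -/
def LeStar (g h : ℕ → ℕ) : Prop := ∀ᶠ n in Filter.atTop, g n ≤ h n

/-- `f ≪ g`: for every `k`, `f (i ^ k) ≤ g i` for all but finitely many `i`. -/
def Ll (f g : ℕ → ℕ) : Prop := ∀ k : ℕ, LeStar (fun i => f (i ^ k)) g

/-- The function `h_σ`. -/
def len (σ : ℕ → List Bool) : ℕ → ℕ := fun n => (σ n).length

/-- `[σ]_∞`, the points which extend `σ n` for infinitely many `n`. -/
def Inf (σ : ℕ → List Bool) : Set C := {x | ∃ᶠ n in Filter.atTop, Ext (σ n) x}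

/-- Strong measure zero subsets of `2^ω`. -/
def SMZ (X : Set C) : Prop :=
  ∀ f : ℕ → ℕ, ∃ σ : ℕ → List Bool, len σ = f ∧ ∀ x ∈ X, ∃ n, Ext (σ n) x

/-- The (Yorioka) ideal `I_f`. -/
def YI (f : ℕ → ℕ) (X : Set C) : Prop := ∃ σ : ℕ → List Bool, X ⊆ Inf σ ∧ Ll f (len σ)

/-- A relational system. -/
structure RelSys where
  X : Type
  Y : Type
  R : X → Y → Prop

/-- `A ≤_T B`. -/
def Tukey (A B : RelSys) : Prop :=
  ∃ (ψ₁ : A.X → B.X) (ψ₂ : B.Y → A.Y), ∀ x y', B.R (ψ₁ x) y' → A.R x (ψ₂ y')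

/-- The relational system of a preorder. -/
def ofOrder (S : Type) [LE S] : RelSys := ⟨S, S, (· ≤ ·)⟩

/-- The relational system `⟨SN, SN, ⊆⟩`. -/
def SN : RelSys := ⟨{X : Set C // SMZ X}, {X : Set C // SMZ X}, fun A B => A.1 ⊆ B.1⟩

/-- The cardinal `lam`, as a well-ordered set of order type `lam`. -/
abbrev Card (lam : Cardinal.{0}) : Type := lam.ord.ToType

/-- An `I_f` directed system on `S`. -/
def DirSys (f : ℕ → ℕ) (S : Type) [LE S] (A : S → Set C) : Prop :=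
  (∀ i, IsGδ (A i) ∧ Dense (A i) ∧ YI f (A i)) ∧ (∀ i j, i ≤ j → A i ⊆ A j) ∧
    ∀ X, YI f X → ∃ i, X ⊆ A i

/-- There is a `lam`-dominating system on `S`. -/
def DomSys (lam : Cardinal.{0}) (S : Type) [LE S] [OrderBot S] : Prop :=
  ∃ (f : Card lam → ℕ → ℕ) (A : Card lam → S → Set C),
    (∀ γ, StrictMono (f γ)) ∧ (∀ g, ∃ γ, LeStar g (f γ)) ∧ (∀ γ, DirSys (f γ) S (A γ)) ∧
    ∀ γ, ¬ YI (f γ) (⋂ η : {η : Card lam // η < γ}, A η ⊥)

/-- `minnon ≥ lam`: for increasing `f`, every set of size less than `lam` belongs to `I_f`. -/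
def MinnonGe (lam : Cardinal.{0}) : Prop :=
  ∀ f : ℕ → ℕ, Monotone f → ∀ X : Set C, #X < lam → YI f X

/-- `𝔡 ≤ mu`. -/
def DomLe (mu : Cardinal.{0}) : Prop :=
  ∃ D : Set (ℕ → ℕ), #D ≤ mu ∧ ∀ g, ∃ d ∈ D, LeStar g d

/-- `mu < add(SN)`: the union of at most `mu` strong measure zero sets is of strong measure
zero. -/
def LtAddSN (mu : Cardinal.{0}) : Prop :=
  ∀ F : Set (Set C), #F ≤ mu → (∀ X ∈ F, SMZ X) → SMZ (⋃₀ F)

end Pool.Agent.Helper73.Yor
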