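import Mathlib
import Pool.Agent.Helper73.YorDefs

/-!
Yorioka ideals: countable sets, unions, dense `G_δ` members, and the fact that a dense `G_δ` set is
not in `I_f` for all large `f`.
-/

set_option autoImplicit false

open Set Cardinal Filter

namespace Pool.Agent.Helper73.Yor

/-! ### The topology of the Cantor space -/

theorem isOpen_ext (s : List Bool) : IsOpen {x : C | Ext s x} := by
  have : {x : C | Ext s x} = ⋂ i : Fin s.length, {x : C | s[i] = x i} := by
    ext x
    simp only [Ext, mem_setOf_eq, mem_iInter]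
    exact ⟨fun h i => h i i.2, fun h i hi => h ⟨i, hi⟩⟩
  rw [this]
  refine isOpen_iInter_of_finite fun i => ?_
  have : {x : C | s[i] = x i} = (fun x : C => x i) ⁻¹' {s[i]} := by
    ext x
    simp [eq_comm]
  rw [this]
  exact (isOpen_discrete _).preimage (continuous_apply _)

/-- agreement below `L` -/
def Agree (L : ℕ) (x y : C) : Prop := ∀ i < L, x i = y i

theorem Agree.refl (L : ℕ) (x : C) : Agree L x x := fun _ _ => rfl

theorem Agree.symm {L : ℕ} {x y : C} (h : Agree L x y) : Agree L y x := fun i hi => (h i hi).symm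

theorem Agree.trans {L : ℕ} {x y z : C} (h : Agree L x y) (h' : Agree L y z) : Agree L x z :=
  fun i hi => (h i hi).trans (h' i hi)

theorem Agree.mono {L L' : ℕ} (hL : L ≤ L') {x y : C} (h : Agree L' x y) : Agree L x y :=
  fun i hi => h i (hi.trans_le hL)

theorem isOpen_agree (L : ℕ) (x : C) : IsOpen {y : C | Agree L x y} := by
  have : {y : C | Agree L x y} = ⋂ i : Fin L, (fun y : C => y i) ⁻¹' {x i} := by
    ext y
    simp only [Agree, mem_setOf_eq, mem_iInter, mem_preimage, mem_singleton_iff]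
    exact ⟨fun h i => (h i i.2).symm, fun h i hi => (h ⟨i, hi⟩).symm⟩
  rw [this]
  exact isOpen_iInter_of_finite fun i => (isOpen_discrete _).preimage (continuous_apply _)

theorem exists_agree {U : Set C} (hU : IsOpen U) {x : C} (hx : x ∈ U) :
    ∃ L, ∀ y, Agree L x y → y ∈ U := by
  rw [isOpen_pi_iff] at hU
  obtain ⟨I, u, hu, hI⟩ := hU x hx
  refine ⟨I.sup id + 1, fun y hy => hI ?_⟩
  intro i hi
  have : i < I.sup id + 1 := Nat.lt_succ_of_le (Finset.le_sup (f := id) hi)
  rw [← hy i this]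
  exact (hu i hi).2

/-! ### Dense `G_δ` sets and `I_f` -/

/-- Uniform splitting below a dense open set. -/
theorem exists_split {U : Set C} (hU : IsOpen U) (hUd : Dense U) (L : ℕ) :
    ∃ L', L < L' ∧ ∀ x : C, ∃ y₀ y₁ : C, Agree L x y₀ ∧ Agree L x y₁ ∧ ¬ Agree L' y₀ y₁ ∧
      (∀ z, Agree L' y₀ z → z ∈ U) ∧ (∀ z, Agree L' y₁ z → z ∈ U) := by
  classical
  have key : ∀ (x : C) (b : Bool), ∃ (y : C) (M : ℕ), Agree L x y ∧ y L = b ∧
      ∀ z, Agree M y z → z ∈ U := by
    intro x b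
    obtain ⟨y, hy1, hy2⟩ := hUd.inter_open_nonempty _ (isOpen_agree (L + 1) (Function.update x L b))
      ⟨_, Agree.refl _ _⟩
    obtain ⟨M, hM⟩ := exists_agree hU hy2
    refine ⟨y, M, fun i hi => ?_, ?_, hM⟩
    · rw [← hy1 i (by omega), Function.update_of_ne (by omega)]
    · rw [← hy1 L (by omega), Function.update_self]
  choose y M h1 h2 h3 using key
  -- `M` made uniform: finitely many restrictions to `Fin L`
  let e : (Fin L → Bool) → C := fun s i => if h : i < L then s ⟨i, h⟩ else false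
  let N : ℕ := Finset.univ.sup fun s : Fin L → Bool => max (M (e s) false) (M (e s) true)
  refine ⟨max (L + 1) N, by omega, fun x => ?_⟩
  let s : Fin L → Bool := fun i => x i
  have hs : Agree L x (e s) := fun i hi => by simp only [e, s]; rw [dif_pos hi]
  have hN : max (M (e s) false) (M (e s) true) ≤ N :=
    Finset.le_sup (f := fun s : Fin L → Bool => max (M (e s) false) (M (e s) true))
      (Finset.mem_univ s)
  refine ⟨y (e s) false, y (e s) true, hs.trans (h1 _ _), hs.trans (h1 _ _), fun h => ?_,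
    fun z hz => h3 _ _ z (hz.mono ?_), fun z hz => h3 _ _ z (hz.mono ?_)⟩
  · have := h L (by omega)
    rw [h2, h2] at this
    exact Bool.false_ne_true this
  · omega
  · omega

/-- A dense `G_δ` set is not contained in `[σ]_∞` if `h_σ` is large. -/
theorem exists_witness {A : Set C} (hA : IsGδ A) (hd : Dense A) :
    ∃ f : ℕ → ℕ, ∀ σ : ℕ → List Bool, LeStar f (len σ) → ¬ A ⊆ Inf σ := by
  classical
  obtain ⟨U, hU, hAU⟩ := isGδ_iff_eq_iInter_nat.1 hA
  have hUd : ∀ n, Dense (U n) := fun n => hd.mono (hAU ▸ iInter_subset U n)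
  choose L' hL' hsp using fun n L => exists_split (hU n) (hUd n) L
  let ℓ : ℕ → ℕ := fun n => Nat.rec 0 (fun n L => L' n L) n
  have hℓ : ∀ n, ℓ (n + 1) = L' n (ℓ n) := fun n => rfl
  have hℓlt : ∀ n, ℓ n < ℓ (n + 1) := fun n => hL' n (ℓ n)
  have hℓm : StrictMono ℓ := strictMono_nat_of_lt_succ hℓlt
  refine ⟨fun n => ℓ (n + 1), fun σ hσ hsub => ?_⟩
  -- one step
  have step : ∀ (n : ℕ) (x : C), ∃ y : C, Agree (ℓ n) x y ∧
      (∀ z, Agree (ℓ (n + 1)) y z → z ∈ U n) ∧
      (ℓ (n + 1) ≤ (σ n).length → ∀ z, Agree (ℓ (n + 1)) y z → ¬ Ext (σ n) z) := by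
    intro n x
    obtain ⟨y₀, y₁, h0, h1, hne, h2, h3⟩ := hsp n (ℓ n) x
    by_cases h : ∃ z, Agree (ℓ (n + 1)) y₀ z ∧ Ext (σ n) z
    · refine ⟨y₁, h1, h3, fun hlen z hz hext => hne ?_⟩
      obtain ⟨z₀, hz₀, hext₀⟩ := h
      have : Agree (ℓ (n + 1)) z₀ z := fun i hi => by
        rw [← hext₀ i (hi.trans_le hlen), ← hext i (hi.trans_le hlen)]
      exact (hz₀.trans this).trans hz.symm
    · exact ⟨y₀, h0, h2, fun _ z hz hext => h ⟨z, hz, hext⟩⟩
  choose nx hnx1 hnx2 hnx3 using step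
  let X : ℕ → C := fun n => Nat.rec (fun _ => false) (fun n x => nx n x) n
  have hX : ∀ n, X (n + 1) = nx n (X n) := fun n => rfl
  have hagree : ∀ n m, n ≤ m → Agree (ℓ n) (X n) (X m) := by
    intro n m hnm
    induction m, hnm using Nat.le_induction with
    | base => exact Agree.refl _ _
    | succ m hm ih =>
      refine ih.trans ?_
      rw [hX]
      exact (hnx1 m (X m)).mono (hℓm.monotone hm)
  have hid : ∀ n, n ≤ ℓ n := hℓm.id_le
  let x : C := fun i => X (i + 1) i
  have hx : ∀ n, Agree (ℓ n) (X n) x := by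
    intro n i hi
    rcases le_total n (i + 1) with h | h
    · exact hagree n (i + 1) h i hi
    · exact (hagree (i + 1) n h i (hid (i + 1))).symm
  have hxA : x ∈ A := by
    rw [hAU, mem_iInter]
    intro n
    exact hnx2 n (X n) x (hX n ▸ hx (n + 1))
  have hxσ := hsub hxA
  have : ∃ᶠ n in atTop, Ext (σ n) x ∧ ℓ (n + 1) ≤ (σ n).length := hxσ.and_eventually hσ
  obtain ⟨n, hn1, hn2⟩ := this.exists
  exact hnx3 n (X n) hn2 x (hX n ▸ hx (n + 1)) hn1

/-! ### Members of `I_f` -/

/-- a function `≫ f` -/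
def big (f : ℕ → ℕ) (n : ℕ) : ℕ := ∑ k ∈ Finset.range (n + 1), f (n ^ k)

theorem ll_of_big_le {f g : ℕ → ℕ} (h : ∀ n, big f n ≤ g n) : Ll f g := by
  intro k
  filter_upwards [eventually_ge_atTop k] with n hn
  refine le_trans ?_ (h n)
  exact Finset.single_le_sum (f := fun k => f (n ^ k)) (fun _ _ => Nat.zero_le _)
    (Finset.mem_range.2 (by omega))

/-- A sequence which extends every finite sequence infinitely often. -/
def kap (f : ℕ → ℕ) (n : ℕ) : List Bool :=
  ((Encodable.decode (α := List Bool) n.unpair.1).getD []) ++ List.replicate (big f n) false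

theorem ll_kap (f : ℕ → ℕ) : Ll f (len (kap f)) := by
  refine ll_of_big_le fun n => ?_
  simp [len, kap]

theorem isGδ_inf (σ : ℕ → List Bool) : IsGδ (Inf σ) := by
  have : Inf σ = ⋂ m : ℕ, ⋃ n : {n : ℕ // m ≤ n}, {x : C | Ext (σ n) x} := by
    ext x
    simp only [Inf, mem_setOf_eq, frequently_atTop, mem_iInter, mem_iUnion, Subtype.exists,
      exists_prop, ge_iff_le]
  rw [this]
  exact IsGδ.iInter_of_isOpen fun m => isOpen_iUnion fun n => isOpen_ext _

theorem dense_inf_kap (f : ℕ → ℕ) : Dense (Inf (kap f)) := by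
  have : Inf (kap f) = ⋂ m : ℕ, ⋃ n : {n : ℕ // m ≤ n}, {x : C | Ext (kap f n) x} := by
    ext x
    simp only [Inf, mem_setOf_eq, frequently_atTop, mem_iInter, mem_iUnion, Subtype.exists,
      exists_prop, ge_iff_le]
  rw [this]
  refine dense_iInter_of_isOpen (fun m => isOpen_iUnion fun n => isOpen_ext _) fun m => ?_
  rw [dense_iff_inter_open]
  rintro V hV ⟨x, hx⟩
  obtain ⟨L, hL⟩ := exists_agree hV hx
  let s : List Bool := List.ofFn fun i : Fin L => x i
  let n : ℕ := Nat.pair (Encodable.encode s) m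
  have hn : m ≤ n := Nat.right_le_pair _ _
  have hkap : kap f n = s ++ List.replicate (big f n) false := by
    simp [kap, n]
  let y : C := fun i => (kap f n)[i]?.getD false
  refine ⟨y, hL y fun i hi => ?_, mem_iUnion.2 ⟨⟨n, hn⟩, fun i hi => ?_⟩⟩
  · have hsl : s.length = L := by simp [s]
    simp only [y]
    rw [hkap, List.getElem?_append_left (by omega)]
    simp [s, hi]
  · simp only [y]
    rw [List.getElem?_eq_getElem hi]
    rfl

/-- interleaving -/
def inter (σ τ : ℕ → List Bool) (n : ℕ) : List Bool := if n % 2 = 0 then σ (n / 2) else τ (n / 2)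

theorem inf_inter_left (σ τ : ℕ → List Bool) : Inf σ ⊆ Inf (inter σ τ) := by
  intro x hx
  simp only [Inf, mem_setOf_eq, frequently_atTop] at hx ⊢
  intro a
  obtain ⟨b, hb, hext⟩ := hx a
  refine ⟨2 * b, by omega, ?_⟩
  simp only [inter]
  rw [if_pos (by omega), show 2 * b / 2 = b by omega]
  exact hext

theorem inf_inter_right (σ τ : ℕ → List Bool) : Inf τ ⊆ Inf (inter σ τ) := by
  intro x hx
  simp only [Inf, mem_setOf_eq, frequently_atTop] at hx ⊢
  intro a
  obtain ⟨b, hb, hext⟩ := hx a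
  refine ⟨2 * b + 1, by omega, ?_⟩
  simp only [inter]
  rw [if_neg (by omega), show (2 * b + 1) / 2 = b by omega]
  exact hext

theorem ll_inter {f : ℕ → ℕ} (hf : Monotone f) {σ τ : ℕ → List Bool} (hσ : Ll f (len σ))
    (hτ : Ll f (len τ)) : Ll f (len (inter σ τ)) := by
  intro k
  have h1 := hσ (k + 1)
  have h2 := hτ (k + 1)
  unfold LeStar at h1 h2 ⊢
  rw [eventually_atTop] at h1 h2 ⊢
  obtain ⟨a, ha⟩ := h1
  obtain ⟨b, hb⟩ := h2
  refine ⟨2 * (max a b) + 2 * 3 ^ k + 2, fun n hn => ?_⟩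
  have hn2 : 3 ^ k ≤ n / 2 := by omega
  have hpow : n ^ k ≤ (n / 2) ^ (k + 1) := by
    have h3 : n ≤ 3 * (n / 2) := by omega
    calc n ^ k ≤ (3 * (n / 2)) ^ k := Nat.pow_le_pow_left h3 k
      _ = 3 ^ k * (n / 2) ^ k := by rw [mul_pow]
      _ ≤ (n / 2) * (n / 2) ^ k := Nat.mul_le_mul_right _ hn2
      _ = (n / 2) ^ (k + 1) := by ring
  have hfn : f (n ^ k) ≤ f ((n / 2) ^ (k + 1)) := hf hpow
  simp only [len, inter]
  split_ifs with h
  · exact hfn.trans (ha (n / 2) (by omega))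
  · exact hfn.trans (hb (n / 2) (by omega))

theorem YI.union {f : ℕ → ℕ} (hf : Monotone f) {X Y : Set C} (hX : YI f X) (hY : YI f Y) :
    ∃ ρ : ℕ → List Bool, X ∪ Y ⊆ Inf ρ ∧ Ll f (len ρ) := by
  obtain ⟨σ, h1, h2⟩ := hX
  obtain ⟨τ, h3, h4⟩ := hY
  exact ⟨inter σ τ, union_subset (h1.trans (inf_inter_left σ τ)) (h3.trans (inf_inter_right σ τ)),
    ll_inter hf h2 h4⟩

/-- Countable sets belong to `I_f`. -/
theorem YI.of_countable (f : ℕ → ℕ) {X : Set C} (hX : X.Countable) : YI f X := by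
  rcases X.eq_empty_or_nonempty with rfl | hne
  · exact ⟨kap f, empty_subset _, ll_kap f⟩
  · obtain ⟨x, hx⟩ := hX.exists_eq_range hne
    refine ⟨fun n => List.ofFn fun i : Fin (big f n) => x n.unpair.1 i, ?_, ll_of_big_le ?_⟩
    · rintro y hy
      rw [hx] at hy
      obtain ⟨k, rfl⟩ := hy
      simp only [Inf, mem_setOf_eq, frequently_atTop]
      intro a
      refine ⟨Nat.pair k a, Nat.right_le_pair _ _, fun i hi => ?_⟩
      simp
    · intro n
      simp [len]

end Pool.Agent.Helper73.Yor
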