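import Mathlib
import Pool.Agent.Helper73.YorIdeal

/-!
If `𝔡 = ℵ₁` then there is an `ℵ₁`-dominating system on a directed set `S` with `ℵ₁ ≤_T S`; if
moreover `add(SN) > ℵ₁` then `D_λ^λ` is not Tukey below `SN` (`λ = ℵ₁`).
-/

set_option autoImplicit false

open Set Cardinal Filter

namespace Pool.Agent.Helper73.Yor

/-- The index set `ω₁`. -/
abbrev W : Type := Card (ℵ_ 1)

theorem countable_Iio (γ : W) : Countable {η : W // η < γ} := by
  have h : #(Iio γ) < ℵ_ 1 := mk_Iio_toType_ord_lt γ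
  have h2 : #(Iio γ) < Order.succ ℵ₀ := h.trans_eq succ_aleph0.symm
  exact mk_le_aleph0_iff.1 (Order.lt_succ_iff.1 h2)

instance : NoMaxOrder W := noMaxOrder (aleph0_le_aleph 1)

instance : Nonempty W := by
  rw [← mk_ne_zero_iff, mk_toType, card_ord]
  exact (aleph_pos 1).ne'

/-- `K f`, a dense `G_δ` set in `I_f`. -/
def K (f : ℕ → ℕ) : Set C := Inf (kap f)

theorem K_isGδ (f : ℕ → ℕ) : IsGδ (K f) := isGδ_inf _
theorem K_dense (f : ℕ → ℕ) : Dense (K f) := dense_inf_kap f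
theorem K_mem (f : ℕ → ℕ) : YI f (K f) := ⟨kap f, subset_rfl, ll_kap f⟩

/-- a strictly increasing function above `g` and `h` -/
def up (g h : ℕ → ℕ) (n : ℕ) : ℕ := ∑ i ∈ Finset.range (n + 1), (g i + h i + 1)

theorem up_strictMono (g h : ℕ → ℕ) : StrictMono (up g h) := by
  refine strictMono_nat_of_lt_succ fun n => ?_
  unfold up
  rw [Finset.sum_range_succ _ (n + 1)]
  omega

theorem le_up_left (g h : ℕ → ℕ) (n : ℕ) : g n ≤ up g h n := by
  unfold up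
  rw [Finset.sum_range_succ]
  omega

theorem le_up_right (g h : ℕ → ℕ) (n : ℕ) : h n ≤ up g h n := by
  unfold up
  rw [Finset.sum_range_succ]
  omega

open Classical in
/-- a witness as in `exists_witness` -/
noncomputable def wit (G : Set C) : ℕ → ℕ :=
  if h : IsGδ G ∧ Dense G then (exists_witness h.1 h.2).choose else id

theorem wit_spec {G : Set C} (h1 : IsGδ G) (h2 : Dense G) {σ : ℕ → List Bool}
    (hσ : LeStar (wit G) (len σ)) : ¬ G ⊆ Inf σ := by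
  unfold wit at hσ
  rw [dif_pos ⟨h1, h2⟩] at hσ
  exact (exists_witness h1 h2).choose_spec σ hσ

/-- The functions `f γ`, by recursion. -/
noncomputable def fn (d : W → ℕ → ℕ) : W → ℕ → ℕ :=
  WellFoundedLT.fix (motive := fun _ => ℕ → ℕ)
    (fun γ prev => up (d γ) (wit (⋂ η : {η : W // η < γ}, K (prev η.1 η.2))))

theorem fn_eq (d : W → ℕ → ℕ) (γ : W) :
    fn d γ = up (d γ) (wit (⋂ η : {η : W // η < γ}, K (fn d η.1))) := by
  unfold fn
  rw [WellFoundedLT.fix_eq]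

theorem fn_strictMono (d : W → ℕ → ℕ) (γ : W) : StrictMono (fn d γ) := by
  rw [fn_eq]
  exact up_strictMono _ _

theorem not_mem (d : W → ℕ → ℕ) (γ : W) : ¬ YI (fn d γ) (⋂ η : {η : W // η < γ}, K (fn d η.1)) := by
  rintro ⟨σ, hσ, hll⟩
  haveI := countable_Iio γ
  refine wit_spec (σ := σ) (IsGδ.iInter fun η => K_isGδ _)
    (dense_iInter_of_Gδ (fun η => K_isGδ _) fun η => K_dense _) ?_ hσ
  have h1 := hll 1
  unfold LeStar at h1 ⊢
  filter_upwards [h1] with n hn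
  simp only [pow_one] at hn
  refine le_trans ?_ hn
  rw [fn_eq d γ]
  exact le_up_right _ _ n

/-- The basis of `I_f` above `K f`. -/
abbrev Bas (f : ℕ → ℕ) : Type := {A : Set C // IsGδ A ∧ Dense A ∧ YI f A ∧ K f ⊆ A}

theorem exists_bas {f : ℕ → ℕ} (hf : Monotone f) {X : Set C} (hX : YI f X) :
    ∃ A : Bas f, X ⊆ A.1 := by
  obtain ⟨ρ, h1, h2⟩ := YI.union hf hX (K_mem f)
  refine ⟨⟨Inf ρ, isGδ_inf ρ, (K_dense f).mono (subset_union_right.trans h1), ⟨ρ, subset_rfl, h2⟩,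
    subset_union_right.trans h1⟩, subset_union_left.trans h1⟩

instance (f : ℕ → ℕ) : OrderBot (Bas f) where
  bot := ⟨K f, K_isGδ f, K_dense f, K_mem f, subset_rfl⟩
  bot_le A := A.2.2.2.2

theorem bas_directed {f : ℕ → ℕ} (hf : Monotone f) (A B : Bas f) : ∃ D : Bas f, A ≤ D ∧ B ≤ D := by
  obtain ⟨ρ, h1, h2⟩ := YI.union hf A.2.2.2.1 B.2.2.2.1
  obtain ⟨D, hD⟩ := exists_bas hf ⟨ρ, subset_rfl, h2⟩
  exact ⟨D, (subset_union_left.trans h1).trans hD, (subset_union_right.trans h1).trans hD⟩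

open Classical in
noncomputable instance : OrderBot W where
  bot := (wellFounded_lt (α := W)).min univ univ_nonempty
  bot_le a := not_lt.1 ((wellFounded_lt (α := W)).not_lt_min univ (mem_univ a))

/-- The directed set. -/
abbrev S (d : W → ℕ → ℕ) : Type := (∀ γ : W, Bas (fn d γ)) × W

theorem S_directed (d : W → ℕ → ℕ) (a b : S d) : ∃ c : S d, a ≤ c ∧ b ≤ c := by
  choose D hD1 hD2 using fun γ => bas_directed (fn_strictMono d γ).monotone (a.1 γ) (b.1 γ)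
  exact ⟨(D, max a.2 b.2), ⟨hD1, le_max_left _ _⟩, ⟨hD2, le_max_right _ _⟩⟩

theorem S_noMax (d : W → ℕ → ℕ) (a : S d) : ∃ b : S d, ¬ b ≤ a := by
  obtain ⟨j, hj⟩ := exists_gt a.2
  exact ⟨(a.1, j), fun h => absurd h.2 (not_le.2 hj)⟩

theorem S_tukey (d : W → ℕ → ℕ) : Tukey (ofOrder W) (ofOrder (S d)) :=
  ⟨fun j => ((⊥, j) : S d), fun s => s.2, fun _ _ h => h.2⟩

theorem S_domSys (d : W → ℕ → ℕ) (hd : ∀ g, ∃ γ, LeStar g (d γ)) : DomSys (ℵ_ 1) (S d) := by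
  refine ⟨fn d, fun γ s => (s.1 γ).1, fn_strictMono d, fun g => ?_, fun γ => ⟨fun s => ?_,
    fun s t h => h.1 γ, fun X hX => ?_⟩, fun γ => ?_⟩
  · obtain ⟨γ, hγ⟩ := hd g
    refine ⟨γ, ?_⟩
    unfold LeStar at hγ ⊢
    filter_upwards [hγ] with n hn
    rw [fn_eq]
    exact hn.trans (le_up_left _ _ n)
  · exact ⟨(s.1 γ).2.1, (s.1 γ).2.2.1, (s.1 γ).2.2.2.1⟩
  · classical
    obtain ⟨A, hA⟩ := exists_bas (fn_strictMono d γ).monotone hX
    refine ⟨(Function.update ⊥ γ A, ⊥), ?_⟩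
    simp only [Function.update_self]
    exact hA
  · exact not_mem d γ

theorem minnon_ge : MinnonGe (ℵ_ 1) := by
  intro f _ X hX
  rw [← succ_aleph0, Order.lt_succ_iff, le_aleph0_iff_set_countable] at hX
  exact YI.of_countable f hX

theorem not_tukey (hadd : LtAddSN (ℵ_ 1)) : ¬ Tukey (ofOrder (W → W)) SN := by
  rintro ⟨ψ₁, ψ₂, h⟩
  let φ : (W → W) → {X : Set C // SMZ X} := ψ₁
  let χ : {X : Set C // SMZ X} → (W → W) := ψ₂
  have h' : ∀ (x : W → W) (Y : {X : Set C // SMZ X}), (φ x).1 ⊆ Y.1 → x ≤ χ Y := h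
  have hF : SMZ (⋃₀ range fun j : W => (φ fun _ => j).1) := by
    refine hadd _ (mk_range_le.trans ?_) ?_
    · rw [mk_toType, card_ord]
    · rintro _ ⟨j, rfl⟩
      exact (φ fun _ => j).2
  obtain ⟨j, hj⟩ := exists_gt (χ ⟨_, hF⟩ ⊥)
  have h1 : (fun _ : W => j) ≤ χ ⟨_, hF⟩ :=
    h' (fun _ => j) ⟨_, hF⟩ (subset_sUnion_of_mem (mem_range_self j))
  exact absurd (h1 ⊥) (not_le.2 hj)

theorem exists_dom (hd : DomLe (ℵ_ 1)) : ∃ d : W → ℕ → ℕ, ∀ g, ∃ γ, LeStar g (d γ) := by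
  classical
  obtain ⟨D, hD, hdom⟩ := hd
  have h1 : #D ≤ #W := by rwa [mk_toType, card_ord]
  obtain ⟨e⟩ := h1
  obtain ⟨d₀, hd₀, _⟩ := hdom id
  refine ⟨fun γ => if h : ∃ x : D, e x = γ then (h.choose : ℕ → ℕ) else id, fun g => ?_⟩
  obtain ⟨d, hdD, hgd⟩ := hdom g
  refine ⟨e ⟨d, hdD⟩, ?_⟩
  have h : ∃ x : D, e x = e ⟨d, hdD⟩ := ⟨_, rfl⟩
  simp only [dif_pos h]
  rw [e.injective h.choose_spec]
  exact hgd

end Pool.Agent.Helper73.Yor
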